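import Pool.Agent.Lib.MP_8fffab_lc_AC.Defs

/-!
# Tests on the gates of a circuit of small depth, for the clique problem: definitions

The circuits are those of `Pool.Agent.Lib.MP_8fffab_lc_AC.Defs`: AND gates and OR gates of any
fan-in, NOT gates and further gates, which compute arbitrary Boolean functions of a limited number
of gates. A test looks at the values of the gates.
-/

open Finset

namespace CliqueCert

open SmallDepth (Circuit)

/-- The sets of at most `D` of the gates with numbers `≤ o` all of which are true; `v i` is the
value of the gate with number `i`. -/
noncomputable def trueSets (o D : ℕ) (v : ℕ → Prop) : Finset (Finset ℕ) := by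
  classical exact (range (o + 1)).powerset.filter fun S => S.card ≤ D ∧ ∀ i ∈ S, v i

/-- A test consists of one equation in a finite abelian group `Γ` and of `t` linear inequalities
with real coefficients. The unknowns are the products of gates, which are indexed by the finite
sets `S` of (numbers of) gates. -/
structure Test (t : ℕ) where
  Γ : Type
  [group : AddCommGroup Γ]
  [finite : Finite Γ]
  c : Finset ℕ → Γ
  b : Γ
  w : Fin t → Finset ℕ → ℝ
  θ : Fin t → ℝ

attribute [instance] Test.group Test.finite

/-- The gates with the values `v` pass the test: the equation and all inequalities are true for the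
products of at most `D` of the gates with numbers `≤ o`. -/
def Test.Passes {t : ℕ} (τ : Test t) (o D : ℕ) (v : ℕ → Prop) : Prop :=
  ∑ S ∈ trueSets o D v, τ.c S = τ.b ∧ ∀ j, τ.θ j ≤ ∑ S ∈ trueSets o D v, τ.w j S

/-- There are a circuit of depth at most `d` with at most `s` gates (inputs and NOT gates are not
counted), whose further gates have at most `f` input wires each, and `A` tests with `t`
inequalities each, on the products of at most `D` gates of the circuit, such that a graph on
`Fin n` has no `k`-clique if and only if it passes at least one of the tests. The inputs of the
circuit say which vertices are adjacent. -/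
def HasTests (n k d f s D t A : ℕ) : Prop :=
  ∃ (C : Circuit (Fin n × Fin n)) (o : ℕ) (τ : Fin A → Test t),
    C.size o ≤ s ∧ (∀ i ≤ o, C.depth i ≤ d ∧ (C i).wires ≤ f) ∧
    ∀ G : SimpleGraph (Fin n), G.CliqueFree k ↔
      ∃ a, (τ a).Passes o D (C.val fun e => G.Adj e.1 e.2)

end CliqueCert
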