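import Pool.Agent.Lib.MP_678664_lc_AC.Template
import Pool.Agent.Lib.CERT.Defs

/-!
# PROJECT CERT (MP_678664_lc): the planted instances with many planted tuples

A block is a pair `(j, r)` of a type `j < k` and of (the number of) a planted tuple `r < T`; it
consists of the units `((j, r), w)`, `w < N`. A unit has the coordinates `(u, none)`, which says
which of its two labels `L (u, b)`, `b : Bool`, it has, and `(u, some i)`, `i < l`, which are its
state. Every unit `u` gives the vertices `(u, a)`, where `a : Fin k → Fin l → Bool` is a guess of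
the states of `k` units.
-/

open Finset

namespace CliqueCert

open SmallDepth CliqueDepth

/-- Blocks. -/
abbrev Blk (k T : ℕ) := Fin k × Fin T

/-- Units. -/
abbrev Uni (k T N : ℕ) := (Fin k × Fin T) × Fin N

/-- Coordinates. -/
abbrev Crd (k T N l : ℕ) := ((Fin k × Fin T) × Fin N) × Option (Fin l)

/-- Units with the number of one of the two labels. -/
abbrev Slot (k T N : ℕ) := ((Fin k × Fin T) × Fin N) × Bool

/-- Vertices. -/
abbrev Vtx (k T N l : ℕ) := ((Fin k × Fin T) × Fin N) × (Fin k → Fin l → Bool)

section

variable {k T N l n : ℕ} {Λ : Type}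

/-- The generalized inner product of the states `y j`. -/
def gip (y : Fin k → Fin l → Bool) : Prop :=
  Odd (univ.filter fun i : Fin l => ∀ j, y j i = true).card

/-- The label of a unit. -/
def labu (L : Slot k T N → Λ) (x : Crd k T N l → Bool) (u : Uni k T N) : Λ := L (u, x (u, none))

/-- The state of a unit. -/
def stu (x : Crd k T N l → Bool) (u : Uni k T N) : Fin l → Bool := fun i => x (u, some i)

/-- Adjacency, from smaller to larger types. -/
def adjc (R : Fin k → Fin k → Λ → Λ → Prop) (L : Slot k T N → Λ) (x : Crd k T N l → Bool)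
    (a b : Vtx k T N l) : Prop :=
  a.1.1.1 < b.1.1.1 ∧ R a.1.1.1 b.1.1.1 (labu L x a.1) (labu L x b.1) ∧ a.2 = b.2 ∧
    a.2 a.1.1.1 = stu x a.1 ∧ b.2 b.1.1.1 = stu x b.1 ∧ gip a.2

/-- The graph. -/
def grc (φ : Vtx k T N l ↪ Fin n) (R : Fin k → Fin k → Λ → Λ → Prop) (L : Slot k T N → Λ)
    (x : Crd k T N l → Bool) : SimpleGraph (Fin n) where
  Adj v v' := ∃ a b, ((φ a = v ∧ φ b = v') ∨ (φ b = v ∧ φ a = v')) ∧ adjc R L x a b
  symm := ⟨by
    rintro v v' ⟨a, b, h, h'⟩
    exact ⟨a, b, h.symm.imp And.symm And.symm, h'⟩⟩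
  loopless := ⟨by
    rintro v ⟨a, b, h, h'⟩
    have h1 : φ a = φ b := by
      rcases h with h | h
      · exact h.1.trans h.2.symm
      · exact h.2.trans h.1.symm
    have h2 := φ.injective h1
    have h3 := h'.1
    rw [h2] at h3
    exact lt_irrefl _ h3⟩

/-- The inputs of a circuit. -/
def inp (φ : Vtx k T N l ↪ Fin n) (R : Fin k → Fin k → Λ → Λ → Prop) (L : Slot k T N → Λ)
    (x : Crd k T N l → Bool) (e : Fin n × Fin n) : Prop := (grc φ R L x).Adj e.1 e.2

/-- The coordinates of the planted units `(b, u b)`. -/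
def Pc (l : ℕ) (u : Fin k × Fin T → Fin N) : Finset (Crd k T N l) :=
  univ.image fun e : (Fin k × Fin T) × Option (Fin l) => ((e.1, u e.1), e.2)

/-- Number of units with a coordinate in `U`. -/
def tch (U : Finset (Crd k T N l)) : ℕ := (U.image fun e => e.1).card

/-- The coordinates `X` of the planted units. -/
def Qc (X : Finset ((Fin k × Fin T) × Option (Fin l))) (u : Fin k × Fin T → Fin N) :
    Finset (Crd k T N l) :=
  X.image fun e => ((e.1, u e.1), e.2)

/-- The blocks of `X`. -/
def bls (X : Finset ((Fin k × Fin T) × Option (Fin l))) : Finset (Fin k × Fin T) :=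
  X.image fun e => e.1

/-- The sets of coordinates of planted units which touch more than `W` and at most `2 W` units. -/
def med (k T l W : ℕ) : Finset (Finset ((Fin k × Fin T) × Option (Fin l))) :=
  univ.filter fun X => W < (bls X).card ∧ (bls X).card ≤ 2 * W

/-- The labels `L`, where the labels with number true of the planted units in the blocks
`(j, r) ∈ J` are replaced by `κ r j`. -/
def plc (L : Slot k T N → Λ) (u : Fin k × Fin T → Fin N) (κ : Fin T → Fin k → Λ)
    (J : Finset (Fin k × Fin T)) : Slot k T N → Λ :=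
  fun e => if e.2 = true ∧ e.1.1 ∈ J ∧ e.1.2 = u e.1.1 then κ e.1.1.2 e.1.1.1 else L e

/-- There is a clique of labels which is not one of the planted ones, if the planted units have the
labels with number true. -/
def Extc (R : Fin k → Fin k → Λ → Λ → Prop) (L : Slot k T N → Λ) (G : Crd k T N l → Bool)
    (u : Fin k × Fin T → Fin N) : Prop :=
  ∃ w : Fin k → Fin T × Fin N, (¬ ∃ r, ∀ j, w j = (r, u (j, r))) ∧
    IsCl R fun j => L (((j, (w j).1), (w j).2),
      if (w j).2 = u (j, (w j).1) then true else G (((j, (w j).1), (w j).2), none))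

/-- The live units of the block `b`. -/
def live (ρ : Restr (Crd k T N l)) (b : Fin k × Fin T) : Finset (Fin N) :=
  univ.filter fun w => ∀ c : Option (Fin l), ρ ((b, w), c) = none

/-- The assignment for which the planted units have the labels with number true and the states
`y`; here `y j (r, i)` is the bit number `i` of the state of the planted unit in block `(j, r)`. -/
def asg (G : Crd k T N l → Bool) (u : Fin k × Fin T → Fin N)
    (y : Fin k → Fin T × Fin l → Bool) : Crd k T N l → Bool :=
  fun e => if e.1.2 = u e.1.1 then e.2.elim true (fun i => y e.1.1.1 (e.1.1.2, i)) else G e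

/-- The cliques of labels. -/
noncomputable def Kc [Fintype Λ] (R : Fin k → Fin k → Λ → Λ → Prop) : Finset (Fin k → Λ) := by
  classical exact univ.filter (IsCl R)

/-- The sequences of `T` cliques of labels. -/
noncomputable def Kp (T : ℕ) [Fintype Λ] (R : Fin k → Fin k → Λ → Λ → Prop) :
    Finset (Fin T → Fin k → Λ) := by
  classical exact Fintype.piFinset fun _ => Kc R

end

section parties

variable {k : ℕ} {I : Type}

/-- The function `h` does not depend on the input of the party `j`. -/
def Misses {α : Type} (h : (Fin k → I → Bool) → α) (j : Fin k) : Prop :=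
  ∀ y z : Fin k → I → Bool, (∀ i, i ≠ j → y i = z i) → h y = h z

/-- The sign `∏ i, (-1) ^ (∧ j, y j i)`. -/
def sgi [Fintype I] (y : Fin k → I → Bool) : ℂ :=
  ∏ i : I, if ∀ j, y j i = true then -1 else 1

/-- The correlation of `F`, times products of bounded functions which miss a party, with the sign
is at most `B`. -/
def Cyl [Fintype I] [DecidableEq I] (F : (Fin k → I → Bool) → ℂ) (B : ℝ) : Prop :=
  ∀ χ : Fin k → (Fin k → I → Bool) → ℂ, (∀ j y, ‖χ j y‖ ≤ 1) → (∀ j, Misses (χ j) j) →
    ‖∑ y, sgi y * F y * ∏ j, χ j y‖ ≤ B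

/-- The sum of the `c S` over all `S ∈ s` with `P S`. -/
noncomputable def gsum {σ M : Type} [AddCommMonoid M] (s : Finset σ) (P : σ → Prop) (c : σ → M) :
    M := by
  classical exact ∑ S ∈ s.filter P, c S

/-- The number `1` if `P` is true and `0` if not. -/
noncomputable def indC (P : Prop) : ℂ := ((ind P : ℝ) : ℂ)

/-- `P` depends only on the states of the planted units in the blocks `b ∈ B`. -/
def DepOn {T l : ℕ} (B : Finset (Fin k × Fin T)) (P : (Fin k → Fin T × Fin l → Bool) → Prop) :
    Prop :=
  ∀ y z, (∀ b ∈ B, ∀ i, y b.1 (b.2, i) = z b.1 (b.2, i)) → (P y ↔ P z)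

end parties

end CliqueCert
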