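import Pool.Agent.Lib.CERT.Cardx

/-!
# PROJECT CERT: a sum over many functions which depend on few blocks is a sum over few of them
-/

open Finset

namespace CliqueCert

open SmallDepth CliqueDepth

section parties

variable {k : ℕ} {I : Type}

/-- Row MISS. -/
theorem DepOn.misses {T l : ℕ} {B : Finset (Fin k × Fin T)}
    {P : (Fin k → Fin T × Fin l → Bool) → Prop} (h : DepOn B P) (hB : B.card < k) :
    ∃ j, Misses P j := by
  have h1 : (B.image Prod.fst).card < (univ : Finset (Fin k)).card := by
    rw [card_univ, Fintype.card_fin]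
    exact card_image_le.trans_lt hB
  obtain ⟨j, -, hj⟩ := exists_mem_notMem_of_card_lt_card h1
  refine ⟨j, fun y z hyz => propext (h y z fun b hb i => ?_)⟩
  rw [hyz b.1 fun h' => hj (mem_image.2 ⟨b, hb, h'⟩)]

/-- The states which are true at the coordinates `Z`. -/
def bst {T l : ℕ} (Z : Finset ((Fin k × Fin T) × Fin l)) : Fin k → Fin T × Fin l → Bool :=
  fun j p => decide (((j, p.1), p.2) ∈ Z)

/-- The states agree with `Z` in the blocks `B`. -/
def bfn {T l : ℕ} (e : Finset (Fin k × Fin T) × Finset ((Fin k × Fin T) × Fin l))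
    (y : Fin k → Fin T × Fin l → Bool) : Prop :=
  ∀ b ∈ e.1, ∀ i, y b.1 (b.2, i) = bst e.2 b.1 (b.2, i)

/-- The index set of the basis. -/
def bix (k T l : ℕ) : Finset (Finset (Fin k × Fin T) × Finset ((Fin k × Fin T) × Fin l)) :=
  univ.filter fun e => e.1.card < k ∧ e.2 ⊆ e.1 ×ˢ (univ : Finset (Fin l))

theorem card_bix (k T l : ℕ) : (bix k T l).card ≤ (k * T + 1) ^ k * 2 ^ (l * k) := by
  have h1 : bix k T l ⊆ (univ.filter fun J : Finset (Fin k × Fin T) => J.card ≤ k).biUnion
      fun J => ((J ×ˢ (univ : Finset (Fin l))).powerset).image fun Z => (J, Z) := by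
    intro e he
    rw [bix, mem_filter] at he
    rw [mem_biUnion]
    refine ⟨e.1, ?_, ?_⟩
    · rw [mem_filter]
      exact ⟨mem_univ _, he.2.1.le⟩
    · rw [mem_image]
      exact ⟨e.2, mem_powerset.2 he.2.2, rfl⟩
  refine (card_le_card h1).trans (card_biUnion_le.trans ?_)
  refine (sum_le_card_nsmul _ _ (2 ^ (l * k)) ?_).trans ?_
  · intro J hJ
    rw [mem_filter] at hJ
    refine card_image_le.trans ?_
    rw [card_powerset, card_product, card_univ, Fintype.card_fin, mul_comm J.card]
    exact Nat.pow_le_pow_right (by norm_num) (Nat.mul_le_mul_left _ hJ.2)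
  · rw [smul_eq_mul]
    refine Nat.mul_le_mul_right _ ((card_small _ _).trans (le_of_eq ?_))
    rw [Fintype.card_prod, Fintype.card_fin, Fintype.card_fin]

/-- The sum of `w S` over `S ∈ s` with `P S`, as a sum over all `S ∈ s`. -/
theorem gsum_eq {σ : Type} (s : Finset σ) (P : σ → Prop) (w : σ → ℝ) :
    gsum s P w = ∑ S ∈ s, ind (P S) * w S := by
  rw [gsum, sum_filter]
  refine sum_congr rfl fun S _ => ?_
  by_cases h : P S
  · rw [if_pos h, ind, if_pos h, one_mul]
  · rw [if_neg h, ind, if_neg h, zero_mul]

/-- Row BASIS: a sum over many functions, each of which depends on fewer than `k` blocks, is a sum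
over few of them, namely the functions `[y = z on B]`, where `B` is a set of fewer than `k` blocks
and `z` are states of the planted units in the blocks of `B`. -/
theorem basis {T l : ℕ} {σ : Type} (s : Finset σ)
    (P : σ → (Fin k → Fin T × Fin l → Bool) → Prop)
    (hP : ∀ S ∈ s, ∃ B : Finset (Fin k × Fin T), B.card < k ∧ DepOn B (P S)) (w : σ → ℝ) :
    ∃ (m : ℕ) (h : Fin m → (Fin k → Fin T × Fin l → Bool) → Prop) (w' : Fin m → ℝ),
      m ≤ (k * T + 1) ^ k * 2 ^ (l * k) ∧
      (∀ i, ∃ B : Finset (Fin k × Fin T), B.card < k ∧ DepOn B (h i)) ∧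
      ∀ y, gsum s (fun S => P S y) w = gsum univ (fun i => h i y) w' := by
  classical
  have hP' : ∀ S, ∃ B : Finset (Fin k × Fin T), S ∈ s → B.card < k ∧ DepOn B (P S) := by
    intro S
    by_cases hS : S ∈ s
    · obtain ⟨B, hB⟩ := hP S hS
      exact ⟨B, fun _ => hB⟩
    · exact ⟨∅, fun h => absurd h hS⟩
  choose B hB using hP'
  set W : Finset (Fin k × Fin T) × Finset ((Fin k × Fin T) × Fin l) → ℝ := fun e =>
    ∑ S ∈ s, (if B S = e.1 then ind (P S (bst e.2)) * w S else 0) with hW
  have hmain : ∀ y, gsum s (fun S => P S y) w = ∑ e ∈ bix k T l, ind (bfn e y) * W e := by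
    intro y
    rw [gsum_eq]
    simp only [hW, mul_sum]
    rw [sum_comm]
    refine sum_congr rfl fun S hS => ?_
    obtain ⟨h1, h2⟩ := hB S hS
    set Z : Finset ((Fin k × Fin T) × Fin l) :=
      (B S ×ˢ (univ : Finset (Fin l))).filter fun e => y e.1.1 (e.1.2, e.2) = true with hZ
    have hZm : ∀ b ∈ B S, ∀ i, y b.1 (b.2, i) = bst Z b.1 (b.2, i) := by
      intro b hb i
      rw [bst, eq_comm]
      by_cases hy : y b.1 (b.2, i) = true
      · rw [hy, decide_eq_true_iff, hZ, mem_filter, mem_product]
        exact ⟨⟨hb, mem_univ _⟩, hy⟩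
      · rw [Bool.not_eq_true] at hy
        rw [hy, decide_eq_false_iff_not, hZ, mem_filter]
        intro h3
        have h4 := h3.2
        change y b.1 (b.2, i) = true at h4
        rw [hy] at h4
        exact absurd h4 (by decide)
    rw [sum_eq_single (B S, Z)]
    · rw [if_pos rfl, ind, ind, ind, if_pos (show bfn (B S, Z) y from hZm), one_mul]
      have h3 : P S y ↔ P S (bst Z) := h2 _ _ hZm
      by_cases h4 : P S y
      · rw [if_pos h4, if_pos (h3.1 h4)]
      · rw [if_neg h4, if_neg fun h5 => h4 (h3.2 h5)]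
    · rintro ⟨B', Z'⟩ he hne
      by_cases h3 : B S = B'
      · subst h3
        rw [if_pos rfl]
        rw [bix, mem_filter] at he
        have h4 : ¬ bfn (B S, Z') y := by
          intro h5
          apply hne
          congr 1
          ext ⟨b, i⟩
          by_cases hb : b ∈ B S
          · have h6 := h5 b hb i
            rw [hZm b hb i] at h6
            simp only [bst] at h6
            rw [decide_eq_decide] at h6
            exact h6.symm
          · constructor
            · intro h7
              exact absurd (mem_product.1 (he.2.2 h7)).1 hb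
            · intro h7
              rw [hZ, mem_filter, mem_product] at h7
              exact absurd h7.1.1 hb
        rw [ind, if_neg h4, zero_mul]
      · rw [if_neg h3, mul_zero]
    · intro h3
      refine absurd ?_ h3
      rw [bix, mem_filter]
      exact ⟨mem_univ _, h1, filter_subset _ _⟩
  refine ⟨(bix k T l).card, fun i => bfn ((bix k T l).equivFin.symm i).1,
    fun i => W ((bix k T l).equivFin.symm i).1, card_bix k T l, fun i => ?_, fun y => ?_⟩
  · have h1 := (mem_filter.1 ((bix k T l).equivFin.symm i).2).2.1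
    refine ⟨_, h1, fun y z hyz => ?_⟩
    refine forall₂_congr fun b hb => forall_congr' fun i' => ?_
    rw [hyz b hb i']
  · rw [hmain, gsum_eq]
    rw [← sum_coe_sort (bix k T l) fun e => ind (bfn e y) * W e]
    refine Fintype.sum_equiv (bix k T l).equivFin _ _ fun e => ?_
    change _ = ind (bfn ((bix k T l).equivFin.symm ((bix k T l).equivFin e)).1 y) * _
    rw [Equiv.symm_apply_apply]

end parties

end CliqueCert
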