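import Pool.Agent.Lib.CERT.Base
import Pool.Agent.Lib.CERT76.BNS

/-! # Row BNS -/

open Finset

namespace CliqueCert

open SmallDepth CliqueDepth

section parties

variable {k : ℕ} {I : Type}

/-- Row BNS, part 1 (Babai, Nisan, Szegedy). -/
theorem bns [Fintype I] [DecidableEq I] (hk : 1 ≤ k) (χ : Fin k → (Fin k → I → Bool) → ℂ)
    (hχ : ∀ j y, ‖χ j y‖ ≤ 1) (hm : ∀ j, Misses (χ j) j) :
    (‖∑ y, sgi y * ∏ j, χ j y‖ / 2 ^ (k * Fintype.card I)) ^ (2 ^ (k - 1)) ≤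
      (1 - (1 / 2 : ℝ) ^ (k - 1)) ^ Fintype.card I := by
  have h := Pool.Agent.CERT.bns_univ hk χ hχ fun j y y' hy => hm j y y' hy
  have h1 : ∀ y : Fin k → I → Bool, sgi y * ∏ j, χ j y =
      (∏ j, χ j y) * Pool.Agent.CERT.gip univ y := by
    intro y
    rw [mul_comm]
    rfl
  simp_rw [h1]
  exact h

/-- Row BNS, part 2. -/
theorem cyl_one [Fintype I] [DecidableEq I] (hk : 1 ≤ k) {x : ℝ} (hx : 0 ≤ x)
    (h : (1 - (1 / 2 : ℝ) ^ (k - 1)) ^ Fintype.card I ≤ x ^ (2 ^ (k - 1))) :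
    Cyl (fun _ : Fin k → I → Bool => 1) (2 ^ (k * Fintype.card I) * x) := by
  intro χ hχ hm
  have h1 := (bns hk χ hχ hm).trans h
  have h2 := le_of_pow_le_pow_left₀ (by positivity) hx h1
  rw [div_le_iff₀ (by positivity)] at h2
  simp_rw [mul_one]
  rwa [mul_comm]

end parties

end CliqueCert
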