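import Pool.Agent.Lib.CERT.Base

/-!
# PROJECT CERT: the number of sets of coordinates of planted units which touch few units
-/

open Finset

namespace CliqueCert

open SmallDepth CliqueDepth

/-- The number of sets of at most `m` elements. -/
theorem card_small (α : Type) [Fintype α] [DecidableEq α] (m : ℕ) :
    (univ.filter fun J : Finset α => J.card ≤ m).card ≤ (Fintype.card α + 1) ^ m := by
  induction m with
  | zero =>
    rw [pow_zero]
    refine (card_le_card (t := {∅}) ?_).trans (by simp)
    intro J hJ
    rw [mem_filter] at hJ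
    rw [mem_singleton]
    exact card_eq_zero.1 (Nat.le_zero.1 hJ.2)
  | succ m ih =>
    have h1 : (univ.filter fun J : Finset α => J.card ≤ m + 1) ⊆
        ((univ.filter fun J : Finset α => J.card ≤ m) ×ˢ (univ : Finset (Option α))).image
          fun e => e.2.elim e.1 (fun a => insert a e.1) := by
      intro J hJ
      rw [mem_filter] at hJ
      rw [mem_image]
      rcases J.eq_empty_or_nonempty with h | ⟨a, ha⟩
      · refine ⟨(∅, none), ?_, by simp [h]⟩
        simp
      · refine ⟨(J.erase a, some a), ?_, ?_⟩
        · rw [mem_product, mem_filter]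
          refine ⟨⟨mem_univ _, ?_⟩, mem_univ _⟩
          have h2 := card_erase_add_one ha
          have h3 := hJ.2
          change (J.erase a).card ≤ m
          omega
        · exact insert_erase ha
    refine (card_le_card h1).trans (card_image_le.trans ?_)
    rw [card_product, pow_succ, card_univ, Fintype.card_option]
    exact Nat.mul_le_mul_right _ ih

section

variable {k T N l n : ℕ} {Λ : Type}

/-- Row CARDX. -/
theorem card_med (k T l W : ℕ) :
    ((med k T l W).card : ℝ) ≤ (((k * T + 1 : ℕ) : ℝ)) ^ (2 * W) * 2 ^ (2 * W * (l + 1)) := by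
  have h1 : med k T l W ⊆ (univ.filter fun J : Finset (Fin k × Fin T) => J.card ≤ 2 * W).biUnion
      fun J => (J ×ˢ (univ : Finset (Option (Fin l)))).powerset := by
    intro X hX
    rw [med, mem_filter] at hX
    rw [mem_biUnion]
    refine ⟨bls X, ?_, ?_⟩
    · rw [mem_filter]
      exact ⟨mem_univ _, hX.2.2⟩
    · rw [mem_powerset]
      intro e he
      rw [mem_product]
      exact ⟨mem_image_of_mem _ he, mem_univ _⟩
  have h2 : (med k T l W).card ≤ (k * T + 1) ^ (2 * W) * 2 ^ (2 * W * (l + 1)) := by
    refine (card_le_card h1).trans (card_biUnion_le.trans ?_)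
    refine (sum_le_card_nsmul _ _ (2 ^ (2 * W * (l + 1))) ?_).trans ?_
    · intro J hJ
      rw [mem_filter] at hJ
      rw [card_powerset, card_product, card_univ, Fintype.card_option, Fintype.card_fin]
      exact Nat.pow_le_pow_right (by norm_num) (Nat.mul_le_mul_right _ hJ.2)
    · rw [smul_eq_mul]
      refine Nat.mul_le_mul_right _ ((card_small _ _).trans (le_of_eq ?_))
      rw [Fintype.card_prod, Fintype.card_fin, Fintype.card_fin]
  calc ((med k T l W).card : ℝ) ≤ (((k * T + 1) ^ (2 * W) * 2 ^ (2 * W * (l + 1)) : ℕ) : ℝ) := by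
        exact_mod_cast h2
    _ = _ := by push_cast; ring

end

end CliqueCert
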