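import Pool.Agent.Lib.MP_678664_lc_AC.Eng

/-!
# PROJECT CERT, rows CROSS and SDEP
-/

open Finset

namespace CliqueCert

open SmallDepth CliqueDepth

/-- A gate which depends on many coordinates, but whose predecessors depend on few coordinates,
reaches a set of medium size. -/
theorem crossing_card {Ω : Type} [DecidableEq Ω] {v : ℕ → (Ω → Bool) → Prop} {g : (Ω → Bool) → Prop} {A : Finset ℕ} {b : Prop}
    (hg : ∀ x, (g x ↔ b) ↔ ∃ j ∈ A, (v j x ↔ b)) {G : Ω → Bool} {P : Finset Ω}
    (hG : ∀ S ∈ P, G S = false) {t : Finset Ω → ℕ} (ht : ∀ U V, U ⊆ V → t U ≤ t V)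
    (ht' : ∀ U V, t (U ∪ V) ≤ t U + t V) (ht0 : t ∅ = 0) {w : ℕ}
    (hA : ∀ j ∈ A, t (dep (v j) G P) ≤ w) (hw : w < t (dep g G P)) :
    ∃ Q ⊆ P, w < t Q ∧ t Q ≤ 2 * w ∧ ∃ n ≤ Q.card, Reach v g A b G Q n Q := by
  classical
  -- one step
  have step : ∀ (n : ℕ) (U : Finset Ω), U ⊆ P → n ≤ U.card → t U ≤ w →
      (∀ Q, U ⊆ Q → Q ⊆ P → Reach v g A b G Q n U) →
      ∃ U', U ⊂ U' ∧ U' ⊆ P ∧ t U' ≤ t U + w ∧
        ∀ Q, U' ⊆ Q → Q ⊆ P → Reach v g A b G Q (n + 1) U' := by
    intro n U hUP _ htU hR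
    have hnot : ¬ dep g G P ⊆ U := fun h => by have := ht _ _ h; omega
    obtain ⟨e, he, heU⟩ := not_subset.1 hnot
    obtain ⟨X, hXP, hX⟩ : ∃ X ⊆ P, ¬ (g (fl G P (X ∩ U)) ↔ g (fl G P X)) := by
      by_contra hcon
      push Not at hcon
      obtain ⟨heP, X, hX, h⟩ := mem_dep.1 he
      apply h
      rw [← hcon X hX, ← hcon (insert e X) (insert_subset heP hX), insert_inter_of_notMem heU]
    set Y := X ∩ U with hY
    -- a minimal `W`
    have hex : ∃ m : ℕ, ∃ W : Finset Ω, W ⊆ P ∧ Disjoint W U ∧ W.card = m ∧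
        ¬ (g (fl G P Y) ↔ g (fl G P (Y ∪ W))) := by
      refine ⟨_, X \ U, sdiff_subset.trans hXP, sdiff_disjoint, rfl, ?_⟩
      have : Y ∪ X \ U = X := by
        rw [hY, union_comm]
        exact sdiff_union_inter X U
      rwa [this]
    obtain ⟨W, hWP, hWU, hWc, hW⟩ := Nat.find_spec hex
    have hmin : ∀ W', W' ⊂ W → (g (fl G P Y) ↔ g (fl G P (Y ∪ W'))) := by
      intro W' hW'
      by_contra hcon
      have h1 := card_lt_card hW'
      rw [hWc] at h1
      exact Nat.find_min hex h1 ⟨W', hW'.1.trans hWP, disjoint_of_subset_left hW'.1 hWU, rfl, hcon⟩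
    have hYU : Y ⊆ U := inter_subset_right
    have hYP : Y ⊆ P := hYU.trans hUP
    -- the conclusion from a good child
    have fin : ∀ Z : Finset Ω, Z ⊆ P → fst v A b (fl G P Z) ∈ A →
        (∃ e' ∈ dep (v (fst v A b (fl G P Z))) G P, e' ∉ U) →
        (∀ Q, U ∪ dep (v (fst v A b (fl G P Z))) G P ⊆ Q → Q ⊆ P → Z ⊆ U ∪ dep g G Q) →
        ∃ U', U ⊂ U' ∧ U' ⊆ P ∧ t U' ≤ t U + w ∧
          ∀ Q, U' ⊆ Q → Q ⊆ P → Reach v g A b G Q (n + 1) U' := by
      rintro Z hZP hl ⟨e', he', heU'⟩ hZ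
      refine ⟨U ∪ dep (v (fst v A b (fl G P Z))) G P, ?_, ?_, ?_, ?_⟩
      · refine ⟨subset_union_left, fun h => heU' (h (mem_union_right _ he'))⟩
      · exact union_subset hUP (dep_subset _ _ _)
      · exact (ht' _ _).trans (Nat.add_le_add_left (hA _ hl) _)
      · intro Q hQ hQP
        have hZQ := hZ Q hQ hQP
        have hZQ' : Z ⊆ Q := hZQ.trans
          (union_subset (subset_union_left.trans hQ) (dep_subset _ _ _))
        have h1 : fl G Q Z = fl G P Z := fl_eq hG hQP hZQ'
        have h2 := Reach.step (v := v) (g := g) (A := A) (b := b) (G := G) (Q := Q) n U Z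
          (hR Q (subset_union_left.trans hQ) hQP) hZQ (by rw [h1]; exact hl)
        rw [h1] at h2
        rwa [dep_eq hG hQP (subset_union_right.trans hQ)] at h2
    by_cases hb : g (fl G P Y) ↔ b
    · -- the base point has the value `b`
      have h1 := (hg _).1 hb
      obtain ⟨hlA, hlb⟩ := fst_spec h1
      have h2 : ¬ (g (fl G P (Y ∪ W)) ↔ b) := fun h => hW (hb.trans h.symm)
      have h3 : ¬ (v (fst v A b (fl G P Y)) (fl G P (Y ∪ W)) ↔ b) := fun h =>
        h2 ((hg _).2 ⟨_, hlA, h⟩)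
      refine fin Y hYP hlA ?_ fun Q _ _ => hYU.trans subset_union_left
      by_contra hcon
      push Not at hcon
      have h4 := dep_inter (v (fst v A b (fl G P Y))) G P (Y ∪ W) U hcon
      have h5 : (Y ∪ W) ∩ U = Y := by
        rw [union_inter_distrib_right, inter_eq_left.2 hYU, disjoint_iff_inter_eq_empty.1 hWU,
          union_empty]
      rw [h5] at h4
      exact h3 (h4.trans hlb)
    · -- the base point does not have the value `b`
      have h1 : g (fl G P (Y ∪ W)) ↔ b := iff_of_not hb hW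
      obtain ⟨hlA, hlb⟩ := fst_spec ((hg _).1 h1)
      have h2 : ∀ e' ∈ W, Y ∪ W.erase e' ⊆ P ∧ insert e' (Y ∪ W.erase e') = Y ∪ W ∧
          ¬ (g (fl G P (Y ∪ W.erase e')) ↔ b) := by
        intro e' he'
        refine ⟨union_subset hYP ((erase_subset _ _).trans hWP), ?_, ?_⟩
        · rw [← union_insert, insert_erase he']
        · intro h
          exact hb ((hmin _ (erase_ssubset he')).trans h)
      have h3 : ∀ e' ∈ W, e' ∈ dep (v (fst v A b (fl G P (Y ∪ W)))) G P := by
        intro e' he'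
        obtain ⟨h4, h5, h6⟩ := h2 e' he'
        refine mem_dep.2 ⟨hWP he', Y ∪ W.erase e', h4, ?_⟩
        rw [h5]
        intro h
        exact h6 ((hg _).2 ⟨_, hlA, h.trans hlb⟩)
      have hWne : W.Nonempty := by
        rw [nonempty_iff_ne_empty]
        rintro rfl
        rw [union_empty] at hW
        exact hW Iff.rfl
      obtain ⟨e₀, he₀⟩ := hWne
      refine fin (Y ∪ W) (union_subset hYP hWP) hlA
        ⟨e₀, h3 e₀ he₀, fun h => (disjoint_left.1 hWU) he₀ h⟩ ?_
      intro Q hQ hQP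
      refine union_subset (hYU.trans subset_union_left) fun e' he' => mem_union_right _ ?_
      obtain ⟨h4, h5, h6⟩ := h2 e' he'
      have hWQ : W ⊆ Q := fun x hx => hQ (mem_union_right _ (h3 x hx))
      have hYQ : Y ⊆ Q := (hYU.trans subset_union_left).trans hQ
      have h7 : Y ∪ W.erase e' ⊆ Q := union_subset hYQ ((erase_subset _ _).trans hWQ)
      refine mem_dep.2 ⟨hWQ he', Y ∪ W.erase e', h7, ?_⟩
      rw [h5, fl_eq hG hQP h7, fl_eq hG hQP (union_subset hYQ hWQ)]
      intro h
      exact h6 (h.trans h1)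
  -- iterate
  have iter : ∀ N : ℕ, ∀ (n : ℕ) (U : Finset Ω), P.card - U.card = N → U ⊆ P → n ≤ U.card →
      t U ≤ w → (∀ Q, U ⊆ Q → Q ⊆ P → Reach v g A b G Q n U) →
      ∃ Q ⊆ P, w < t Q ∧ t Q ≤ 2 * w ∧ ∃ n ≤ Q.card, Reach v g A b G Q n Q := by
    intro N
    induction N using Nat.strong_induction_on with
    | _ N ih =>
    intro n U hN hUP hn htU hR
    obtain ⟨U', hUU', hU'P, htU', hR'⟩ := step n U hUP hn htU hR
    have hc := card_lt_card hUU'
    have hc' := card_le_card hU'P
    rcases Nat.lt_or_ge w (t U') with h | h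
    · exact ⟨U', hU'P, h, by omega, n + 1, by omega, hR' U' Subset.rfl hU'P⟩
    · exact ih (P.card - U'.card) (by omega) (n + 1) U' rfl hU'P (by omega) h hR'
  exact iter _ 0 ∅ rfl (empty_subset _) (Nat.zero_le _) (by omega) fun Q _ _ => Reach.zero

/-- If no gate reaches a set of medium size, then no gate depends on many coordinates. -/
theorem small_dep_card {ι Ω : Type} [DecidableEq Ω] {C : Circuit ι} {a : (Ω → Bool) → ι → Prop}
    {o d K : ℕ} {G : Ω → Bool} {P : Finset Ω} (hG : ∀ S ∈ P, G S = false)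
    {t : Finset Ω → ℕ} (ht : ∀ U V, U ⊆ V → t U ≤ t V) (ht' : ∀ U V, t (U ∪ V) ≤ t U + t V)
    (ht0 : t ∅ = 0) {w : ℕ} (ha : ∀ e, t (dep (fun x => a x e) G P) ≤ w)
    (hK : ∀ Q ⊆ P, t Q ≤ 2 * w → Q.card ≤ K)
    (hno : ∀ i ≤ o, (C i).counts = true → C.depth i ≤ d → ∀ Q ⊆ P, w < t Q → t Q ≤ 2 * w →
      ¬ Ev C a K G Q i) :
    ∀ i ≤ o, C.depth i ≤ d → t (dep (gv C a i) G P) ≤ w := by
  classical
  intro i
  induction i using Nat.strong_induction_on with
  | _ i ih =>
  intro hi hd
  by_contra hcon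
  push Not at hcon
  rcases hg : C i with v | b | S | S | ⟨r, u, g⟩
  · have h2 : gv C a i = fun x => a x v := by
      funext x
      unfold gv
      rw [val_eq, hg]
    rw [h2] at hcon
    have h4 := ha v
    omega
  · have h2 : gv C a i = fun x => ¬ gv C a b x := by
      funext x
      unfold gv
      rw [val_eq, hg]
    rw [h2, dep_not] at hcon
    rw [depth_eq, hg] at hd
    have := ih b b.isLt (by have := b.isLt; omega) hd
    omega
  · have hd' : ∀ j ∈ kids S, C.depth j ≤ d := by
      intro j hj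
      obtain ⟨b, hb, rfl⟩ := mem_kids.1 hj
      rw [depth_eq, hg] at hd
      have := le_sup (f := fun a : Fin i => C.depth a) hb
      simp only at hd this
      omega
    obtain ⟨Q, hQ, h1, h2, n, hn, h3⟩ := crossing_card (v := gv C a) (g := gv C a i) (A := kids S)
      (b := False) (by
        intro x
        have h5 : gv C a i x ↔ ∀ b : Fin i, b ∈ S → gv C a b x := by
          unfold gv
          rw [val_eq, hg]
        rw [h5]
        constructor
        · intro h
          by_contra hcon2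
          refine h.1 fun b hb => ?_
          by_contra h6
          exact hcon2 ⟨b, mem_kids.2 ⟨b, hb, rfl⟩, by simpa using h6⟩
        · rintro ⟨j, hj, h6⟩
          obtain ⟨b, hb, rfl⟩ := mem_kids.1 hj
          simp only [iff_false] at h6 ⊢
          exact fun h => h6 (h b hb)) hG ht ht' ht0 (w := w) (by
        intro j hj
        obtain ⟨b, hb, rfl⟩ := mem_kids.1 hj
        exact ih b b.isLt (by have := b.isLt; omega) (hd' _ hj)) hcon
    refine hno i hi (by rw [hg]; rfl) hd Q hQ h1 h2 ?_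
    unfold Ev
    rw [hg]
    exact ⟨n, hn.trans (hK Q hQ h2), h3⟩
  · have hd' : ∀ j ∈ kids S, C.depth j ≤ d := by
      intro j hj
      obtain ⟨b, hb, rfl⟩ := mem_kids.1 hj
      rw [depth_eq, hg] at hd
      have := le_sup (f := fun a : Fin i => C.depth a) hb
      simp only at hd this
      omega
    obtain ⟨Q, hQ, h1, h2, n, hn, h3⟩ := crossing_card (v := gv C a) (g := gv C a i) (A := kids S)
      (b := True) (by
        intro x
        have h5 : gv C a i x ↔ ∃ b : Fin i, b ∈ S ∧ gv C a b x := by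
          unfold gv
          rw [val_eq, hg]
        rw [h5]
        simp only [iff_true]
        constructor
        · rintro ⟨b, hb, h⟩
          exact ⟨b, mem_kids.2 ⟨b, hb, rfl⟩, h⟩
        · rintro ⟨j, hj, h6⟩
          obtain ⟨b, hb, rfl⟩ := mem_kids.1 hj
          exact ⟨b, hb, h6⟩) hG ht ht' ht0 (w := w) (by
        intro j hj
        obtain ⟨b, hb, rfl⟩ := mem_kids.1 hj
        exact ih b b.isLt (by have := b.isLt; omega) (hd' _ hj)) hcon
    refine hno i hi (by rw [hg]; rfl) hd Q hQ h1 h2 ?_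
    unfold Ev
    rw [hg]
    exact ⟨n, hn.trans (hK Q hQ h2), h3⟩
  · have hd' : ∀ l, C.depth (u l) ≤ d := by
      intro l
      rw [depth_eq, hg] at hd
      have := le_sup (f := fun l : Fin r => C.depth (u l)) (mem_univ l)
      simp only at hd this
      omega
    obtain ⟨Q, hQ, h1, h2, h3⟩ := crossing_fun (v := gv C a) (g := gv C a i)
      (A := kids (univ.image u)) (by
        intro x y hxy
        have h5 : ∀ x, gv C a i x ↔ g fun l => gv C a (u l) x := by
          intro x
          unfold gv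
          rw [val_eq, hg]
        rw [h5, h5]
        have : (fun l => gv C a (u l) x) = fun l => gv C a (u l) y := by
          funext l
          exact propext (hxy _ (mem_kids.2 ⟨u l, mem_image_of_mem _ (mem_univ _), rfl⟩))
        rw [this]) hG ht ht' ht0 (w := w) (by
        intro j hj
        obtain ⟨b, hb, rfl⟩ := mem_kids.1 hj
        obtain ⟨l, -, rfl⟩ := mem_image.1 hb
        exact ih (u l) (u l).isLt (by have := (u l).isLt; omega) (hd' l)) hcon
    refine hno i hi (by rw [hg]; rfl) hd Q hQ h1 h2 ?_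
    unfold Ev
    rw [hg]
    exact h3

end CliqueCert
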