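import Pool.Agent.Lib.CERT.Base

/-! # PROJECT CERT, row CYLM: products and sums of functions with small correlation -/

open Finset

namespace CliqueCert

open SmallDepth CliqueDepth

variable {k : ℕ} {I : Type}

/-- Row CYLM, part 1. -/
theorem Cyl.mono [Fintype I] [DecidableEq I] {F : (Fin k → I → Bool) → ℂ} {B B' : ℝ}
    (h : Cyl F B) (hB : B ≤ B') : Cyl F B' := fun χ hχ hm => (h χ hχ hm).trans hB

/-- Row CYLM, part 2. -/
theorem Cyl.mul_prod [Fintype I] [DecidableEq I] {F : (Fin k → I → Bool) → ℂ} {B : ℝ}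
    (h : Cyl F B) {σ : Type} (s : Finset σ) (P : σ → (Fin k → I → Bool) → ℂ)
    (hP : ∀ S ∈ s, ∀ y, ‖P S y‖ ≤ 1) (hm : ∀ S ∈ s, ∃ j, Misses (P S) j) :
    Cyl (fun y => F y * ∏ S ∈ s, P S y) B := by
  classical
  induction s using Finset.induction_on with
  | empty => simpa using h
  | insert S s hS ih =>
    have ih' := ih (fun S' hS' => hP S' (mem_insert_of_mem hS'))
      (fun S' hS' => hm S' (mem_insert_of_mem hS'))
    obtain ⟨j₀, hj₀⟩ := hm S (mem_insert_self _ _)
    have hPS := hP S (mem_insert_self _ _)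
    intro χ hχ hmis
    have h1 := ih' (fun j => if j = j₀ then fun y => P S y * χ j y else χ j) ?_ ?_
    · refine le_of_eq_of_le ?_ h1
      congr 1
      refine sum_congr rfl fun y _ => ?_
      beta_reduce
      rw [prod_insert hS]
      have h2 : ∏ j, (if j = j₀ then fun y => P S y * χ j y else χ j) y =
          P S y * ∏ j, χ j y := by
        rw [← mul_prod_erase univ _ (mem_univ j₀), ← mul_prod_erase univ (fun j => χ j y)
          (mem_univ j₀), if_pos rfl, mul_assoc]
        congr 2
        refine prod_congr rfl fun j hj => ?_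
        rw [if_neg (ne_of_mem_erase hj)]
      rw [h2]
      ring
    · intro j y
      by_cases hj : j = j₀
      · simp only [if_pos hj, norm_mul]
        exact mul_le_one₀ (hPS y) (norm_nonneg _) (hχ j y)
      · simp only [if_neg hj]
        exact hχ j y
    · intro j
      by_cases hj : j = j₀
      · subst hj
        simp only [if_true]
        intro y z hyz
        show P S y * χ j y = P S z * χ j z
        rw [hj₀ y z hyz, hmis j y z hyz]
      · simp only [if_neg hj]
        exact hmis j

/-- Row CYLM, part 3. -/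
theorem Cyl.sum [Fintype I] [DecidableEq I] {σ : Type} (s : Finset σ)
    (F : σ → (Fin k → I → Bool) → ℂ) (α : σ → ℂ) {B : ℝ} (h : ∀ t ∈ s, Cyl (F t) B) :
    Cyl (fun y => ∑ t ∈ s, α t * F t y) ((∑ t ∈ s, ‖α t‖) * B) := by
  intro χ hχ hm
  have h1 : ∑ y, sgi y * (∑ t ∈ s, α t * F t y) * ∏ j, χ j y =
      ∑ t ∈ s, α t * ∑ y, sgi y * F t y * ∏ j, χ j y := by
    simp only [mul_sum, sum_mul]
    rw [sum_comm]
    refine sum_congr rfl fun t _ => sum_congr rfl fun y _ => ?_
    ring
  rw [h1, sum_mul]
  refine (norm_sum_le _ _).trans (sum_le_sum fun t ht => ?_)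
  rw [norm_mul]
  exact mul_le_mul_of_nonneg_left (h t ht χ hχ hm) (norm_nonneg _)

end CliqueCert
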