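import Pool.Agent.Lib.CERT.Base

/-! # PROJECT CERT, row DEPY: dependence on the states of the planted units -/

open Finset

namespace CliqueCert

open SmallDepth CliqueDepth

variable {k T N l n : ℕ} {Λ : Type}

/-- The coordinates of planted units which are true in `asg G u y`. -/
private def Xy (u : Fin k × Fin T → Fin N) (y : Fin k → Fin T × Fin l → Bool) :
    Finset (Crd k T N l) :=
  (Pc l u).filter fun e => e.2.elim true (fun i => y e.1.1.1 (e.1.1.2, i)) = true

private theorem mem_Pc {u : Fin k × Fin T → Fin N} {e : Crd k T N l} :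
    e ∈ Pc l u ↔ e.1.2 = u e.1.1 := by
  unfold Pc
  rw [mem_image]
  constructor
  · rintro ⟨e', -, rfl⟩
    rfl
  · intro h
    refine ⟨(e.1.1, e.2), mem_univ _, ?_⟩
    refine Prod.ext (Prod.ext rfl ?_) rfl
    exact h.symm

private theorem asg_eq (G : Crd k T N l → Bool) (u : Fin k × Fin T → Fin N)
    (y : Fin k → Fin T × Fin l → Bool) : asg G u y = fl G (Pc l u) (Xy u y) := by
  funext e
  unfold asg fl
  by_cases h : e.1.2 = u e.1.1
  · rw [if_pos h, if_pos (mem_Pc.2 h)]
    unfold Xy
    simp only [mem_filter, mem_Pc.2 h, true_and, Bool.decide_eq_true]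
  · rw [if_neg h, if_neg (fun h' => h (mem_Pc.1 h'))]

/-- Row DEPY. -/
theorem dep_asg (v : (Crd k T N l → Bool) → Prop) (G : Crd k T N l → Bool)
    (u : Fin k × Fin T → Fin N) :
    ∃ B : Finset (Fin k × Fin T), B.card ≤ tch (dep v G (Pc l u)) ∧
      ∀ y z : Fin k → Fin T × Fin l → Bool, (∀ b ∈ B, ∀ i, y b.1 (b.2, i) = z b.1 (b.2, i)) →
        (v (asg G u y) ↔ v (asg G u z)) := by
  refine ⟨(dep v G (Pc l u)).image fun e => e.1.1, ?_, ?_⟩
  · unfold tch
    have h : ((dep v G (Pc l u)).image fun e => e.1.1) =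
        ((dep v G (Pc l u)).image fun e => e.1).image fun e => e.1 := by
      rw [image_image]
      rfl
    rw [h]
    exact card_image_le
  · intro y z hyz
    rw [asg_eq, asg_eq, dep_inter v G (Pc l u) (Xy u y) _ Subset.rfl,
      dep_inter v G (Pc l u) (Xy u z) _ Subset.rfl]
    have h1 : Xy u y ∩ dep v G (Pc l u) = Xy u z ∩ dep v G (Pc l u) := by
      ext e
      simp only [mem_inter]
      refine and_congr_left fun he => ?_
      unfold Xy
      rw [mem_filter, mem_filter]
      refine and_congr_right fun _ => ?_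
      have hb := hyz e.1.1 (mem_image.2 ⟨e, he, rfl⟩)
      cases h : e.2 with
      | none => simp
      | some i => simp [hb i]
    rw [h1]

end CliqueCert
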