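import Pool.Agent.Lib.CERT.Base
import Pool.Agent.Lib.CERT76.Dir
import Pool.Agent.Lib.CERT76.Tools

/-! # Row DIR -/

open Finset

namespace CliqueCert

open SmallDepth CliqueDepth

set_option linter.unusedVariables false in
/-- Row DIR: the Dirichlet kernel. -/
theorem dirichlet (R : ℕ) (hR : 1 ≤ R) : ∃ (m : ℕ) (α : Fin m → ℂ),
    ∑ t, ‖α t‖ ≤ 8 * (1 + Real.log R) ∧ ∀ x : ℤ, |x| ≤ R →
      ∑ t : Fin m, α t * Complex.exp (2 * Real.pi * Complex.I * (((t : ℕ) : ℂ) * x / m)) =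
        indC (0 ≤ x) := by
  obtain ⟨m, α, h1, h2⟩ := Pool.Agent.CERT.dirichlet R
  refine ⟨m, α, h1, fun x hx => ?_⟩
  rw [tl_indC_eq, ← h2 x hx]
  refine sum_congr rfl fun t _ => ?_
  unfold Pool.Agent.CERT.e
  congr 2
  push_cast
  ring

end CliqueCert
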