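import Pool.Agent.Lib.CERT.Base
import Pool.Agent.Lib.CERT76.Cyl
import Pool.Agent.Lib.CERT76.Tools
import Pool.Agent.Lib.CERT76.Dir

/-! # Row EQN -/

open Finset

namespace CliqueCert

open SmallDepth CliqueDepth

section parties

variable {k : ℕ} {I : Type}

private lemma map_sum_ite {Γ : Type} [AddCommGroup Γ] (ψ : AddChar Γ ℂ) {σ : Type} (s : Finset σ)
    (P : σ → Prop) [DecidablePred P] (c : σ → Γ) :
    ψ (∑ S ∈ s, if P S then c S else 0) = ∏ S ∈ s, (if P S then ψ (c S) else 1) := by
  classical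
  induction s using Finset.induction_on with
  | empty => simp
  | insert a s ha ih =>
    rw [sum_insert ha, prod_insert ha, AddChar.map_add_eq_mul, ih]
    congr 1
    split_ifs
    · rfl
    · exact AddChar.map_zero_eq_one _

/-- Row EQN: an equation in a finite abelian group, as a mean over the characters of the group. -/
theorem Cyl.eqn [Fintype I] [DecidableEq I] {F : (Fin k → I → Bool) → ℂ} {B : ℝ}
    (h : Cyl F B) {Γ : Type} [AddCommGroup Γ] [Finite Γ] {σ : Type} (s : Finset σ)
    (P : σ → (Fin k → I → Bool) → Prop) (hm : ∀ S ∈ s, ∃ j, Misses (P S) j) (c : σ → Γ)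
    (b : Γ) : Cyl (fun y => F y * indC (gsum s (fun S => P S y) c = b)) B := by
  classical
  have := Fintype.ofFinite Γ
  have h1 : (fun y => F y * indC (gsum s (fun S => P S y) c = b)) =
      fun y => ∑ ψ : AddChar Γ ℂ, ((1 / (Nat.card Γ : ℂ)) * ψ (-b)) *
        (F y * ∏ S ∈ s, (if P S y then ψ (c S) else 1)) := by
    ext y
    rw [tl_indC_eq, tl_gsum_eq, Pool.Agent.CERT.eq_indicator, finsum_eq_sum_of_fintype, mul_sum]
    refine sum_congr rfl fun ψ _ => ?_
    rw [map_sum_ite]
    ring
  have h2 : ∑ ψ : AddChar Γ ℂ, ‖(1 / (Nat.card Γ : ℂ)) * ψ (-b)‖ = 1 := by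
    simp only [norm_mul, norm_div, norm_one, Complex.norm_natCast, AddChar.norm_apply, mul_one,
      sum_const, card_univ, nsmul_eq_mul]
    have h1 : Fintype.card (AddChar Γ ℂ) = Nat.card Γ := by
      rw [AddChar.card_eq, Nat.card_eq_fintype_card]
    have h2 : (Nat.card Γ : ℝ) ≠ 0 := by exact_mod_cast Nat.card_pos.ne'
    rw [h1, mul_one_div_cancel h2]
  rw [h1]
  have h3 := cylA_sum (univ : Finset (AddChar Γ ℂ))
    (fun ψ y => F y * ∏ S ∈ s, (if P S y then ψ (c S) else 1))
    (fun ψ => (1 / (Nat.card Γ : ℂ)) * ψ (-b)) (B := B)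
    (fun ψ _ => cylA_mul_prod h s _
      (by
        intro S _ y
        beta_reduce
        split_ifs
        · exact (AddChar.norm_apply _ _).le
        · simp)
      (by
        intro S hS
        obtain ⟨j, hj⟩ := hm S hS
        refine ⟨j, fun y z hyz => ?_⟩
        beta_reduce
        rw [hj y z hyz]))
  rw [h2, one_mul] at h3
  exact h3

end parties

end CliqueCert
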