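import Pool.Agent.Lib.CERT.Base

/-!
# PROJECT CERT: planted units are rarely reached
-/

open Finset

namespace CliqueCert

open SmallDepth CliqueDepth

section

variable {k T N l n : ℕ} {Λ : Type}

theorem sum_ind_le_card {α : Type*} (s t : Finset α) (P : α → Prop)
    (h : ∀ a ∈ s, P a → a ∈ t) : ∑ a ∈ s, ind (P a) ≤ t.card := by
  classical
  calc ∑ a ∈ s, ind (P a) ≤ ∑ a ∈ s.filter fun a => P a, (1 : ℝ) := by
        rw [sum_filter]
        refine sum_le_sum fun a _ => ?_
        by_cases hP : P a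
        · rw [ind_true hP, if_pos hP]
        · rw [ind_false hP, if_neg hP]
    _ = ((s.filter fun a => P a).card : ℝ) := by simp
    _ ≤ t.card := by
        exact_mod_cast card_le_card fun a ha => h a (mem_filter.1 ha).1 (mem_filter.1 ha).2

theorem card_Qc_le (X : Finset ((Fin k × Fin T) × Option (Fin l))) (u : Fin k × Fin T → Fin N) :
    (Qc X u).card ≤ (bls X).card * (l + 1) := by
  refine card_image_le.trans ?_
  calc X.card ≤ (bls X ×ˢ (univ : Finset (Option (Fin l)))).card := by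
        refine card_le_card fun e he => ?_
        rw [mem_product]
        exact ⟨mem_image_of_mem _ he, mem_univ _⟩
    _ = (bls X).card * (l + 1) := by
        rw [card_product, card_univ, Fintype.card_option, Fintype.card_fin]

/-- A sum over the sets of coordinates of planted units in the blocks `B`. -/
theorem sum_med_le {W a₀ : ℕ} {B : Finset (Fin k × Fin T)} (hB : B.card ≤ a₀)
    {z y : ℝ} (hz : 0 ≤ z) (hy : (a₀ : ℝ) * z ≤ y) (hy1 : y ≤ 1) :
    ∑ X ∈ med k T l W, ind (bls X ⊆ B) * z ^ (bls X).card ≤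
      (2 : ℝ) ^ (2 * W * (l + 1)) * (2 * W) * y ^ (W + 1) := by
  classical
  have hy0 : 0 ≤ y := le_trans (by positivity) hy
  set Tt := (B.powerset).filter fun J => J.card ∈ Ioc W (2 * W) with hTt
  have h0 : ∑ X ∈ med k T l W, ind (bls X ⊆ B) * z ^ (bls X).card =
      ∑ X ∈ (med k T l W).filter fun X => bls X ⊆ B, z ^ (bls X).card := by
    rw [sum_filter]
    refine sum_congr rfl fun X _ => ?_
    by_cases h : bls X ⊆ B
    · rw [ind_true h, if_pos h, one_mul]
    · rw [ind_false h, if_neg h, zero_mul]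
  rw [h0]
  have hmaps : ∀ X ∈ (med k T l W).filter fun X => bls X ⊆ B, bls X ∈ Tt := by
    intro X hX
    rw [mem_filter, med, mem_filter] at hX
    rw [hTt, mem_filter, mem_powerset, mem_Ioc]
    exact ⟨hX.2, hX.1.2⟩
  rw [← sum_fiberwise_of_maps_to hmaps]
  have h1 : ∀ J ∈ Tt, ∑ X ∈ ((med k T l W).filter fun X => bls X ⊆ B).filter
      (fun X => bls X = J), z ^ (bls X).card ≤ (2 : ℝ) ^ (2 * W * (l + 1)) * z ^ J.card := by
    intro J hJ
    rw [hTt, mem_filter, mem_powerset, mem_Ioc] at hJ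
    have h2 : ∑ X ∈ ((med k T l W).filter fun X => bls X ⊆ B).filter
        (fun X => bls X = J), z ^ (bls X).card =
        ∑ X ∈ ((med k T l W).filter fun X => bls X ⊆ B).filter
        (fun X => bls X = J), z ^ J.card :=
      sum_congr rfl fun X hX => by rw [(mem_filter.1 hX).2]
    rw [h2, sum_const, nsmul_eq_mul]
    refine mul_le_mul_of_nonneg_right ?_ (pow_nonneg hz _)
    have h3 : (((med k T l W).filter fun X => bls X ⊆ B).filter
        (fun X => bls X = J)).card ≤ 2 ^ (2 * W * (l + 1)) := by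
      refine (card_le_card (t := (J ×ˢ (univ : Finset (Option (Fin l)))).powerset) ?_).trans ?_
      · intro X hX
        rw [mem_filter] at hX
        rw [mem_powerset]
        intro e he
        rw [mem_product, ← hX.2]
        exact ⟨mem_image_of_mem _ he, mem_univ _⟩
      · rw [card_powerset, card_product, card_univ, Fintype.card_option, Fintype.card_fin]
        exact Nat.pow_le_pow_right (by norm_num) (Nat.mul_le_mul_right _ hJ.2.2)
    exact_mod_cast h3
  refine (sum_le_sum h1).trans ?_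
  have hmaps2 : ∀ J ∈ Tt, J.card ∈ Ioc W (2 * W) := fun J hJ => (mem_filter.1 hJ).2
  rw [← sum_fiberwise_of_maps_to hmaps2]
  have h4 : ∀ j ∈ Ioc W (2 * W), ∑ J ∈ Tt.filter (fun J => J.card = j),
      (2 : ℝ) ^ (2 * W * (l + 1)) * z ^ J.card ≤
      (2 : ℝ) ^ (2 * W * (l + 1)) * y ^ (W + 1) := by
    intro j hj
    rw [mem_Ioc] at hj
    have h5 : ∑ J ∈ Tt.filter (fun J => J.card = j),
        (2 : ℝ) ^ (2 * W * (l + 1)) * z ^ J.card =
        ∑ J ∈ Tt.filter (fun J => J.card = j), (2 : ℝ) ^ (2 * W * (l + 1)) * z ^ j :=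
      sum_congr rfl fun J hJ => by rw [(mem_filter.1 hJ).2]
    rw [h5, sum_const, nsmul_eq_mul, mul_left_comm]
    refine mul_le_mul_of_nonneg_left ?_ (by positivity)
    have h6 : (Tt.filter (fun J => J.card = j)).card ≤ a₀ ^ j := by
      refine (card_le_card (t := powersetCard j B) ?_).trans ?_
      · intro J hJ
        rw [mem_filter, hTt, mem_filter, mem_powerset] at hJ
        exact mem_powersetCard.2 ⟨hJ.1.1, hJ.2⟩
      · rw [card_powersetCard]
        exact (Nat.choose_le_pow _ _).trans (Nat.pow_le_pow_left hB _)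
    calc ((Tt.filter (fun J => J.card = j)).card : ℝ) * z ^ j ≤ (a₀ : ℝ) ^ j * z ^ j := by
          refine mul_le_mul_of_nonneg_right ?_ (pow_nonneg hz _)
          exact_mod_cast h6
      _ = ((a₀ : ℝ) * z) ^ j := (mul_pow _ _ _).symm
      _ ≤ y ^ j := pow_le_pow_left₀ (by positivity) hy _
      _ ≤ y ^ (W + 1) := pow_le_pow_of_le_one hy0 hy1 hj.1
  refine (sum_le_sum h4).trans ?_
  rw [sum_const, nsmul_eq_mul, Nat.card_Ioc]
  have h7 : ((2 * W - W : ℕ) : ℝ) ≤ 2 * W := by
    have : 2 * W - W ≤ 2 * W := Nat.sub_le _ _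
    exact_mod_cast this
  calc ((2 * W - W : ℕ) : ℝ) * ((2 : ℝ) ^ (2 * W * (l + 1)) * y ^ (W + 1)) ≤
        (2 * W) * ((2 : ℝ) ^ (2 * W * (l + 1)) * y ^ (W + 1)) :=
        mul_le_mul_of_nonneg_right h7 (by positivity)
    _ = _ := by ring

/-- The count, for any events `P X u` which imply that the coordinates `Qc X u` are in `A`. -/
theorem count_core {W N₁ a₀ : ℕ} {lv : Fin k × Fin T → Finset (Fin N)} (hN₁ : 0 < N₁)
    (hN : ∀ b, N₁ ≤ (lv b).card) (hA : a₀ ^ 2 ≤ N₁) {A : Finset (Crd k T N l)}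
    (hAc : A.card ≤ a₀)
    (P : Finset ((Fin k × Fin T) × Option (Fin l)) → (Fin k × Fin T → Fin N) → Prop)
    (hsub : ∀ X ∈ med k T l W, ∀ u ∈ Fintype.piFinset lv, P X u → Qc X u ⊆ A) :
    ∑ u ∈ Fintype.piFinset lv, ∑ X ∈ med k T l W, ind (P X u) ≤
      (2 : ℝ) ^ (2 * W * (l + 1)) * (2 * W) * ((a₀ : ℝ) ^ 2 / N₁) ^ (W + 1) *
        (Fintype.piFinset lv).card := by
  classical
  set B : Finset (Fin k × Fin T) := A.image fun e : Crd k T N l => e.1.1 with hBdef
  set Bn : Finset (Fin N) := A.image fun e : Crd k T N l => e.1.2 with hBn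
  have hB : B.card ≤ a₀ := card_image_le.trans hAc
  have hBn : Bn.card ≤ a₀ := card_image_le.trans hAc
  have hN₁R : (0 : ℝ) < N₁ := by exact_mod_cast hN₁
  have h1 : ∀ X ∈ med k T l W, ∑ u ∈ Fintype.piFinset lv, ind (P X u) ≤
      ind (bls X ⊆ B) * ((a₀ : ℝ) / N₁) ^ (bls X).card * (Fintype.piFinset lv).card := by
    intro X hX
    by_cases hXB : bls X ⊆ B
    · rw [ind_true hXB, one_mul]
      refine (sum_ind_le_card _ (Fintype.piFinset fun b : Fin k × Fin T =>
        if b ∈ bls X then Bn else lv b) _ ?_).trans ?_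
      · intro u hu hev
        have h2 := hsub X hX u hu hev
        rw [Fintype.mem_piFinset] at hu ⊢
        intro b
        by_cases hb : b ∈ bls X
        · rw [if_pos hb]
          obtain ⟨e, he, rfl⟩ := mem_image.1 hb
          exact mem_image.2 ⟨((e.1, u e.1), e.2), h2 (mem_image_of_mem _ he), rfl⟩
        · rw [if_neg hb]
          exact hu b
      · rw [Fintype.card_piFinset, Fintype.card_piFinset]
        have h3 : ∀ b : Fin k × Fin T, (if b ∈ bls X then Bn else lv b).card =
            if b ∈ bls X then Bn.card else (lv b).card := by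
          intro b
          split_ifs <;> rfl
        simp only [h3]
        rw [prod_ite, prod_const, filter_mem_eq_inter, univ_inter]
        rw [← prod_filter_mul_prod_filter_not univ (fun b => b ∈ bls X)
          fun b => (lv b).card]
        rw [filter_mem_eq_inter, univ_inter, Nat.cast_mul, Nat.cast_mul, Nat.cast_pow,
          ← mul_assoc]
        refine mul_le_mul_of_nonneg_right ?_ (Nat.cast_nonneg _)
        have h4 : (N₁ : ℝ) ^ (bls X).card ≤ ((∏ b ∈ bls X, (lv b).card : ℕ) : ℝ) := by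
          rw [Nat.cast_prod, ← prod_const]
          exact prod_le_prod (fun _ _ => hN₁R.le) fun b _ => by exact_mod_cast hN b
        have h5 : ((Bn.card : ℕ) : ℝ) ^ (bls X).card ≤ (a₀ : ℝ) ^ (bls X).card :=
          pow_le_pow_left₀ (Nat.cast_nonneg _) (by exact_mod_cast hBn) _
        calc ((Bn.card : ℕ) : ℝ) ^ (bls X).card ≤ (a₀ : ℝ) ^ (bls X).card := h5
          _ = ((a₀ : ℝ) / N₁) ^ (bls X).card * (N₁ : ℝ) ^ (bls X).card := by
              rw [← mul_pow, div_mul_cancel₀ _ hN₁R.ne']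
          _ ≤ _ := mul_le_mul_of_nonneg_left h4 (by positivity)
    · rw [ind_false hXB, zero_mul, zero_mul]
      refine (sum_eq_zero fun u hu => ind_false fun hev => hXB fun b hb => ?_).le
      obtain ⟨e, he, rfl⟩ := mem_image.1 hb
      exact mem_image.2 ⟨((e.1, u e.1), e.2), hsub X hX u hu hev (mem_image_of_mem _ he), rfl⟩
  rw [sum_comm]
  refine (sum_le_sum h1).trans ?_
  rw [← sum_mul]
  refine mul_le_mul_of_nonneg_right ?_ (Nat.cast_nonneg _)
  refine sum_med_le hB (by positivity) (le_of_eq ?_) ?_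
  · ring
  · rw [div_le_one hN₁R]
    exact_mod_cast hA

/-- Row EVC: for a good restriction, planted units are rarely reached. By `alive_gate` (with
`K = 2 * W * (l + 1)`) there is a set `A` of at most `a₀ = asize ..` coordinates with
`Qc X u ⊆ A` whenever the event holds; at most `a₀ ^ j` sets `J` of `j` blocks meet `A` in every
block, for each of them there are at most `2 ^ ((l + 1) j)` sets `X` with `bls X = J`, and for each
`X` a fraction of at most `(a₀ / N₁) ^ j` of all `u`. Sum over `W < j ≤ 2 W`. -/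
theorem count_ev {ι : Type} {C : Circuit ι} {a : (Crd k T N l → Bool) → ι → Prop}
    {o m d f W N₁ : ℕ} {ρ : Restr (Crd k T N l)} (hρ : Good C a o m d ρ) {i : ℕ} (hi : i ≤ o)
    (hd : C.depth i ≤ d) (hf : (C i).wires ≤ f) (hW : 1 ≤ W) (hN₁ : 0 < N₁)
    (hN : ∀ b, N₁ ≤ (live ρ b).card)
    (hA : asize (2 * W * (l + 1)) (2 ^ m) f ^ 2 ≤ N₁) :
    ∑ u ∈ Fintype.piFinset (live ρ), ∑ X ∈ med k T l W,
      ind (Ev C a (2 * W * (l + 1)) (tr ρ) (Qc X u) i) ≤
      (2 : ℝ) ^ (2 * W * (l + 1)) * (2 * W) *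
        (((asize (2 * W * (l + 1)) (2 ^ m) f : ℕ) : ℝ) ^ 2 / N₁) ^ (W + 1) *
        (Fintype.piFinset (live ρ)).card := by
  have hK1 : 1 ≤ 2 * W * (l + 1) := Nat.mul_pos (by omega) (by omega)
  obtain ⟨A, hAc, hA'⟩ := alive_gate hK1 hρ hi hd hf
  refine count_core hN₁ hN hA hAc
    (fun X u => Ev C a (2 * W * (l + 1)) (tr ρ) (Qc X u) i) ?_
  intro X hX u hu hev
  rw [med, mem_filter] at hX
  rw [Fintype.mem_piFinset] at hu
  refine hA' _ ?_ ?_ hev
  · intro S hS
    obtain ⟨e, -, rfl⟩ := mem_image.1 hS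
    exact (mem_filter.1 (hu e.1)).2 e.2
  · exact (card_Qc_le X u).trans (Nat.mul_le_mul_right _ hX.2.2)

end

end CliqueCert
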