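import Pool.Agent.Lib.CERT.Sumu

/-! # Row EXTRA: other cliques of labels are rare -/

set_option autoImplicit false

open Finset

namespace CliqueCert

open SmallDepth CliqueDepth

variable {k T N l n : ℕ} {Λ : Type}

private theorem sum_ind_card {X : Type} [Fintype X] (P : X → Prop) [DecidablePred P]
    (s : Finset X) : ∑ x ∈ s, ind (P x) = ((s.filter P).card : ℝ) := by
  rw [Finset.card_filter]
  push_cast
  refine Finset.sum_congr rfl fun L _ => ?_
  by_cases h : P L
  · rw [ind_true h, if_pos h]
  · rw [ind_false h, if_neg h]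

/-- a unit which is not planted -/
private theorem one_free [Fintype Λ] {R : Fin k → Fin k → Λ → Λ → Prop} (hR : Uniq R)
    (u : Fin k × Fin T → Fin N) (κ : Fin T → Fin k → Λ) (G : Crd k T N l → Bool)
    (w : Fin k → Fin T × Fin N) {i : Fin k} (hi : (w i).2 ≠ u (i, (w i).1)) :
    (Fintype.card Λ : ℝ) * ∑ L : Slot k T N → Λ, ind (IsCl R fun j =>
      plc L u κ univ (((j, (w j).1), (w j).2),
        if (w j).2 = u (j, (w j).1) then true else G (((j, (w j).1), (w j).2), none))) ≤
      Fintype.card (Slot k T N → Λ) := by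
  classical
  set b : Fin k → Bool := fun j =>
    if (w j).2 = u (j, (w j).1) then true else G (((j, (w j).1), (w j).2), none) with hb
  set sl : Fin k → Slot k T N := fun j => (((j, (w j).1), (w j).2), b j) with hsl
  set P : (Slot k T N → Λ) → Prop := fun L => IsCl R fun j => plc L u κ univ (sl j) with hP
  have h1 : ∑ L : Slot k T N → Λ, ind (P L) = ((univ.filter P).card : ℝ) := sum_ind_card P univ
  have hpl : ∀ L : Slot k T N → Λ, plc L u κ univ (sl i) = L (sl i) := by
    intro L
    unfold plc
    rw [if_neg]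
    rintro ⟨-, -, h⟩
    exact hi h
  have h2 : Fintype.card Λ * (univ.filter P).card ≤ Fintype.card (Slot k T N → Λ) := by
    have h3 : (univ ×ˢ (univ.filter P) : Finset (Λ × (Slot k T N → Λ))).card ≤
        (univ : Finset (Slot k T N → Λ)).card := by
      refine Finset.card_le_card_of_injOn (fun p => Function.update p.2 (sl i) p.1)
        (fun _ _ => Finset.mem_coe.2 (Finset.mem_univ _)) ?_
      rintro ⟨a, L⟩ hL ⟨a', L'⟩ hL' h
      rw [Finset.mem_coe, Finset.mem_product, Finset.mem_filter] at hL hL'
      have h4 : ∀ e, Function.update L (sl i) a e = Function.update L' (sl i) a' e :=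
        fun e => congrFun h e
      have h5 : a = a' := by
        have := h4 (sl i)
        rwa [Function.update_self, Function.update_self] at this
      have h6 : ∀ e, e ≠ sl i → L e = L' e := by
        intro e he
        have := h4 e
        rwa [Function.update_of_ne he, Function.update_of_ne he] at this
      have h7 := hR _ _ i hL.2.2 hL'.2.2 (by
        intro j hj
        have hne : sl j ≠ sl i := by
          intro h
          exact hj (congrArg (fun e : Slot k T N => e.1.1.1) h)
        show plc L u κ univ (sl j) = plc L' u κ univ (sl j)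
        unfold plc
        split_ifs
        · rfl
        · exact h6 _ hne)
      have h8 : L (sl i) = L' (sl i) := by
        have := congrFun h7 i
        rw [← hpl L, ← hpl L']
        exact this
      refine Prod.ext h5 (funext fun e => ?_)
      by_cases he : e = sl i
      · rw [he]
        exact h8
      · exact h6 e he
    rw [Finset.card_product, Finset.card_univ, Finset.card_univ] at h3
    exact h3
  show (Fintype.card Λ : ℝ) * ∑ L : Slot k T N → Λ, ind (P L) ≤ _
  rw [h1]
  exact_mod_cast h2

/-- few cliques are such that the mixed labels are a clique -/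
private theorem mixed_count [Fintype Λ] {R : Fin k → Fin k → Λ → Λ → Prop} (hR : Uniq R)
    (S : Fin k → Prop) [DecidablePred S] (τ : Fin k → Λ) {i j : Fin k} (hi : S i) (hj : ¬ S j)
    {β : ℝ} (hβ : (Fintype.card Λ : ℝ) ^ (k - 1) ≤ β * (Kc R).card) :
    (Fintype.card Λ : ℝ) * ∑ c ∈ Kc R, ind (IsCl R fun m => if S m then c m else τ m) ≤
      β * (Kc R).card := by
  classical
  have hij : i ≠ j := fun h => hj (h ▸ hi)
  have hk : 0 < k := i.pos
  rw [sum_ind_card (fun c : Fin k → Λ => IsCl R fun m => if S m then c m else τ m)]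
  set D := (Kc R).filter fun c : Fin k → Λ => IsCl R fun m => if S m then c m else τ m with hD
  have h1 : (D ×ˢ (univ : Finset (Λ × Λ))).card ≤ (univ : Finset (Fin k → Λ)).card := by
    refine Finset.card_le_card_of_injOn
      (fun p => Function.update (Function.update p.1 i p.2.1) j p.2.2)
      (fun _ _ => Finset.mem_coe.2 (Finset.mem_univ _)) ?_
    rintro ⟨c, a, b⟩ hc ⟨c', a', b'⟩ hc' h
    rw [Finset.mem_coe, Finset.mem_product, hD, Finset.mem_filter, mem_Kc] at hc hc'
    have h4 : ∀ e, Function.update (Function.update c i a) j b e =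
        Function.update (Function.update c' i a') j b' e := fun e => congrFun h e
    have hb : b = b' := by
      have := h4 j
      rwa [Function.update_self, Function.update_self] at this
    have ha : a = a' := by
      have := h4 i
      rwa [Function.update_of_ne hij, Function.update_of_ne hij, Function.update_self,
        Function.update_self] at this
    have h5 : ∀ e, e ≠ i → e ≠ j → c e = c' e := by
      intro e he he'
      have := h4 e
      rwa [Function.update_of_ne he', Function.update_of_ne he', Function.update_of_ne he,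
        Function.update_of_ne he] at this
    have h6 : c i = c' i := by
      have h7 := hR _ _ i hc.1.2 hc'.1.2 (by
        intro m hm
        show (if S m then c m else τ m) = if S m then c' m else τ m
        by_cases hS : S m
        · rw [if_pos hS, if_pos hS]
          exact h5 m hm fun h => hj (h ▸ hS)
        · rw [if_neg hS, if_neg hS])
      have h8 := congrFun h7 i
      simp only [if_pos hi] at h8
      exact h8
    have h9 : c = c' := hR c c' j hc.1.1 hc'.1.1 fun e he => by
      by_cases hei : e = i
      · rw [hei, h6]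
      · exact h5 e hei he
    rw [h9, ha, hb]
  rw [card_product, card_univ, card_univ, Fintype.card_prod, Fintype.card_fun,
    Fintype.card_fin] at h1
  rcases Nat.eq_zero_or_pos (Fintype.card Λ) with h0 | h0
  · rw [h0, Nat.cast_zero, zero_mul]
    refine le_trans ?_ hβ
    positivity
  · have h2 : (D.card : ℝ) * (Fintype.card Λ * Fintype.card Λ) ≤ (Fintype.card Λ : ℝ) ^ k := by
      exact_mod_cast h1
    have h3 : (0 : ℝ) < Fintype.card Λ := by exact_mod_cast h0
    have h4 : (Fintype.card Λ : ℝ) ^ k = Fintype.card Λ * (Fintype.card Λ : ℝ) ^ (k - 1) := by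
      rw [← pow_succ', Nat.sub_add_cancel hk]
    refine le_trans ?_ hβ
    refine le_of_mul_le_mul_left ?_ h3
    rw [← h4]
    calc (Fintype.card Λ : ℝ) * (Fintype.card Λ * D.card) =
        (D.card : ℝ) * (Fintype.card Λ * Fintype.card Λ) := by ring
      _ ≤ _ := h2

/-- the union bound, one term -/
private theorem one_w [Fintype Λ] {R : Fin k → Fin k → Λ → Λ → Prop} (hR : Uniq R)
    (u : Fin k × Fin T → Fin N) (G : Crd k T N l → Bool) {β : ℝ}
    (hβ1 : 1 ≤ β) (hβ : (Fintype.card Λ : ℝ) ^ (k - 1) ≤ β * (Kc R).card)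
    (w : Fin k → Fin T × Fin N) (hk : 2 ≤ k) (hw : ¬ ∃ r, ∀ j, w j = (r, u (j, r))) :
    (Fintype.card Λ : ℝ) * ∑ κ ∈ Kp T R, ∑ L : Slot k T N → Λ, ind (IsCl R fun j =>
      plc L u κ univ (((j, (w j).1), (w j).2),
        if (w j).2 = u (j, (w j).1) then true else G (((j, (w j).1), (w j).2), none))) ≤
      β * (((Kc R).card : ℝ) ^ T * Fintype.card (Slot k T N → Λ)) := by
  classical
  by_cases hfree : ∃ i, (w i).2 ≠ u (i, (w i).1)
  · obtain ⟨i, hi⟩ := hfree
    rw [mul_sum]
    calc ∑ κ ∈ Kp T R, (Fintype.card Λ : ℝ) * ∑ L : Slot k T N → Λ, ind (IsCl R fun j =>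
        plc L u κ univ (((j, (w j).1), (w j).2),
          if (w j).2 = u (j, (w j).1) then true else G (((j, (w j).1), (w j).2), none)))
        ≤ ∑ _κ ∈ Kp T R, (Fintype.card (Slot k T N → Λ) : ℝ) :=
          sum_le_sum fun κ _ => one_free hR u κ G w hi
      _ = ((Kc R).card : ℝ) ^ T * Fintype.card (Slot k T N → Λ) := by
          rw [sum_const, nsmul_eq_mul, card_Kp]
          push_cast
          rfl
      _ ≤ β * (((Kc R).card : ℝ) ^ T * Fintype.card (Slot k T N → Λ)) :=
          le_mul_of_one_le_left (by positivity) hβ1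
  · push Not at hfree
    -- the numbers of the tuples
    set r : Fin k → Fin T := fun j => (w j).1 with hr
    have hlab : ∀ (κ : Fin T → Fin k → Λ) (L : Slot k T N → Λ) (j : Fin k),
        plc L u κ univ (((j, (w j).1), (w j).2),
          if (w j).2 = u (j, (w j).1) then true else G (((j, (w j).1), (w j).2), none)) =
          κ (r j) j := by
      intro κ L j
      rw [if_pos (hfree j)]
      unfold plc
      rw [if_pos ⟨rfl, mem_univ _, hfree j⟩]
    simp only [hlab]
    obtain ⟨j₂, hj₂⟩ : ∃ j, r j ≠ r ⟨0, by omega⟩ := by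
      by_contra hcon
      push Not at hcon
      refine hw ⟨r ⟨0, by omega⟩, fun j => ?_⟩
      rw [← hcon j]
      exact Prod.ext rfl (hfree j)
    set i : Fin k := ⟨0, by omega⟩ with hi
    have hcount : ∀ κ : Fin T → Fin k → Λ, (Fintype.card Λ : ℝ) *
        ∑ c ∈ Kc R, ind (IsCl R fun j => Function.update κ (r i) c (r j) j) ≤
          β * (Kc R).card := by
      intro κ
      have h1 := mixed_count (Λ := Λ) hR (fun m => r m = r i) (fun m => κ (r m) m) (i := i)
        (j := j₂) rfl hj₂ hβ
      have h2 : ∀ c : Fin k → Λ, (fun j => Function.update κ (r i) c (r j) j) =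
          fun m => if r m = r i then c m else κ (r m) m := by
        intro c
        funext m
        by_cases h : r m = r i
        · rw [if_pos h, h, Function.update_self]
        · rw [if_neg h, Function.update_of_ne h]
      simp only [h2]
      exact h1
    have hsum : (Fintype.card Λ : ℝ) * ∑ κ ∈ Kp T R, ind (IsCl R fun j => κ (r j) j) ≤
        β * ((Kc R).card : ℝ) ^ T := by
      rcases Nat.eq_zero_or_pos (Kc R).card with h0 | h0
      · have h1 : Kp T R = ∅ := by
          rw [← card_eq_zero, card_Kp, h0, zero_pow (Nat.pos_iff_ne_zero.1 (r i).pos)]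
        rw [h1, sum_empty, mul_zero]
        positivity
      · have h1 : (0 : ℝ) < (Kc R).card := by exact_mod_cast h0
        refine le_of_mul_le_mul_left ?_ h1
        calc ((Kc R).card : ℝ) * ((Fintype.card Λ : ℝ) *
              ∑ κ ∈ Kp T R, ind (IsCl R fun j => κ (r j) j))
            = (Fintype.card Λ : ℝ) * (((Kc R).card : ℝ) *
              ∑ κ ∈ Kp T R, ind (IsCl R fun j => κ (r j) j)) := by ring
          _ = (Fintype.card Λ : ℝ) * ∑ κ ∈ Kp T R, ∑ c ∈ Kc R,
                ind (IsCl R fun j => Function.update κ (r i) c (r j) j) := by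
              rw [sum_update_Kp R (r i) fun κ => ind (IsCl R fun j => κ (r j) j)]
          _ = ∑ κ ∈ Kp T R, (Fintype.card Λ : ℝ) * ∑ c ∈ Kc R,
                ind (IsCl R fun j => Function.update κ (r i) c (r j) j) := mul_sum _ _ _
          _ ≤ ∑ _κ ∈ Kp T R, β * (Kc R).card := sum_le_sum fun κ _ => hcount κ
          _ = ((Kc R).card : ℝ) * (β * ((Kc R).card : ℝ) ^ T) := by
              rw [sum_const, nsmul_eq_mul, card_Kp]
              push_cast
              ring
    have e1 : ∑ κ ∈ Kp T R, ∑ _L : Slot k T N → Λ, ind (IsCl R fun j => κ (r j) j) =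
        (∑ κ ∈ Kp T R, ind (IsCl R fun j => κ (r j) j)) * Fintype.card (Slot k T N → Λ) := by
      rw [sum_mul]
      refine sum_congr rfl fun κ _ => ?_
      rw [sum_const, card_univ, nsmul_eq_mul, mul_comm]
    rw [e1, ← mul_assoc, ← mul_assoc]
    exact mul_le_mul_of_nonneg_right hsum (Nat.cast_nonneg _)

/-- Row EXTRA: other cliques of labels are rare. Union bound over `w`. If some `w j` is not a
planted unit, sum over `L` first (as in `MP_678664_lc_AC/Extra.lean`). Otherwise two of the `w j`
are in different tuples `r ≠ r'`; fix all `κ r''`, `r'' ≠ r`, then by `Uniq` there are at most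
`M ^ (k - 2) ≤ β * K / M` cliques `κ r` for which the mixed labels are a clique. -/
theorem sum_extc [Fintype Λ] {R : Fin k → Fin k → Λ → Λ → Prop} (hk : 2 ≤ k) (hR : Uniq R)
    (u : Fin k × Fin T → Fin N) (G : Crd k T N l → Bool) {β : ℝ}
    (hβ1 : 1 ≤ β) (hβ : (Fintype.card Λ : ℝ) ^ (k - 1) ≤ β * (Kc R).card) :
    (Fintype.card Λ : ℝ) * ∑ κ ∈ Kp T R, ∑ L : Slot k T N → Λ,
      ind (Extc R (plc L u κ univ) G u) ≤
      ((T : ℝ) * N) ^ k * β * (((Kc R).card : ℝ) ^ T * Fintype.card (Slot k T N → Λ)) := by
  classical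
  set Wn : Finset (Fin k → Fin T × Fin N) :=
    univ.filter fun w => ¬ ∃ r, ∀ j, w j = (r, u (j, r)) with hWn
  have h1 : ∀ (κ : Fin T → Fin k → Λ) (L : Slot k T N → Λ),
      ind (Extc R (plc L u κ univ) G u) ≤ ∑ w ∈ Wn, ind (IsCl R fun j =>
        plc L u κ univ (((j, (w j).1), (w j).2),
          if (w j).2 = u (j, (w j).1) then true else G (((j, (w j).1), (w j).2), none))) := by
    intro κ L
    refine le_trans (ind_mono ?_) (ind_exists_le Wn _)
    rintro ⟨w, hw, hc⟩
    exact ⟨w, mem_filter.2 ⟨mem_univ _, hw⟩, hc⟩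
  calc (Fintype.card Λ : ℝ) * ∑ κ ∈ Kp T R, ∑ L : Slot k T N → Λ,
        ind (Extc R (plc L u κ univ) G u)
      ≤ (Fintype.card Λ : ℝ) * ∑ κ ∈ Kp T R, ∑ L : Slot k T N → Λ, ∑ w ∈ Wn, ind (IsCl R fun j =>
        plc L u κ univ (((j, (w j).1), (w j).2),
          if (w j).2 = u (j, (w j).1) then true else G (((j, (w j).1), (w j).2), none))) :=
        mul_le_mul_of_nonneg_left (sum_le_sum fun κ _ => sum_le_sum fun L _ => h1 κ L)
          (Nat.cast_nonneg _)
    _ = ∑ w ∈ Wn, (Fintype.card Λ : ℝ) * ∑ κ ∈ Kp T R, ∑ L : Slot k T N → Λ, ind (IsCl R fun j =>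
        plc L u κ univ (((j, (w j).1), (w j).2),
          if (w j).2 = u (j, (w j).1) then true else G (((j, (w j).1), (w j).2), none))) := by
        rw [← mul_sum, sum_comm (s := Wn)]
        congr 1
        refine sum_congr rfl fun κ _ => ?_
        rw [sum_comm]
    _ ≤ ∑ _w ∈ Wn, β * (((Kc R).card : ℝ) ^ T * Fintype.card (Slot k T N → Λ)) :=
        sum_le_sum fun w hw => one_w hR u G hβ1 hβ w hk (mem_filter.1 hw).2
    _ = (Wn.card : ℝ) * (β * (((Kc R).card : ℝ) ^ T * Fintype.card (Slot k T N → Λ))) := by
        rw [sum_const, nsmul_eq_mul]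
    _ ≤ ((T : ℝ) * N) ^ k * (β * (((Kc R).card : ℝ) ^ T * Fintype.card (Slot k T N → Λ))) := by
        refine mul_le_mul_of_nonneg_right ?_ (by positivity)
        have h2 : Wn.card ≤ (T * N) ^ k := by
          refine (card_filter_le _ _).trans ?_
          rw [card_univ, Fintype.card_fun, Fintype.card_prod, Fintype.card_fin, Fintype.card_fin,
            Fintype.card_fin]
        exact_mod_cast h2
    _ = _ := by ring

end CliqueCert
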