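import Pool.Agent.Lib.CERT.Base

/-!
# PROJECT CERT: at least a fraction `1 / 2 ^ T` of the states of the planted units gives no clique
-/

open Finset

namespace CliqueCert

open SmallDepth CliqueDepth

section parties

variable {k : ℕ} {I : Type}

/-- The sign of one planted tuple. -/
def hsg {k l : ℕ} (z : Fin k → Fin l → Bool) : ℝ :=
  ∏ i : Fin l, if ∀ j, z j i = true then -1 else 1

theorem hsg_eq {k l : ℕ} (z : Fin k → Fin l → Bool) :
    hsg z = (-1) ^ (univ.filter fun i : Fin l => ∀ j, z j i = true).card := by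
  rw [hsg, prod_ite, prod_const, prod_const_one, mul_one]

theorem two_ind {k l : ℕ} (z : Fin k → Fin l → Bool) :
    2 * ind (¬ gip z) = 1 + hsg z := by
  rw [hsg_eq, ind, gip]
  by_cases h : Odd (univ.filter fun i : Fin l => ∀ j, z j i = true).card
  · rw [if_neg (not_not.2 h), h.neg_one_pow]
    norm_num
  · rw [if_pos h, (Nat.not_odd_iff_even.1 h).neg_one_pow]
    norm_num

theorem sum_hsg {k l : ℕ} (hk : 1 ≤ k) : 0 ≤ ∑ z : Fin k → Fin l → Bool, hsg z := by
  have h1 : ∑ z : Fin k → Fin l → Bool, hsg z =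
      ∑ z : Fin l → Fin k → Bool, ∏ i : Fin l, (if ∀ j, z i j = true then (-1 : ℝ) else 1) := by
    refine Fintype.sum_equiv (Equiv.piComm fun (_ : Fin k) (_ : Fin l) => Bool) _ _ fun z => ?_
    rfl
  have h2 : ∏ _i : Fin l, ∑ c : Fin k → Bool, (if ∀ j, c j = true then (-1 : ℝ) else 1) =
      ∑ z : Fin l → Fin k → Bool, ∏ i : Fin l, (if ∀ j, z i j = true then (-1 : ℝ) else 1) := by
    rw [prod_univ_sum, Fintype.piFinset_univ]
  rw [h1, ← h2]
  refine prod_nonneg fun i _ => ?_
  have h3 : ∑ c : Fin k → Bool, (if ∀ j, c j = true then (-1 : ℝ) else 1) =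
      ∑ c : Fin k → Bool, (1 - 2 * (if c = (fun _ => true) then (1 : ℝ) else 0)) := by
    refine sum_congr rfl fun c _ => ?_
    by_cases h : ∀ j, c j = true
    · rw [if_pos h, if_pos (funext h)]
      norm_num
    · rw [if_neg h, if_neg fun h' => h fun j => by rw [h']]
      norm_num
  rw [h3, sum_sub_distrib, ← mul_sum, sum_ite_eq']
  rw [if_pos (mem_univ _), sum_const, card_univ, Fintype.card_fun, Fintype.card_bool,
    Fintype.card_fin, nsmul_eq_mul, mul_one, mul_one]
  have h4 : 2 ^ 1 ≤ 2 ^ k := Nat.pow_le_pow_right (by norm_num) hk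
  have h5 : (2 : ℝ) ≤ ((2 ^ k : ℕ) : ℝ) := by exact_mod_cast h4
  linarith

/-- Row HALF, part 1. -/
theorem half_count {T l : ℕ} (hk : 1 ≤ k) : (2 : ℝ) ^ (k * (T * l)) ≤
    2 ^ T * ∑ y : Fin k → Fin T × Fin l → Bool, ind (∀ r, ¬ gip fun j i => y j (r, i)) := by
  have h1 : (2 : ℝ) ^ T * ∑ y : Fin k → Fin T × Fin l → Bool,
      ind (∀ r, ¬ gip fun j i => y j (r, i)) =
      ∑ y : Fin k → Fin T × Fin l → Bool, ∏ r : Fin T, (1 + hsg fun j i => y j (r, i)) := by
    rw [mul_sum]
    refine sum_congr rfl fun y _ => ?_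
    have h2 : (∏ r : Fin T, (1 + hsg fun j i => y j (r, i))) =
        ∏ r : Fin T, (2 * ind (¬ gip fun j i => y j (r, i))) :=
      prod_congr rfl fun r _ => (two_ind _).symm
    rw [h2, prod_mul_distrib, prod_const, card_univ, Fintype.card_fin]
    congr 1
    by_cases h : ∀ r, ¬ gip fun j i => y j (r, i)
    · rw [ind, if_pos h, eq_comm]
      exact prod_eq_one fun r _ => by rw [ind, if_pos (h r)]
    · rw [ind, if_neg h, eq_comm]
      rw [not_forall] at h
      obtain ⟨r, hr⟩ := h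
      exact prod_eq_zero (mem_univ r) (by rw [ind, if_neg hr])
  have h3 : ∑ y : Fin k → Fin T × Fin l → Bool, ∏ r : Fin T, (1 + hsg fun j i => y j (r, i)) =
      ∑ y : Fin T → Fin k → Fin l → Bool, ∏ r : Fin T, (1 + hsg (y r)) := by
    let e : (Fin k → Fin T × Fin l → Bool) ≃ (Fin T → Fin k → Fin l → Bool) :=
      { toFun := fun y r j i => y j (r, i)
        invFun := fun z j p => z p.1 j p.2
        left_inv := fun y => rfl
        right_inv := fun z => rfl }
    exact Fintype.sum_equiv e _ _ fun y => rfl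
  have h4 : ∏ _r : Fin T, ∑ z : Fin k → Fin l → Bool, (1 + hsg z) =
      ∑ y : Fin T → Fin k → Fin l → Bool, ∏ r : Fin T, (1 + hsg (y r)) := by
    rw [prod_univ_sum, Fintype.piFinset_univ]
  rw [h1, h3, ← h4, prod_const, card_univ, Fintype.card_fin]
  have h5 : (2 : ℝ) ^ (k * l) ≤ ∑ z : Fin k → Fin l → Bool, (1 + hsg z) := by
    rw [sum_add_distrib, sum_const, card_univ, Fintype.card_fun, Fintype.card_fun,
      Fintype.card_bool, Fintype.card_fin, Fintype.card_fin, nsmul_eq_mul, mul_one]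
    have h6 := sum_hsg (l := l) hk
    have h7 : (((2 ^ l) ^ k : ℕ) : ℝ) = 2 ^ (k * l) := by
      push_cast
      rw [← pow_mul, mul_comm]
    rw [h7]
    linarith
  calc (2 : ℝ) ^ (k * (T * l)) = ((2 : ℝ) ^ (k * l)) ^ T := by
        rw [← pow_mul]
        congr 1
        ring
    _ ≤ _ := pow_le_pow_left₀ (by positivity) h5 _

/-- Row HALF, part 2. -/
theorem sgi_eq_one {T l : ℕ} {y : Fin k → Fin T × Fin l → Bool}
    (h : ∀ r, ¬ gip fun j i => y j (r, i)) : sgi y = 1 := by
  rw [sgi, Fintype.prod_prod_type]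
  refine prod_eq_one fun r _ => ?_
  rw [prod_ite, prod_const, prod_const_one, mul_one]
  have h1 := h r
  rw [gip, Nat.not_odd_iff_even] at h1
  exact h1.neg_one_pow

end parties

end CliqueCert
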