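import Pool.Agent.Lib.CERT.Pass
import Pool.Agent.Lib.CERT.Bns
import Pool.Agent.Lib.CERT.Half

/-!
# Certified k-clique: row FINC, the final count
-/

set_option autoImplicit false

open Finset

namespace CliqueCert

open SmallDepth CliqueDepth

section parties

variable {k : ℕ} {I : Type}

/-- Row FINC (assembly): from PASS, BNS, HALF. -/
theorem final_count {T l o D t W A : ℕ} (hk : 1 ≤ k) (hD : D * W < k)
    (v : (Fin k → Fin T × Fin l → Bool) → ℕ → Prop)
    (hv : ∀ i ≤ o, ∃ B : Finset (Fin k × Fin T), B.card ≤ W ∧ DepOn B (fun y => v y i))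
    (τ : Fin A → Test t)
    (hiff : ∀ y, (∀ r, ¬ gip fun j i => y j (r, i)) ↔ ∃ a, (τ a).Passes o D (v y))
    {x : ℝ} (hx : 0 ≤ x)
    (hρ : (1 - (1 / 2 : ℝ) ^ (k - 1)) ^ (T * l) ≤ x ^ (2 ^ (k - 1))) :
    1 ≤ (2 : ℝ) ^ T * (A *
      ((8 * ((((k * T + 1) ^ k * 2 ^ (l * k) : ℕ) : ℝ) + 4) ^ 2) ^ t * x)) := by
  classical
  set K : ℝ := (8 * ((((k * T + 1) ^ k * 2 ^ (l * k) : ℕ) : ℝ) + 4) ^ 2) ^ t with hK
  have hcard : Fintype.card (Fin T × Fin l) = T * l := by simp
  set B₀ : ℝ := 2 ^ (k * (T * l)) * x with hB₀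
  have hB₀0 : 0 ≤ B₀ := by positivity
  have h1 : Cyl (fun _ : Fin k → Fin T × Fin l → Bool => 1) B₀ := by
    have := cyl_one (I := Fin T × Fin l) hk hx (by rw [hcard]; exact hρ)
    rwa [hcard] at this
  have hpass := fun a => cyl_passes hD v hv (τ a) hB₀0 h1
  have hone : ∀ a, ‖∑ y : Fin k → Fin T × Fin l → Bool,
      sgi y * indC ((τ a).Passes o D (v y))‖ ≤ K * B₀ := by
    intro a
    have := hpass a (fun _ _ => 1) (fun _ _ => by simp) (fun _ _ _ _ => rfl)
    simpa only [prod_const_one, mul_one] using this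
  -- the number of the good states
  set Z : ℝ := ∑ y : Fin k → Fin T × Fin l → Bool, ind (∀ r, ¬ gip fun j i => y j (r, i)) with hZ
  have hhalf : (2 : ℝ) ^ (k * (T * l)) ≤ 2 ^ T * Z := half_count hk
  have hterm : ∀ y : Fin k → Fin T × Fin l → Bool,
      ∑ a, sgi y * indC ((τ a).Passes o D (v y)) =
        ((∑ a, ind ((τ a).Passes o D (v y)) : ℝ) : ℂ) := by
    intro y
    by_cases hy : ∀ r, ¬ gip fun j i => y j (r, i)
    · rw [sgi_eq_one hy]
      push_cast
      exact sum_congr rfl (fun a _ => by rw [one_mul]; rfl)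
    · have hno : ∀ a, ¬ (τ a).Passes o D (v y) := fun a ha => hy ((hiff y).2 ⟨a, ha⟩)
      push_cast
      refine sum_congr rfl (fun a _ => ?_)
      unfold indC
      rw [ind_false (hno a)]
      simp
  have hZle : Z ≤ ∑ y : Fin k → Fin T × Fin l → Bool, ∑ a, ind ((τ a).Passes o D (v y)) := by
    refine sum_le_sum (fun y _ => ?_)
    by_cases hy : ∀ r, ¬ gip fun j i => y j (r, i)
    · obtain ⟨a, ha⟩ := (hiff y).1 hy
      calc ind (∀ r, ¬ gip fun j i => y j (r, i)) ≤ 1 := ind_le_one _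
        _ = ind ((τ a).Passes o D (v y)) := (ind_true ha).symm
        _ ≤ ∑ a, ind ((τ a).Passes o D (v y)) :=
            single_le_sum (f := fun a => ind ((τ a).Passes o D (v y)))
              (fun _ _ => ind_nonneg _) (mem_univ a)
    · rw [ind_false hy]
      exact sum_nonneg (fun _ _ => ind_nonneg _)
  have hnorm : ∑ y : Fin k → Fin T × Fin l → Bool, ∑ a, ind ((τ a).Passes o D (v y)) ≤
      A * (K * B₀) := by
    have h0 : 0 ≤ ∑ y : Fin k → Fin T × Fin l → Bool, ∑ a, ind ((τ a).Passes o D (v y)) :=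
      sum_nonneg (fun _ _ => sum_nonneg (fun _ _ => ind_nonneg _))
    calc ∑ y : Fin k → Fin T × Fin l → Bool, ∑ a, ind ((τ a).Passes o D (v y))
        = ‖((∑ y : Fin k → Fin T × Fin l → Bool, ∑ a, ind ((τ a).Passes o D (v y)) : ℝ) : ℂ)‖ := by
          rw [Complex.norm_real, Real.norm_of_nonneg h0]
      _ = ‖∑ y : Fin k → Fin T × Fin l → Bool, ∑ a, sgi y * indC ((τ a).Passes o D (v y))‖ := by
          congr 1
          rw [sum_congr rfl (fun y _ => hterm y)]
          push_cast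
          rfl
      _ = ‖∑ a, ∑ y : Fin k → Fin T × Fin l → Bool, sgi y * indC ((τ a).Passes o D (v y))‖ := by
          rw [sum_comm]
      _ ≤ ∑ a, ‖∑ y : Fin k → Fin T × Fin l → Bool, sgi y * indC ((τ a).Passes o D (v y))‖ :=
          norm_sum_le _ _
      _ ≤ ∑ _a : Fin A, K * B₀ := sum_le_sum (fun a _ => hone a)
      _ = A * (K * B₀) := by simp
  have hfin : (2 : ℝ) ^ (k * (T * l)) ≤ 2 ^ T * (A * (K * B₀)) :=
    hhalf.trans (mul_le_mul_of_nonneg_left (hZle.trans hnorm) (by positivity))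
  have hpos : (0 : ℝ) < 2 ^ (k * (T * l)) := by positivity
  have e : (2 : ℝ) ^ T * (A * (K * B₀)) = 2 ^ (k * (T * l)) * (2 ^ T * (A * (K * x))) := by
    rw [hB₀]; ring
  rw [e] at hfin
  exact le_of_mul_le_mul_left (by rw [mul_one]; exact hfin) hpos

end parties

end CliqueCert
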