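import Pool.Agent.Lib.MP_678664_lc_AC.Eng

/-!
# Few sets of free coordinates are reached by a gate

A function with a decision tree of depth `m` depends on all coordinates of the cube over `Y` at a
given base point only for at most `(m + 1) ^ (2 ^ K)` sets `Y` of at most `K` coordinates.
-/

open Finset

namespace CliqueCert

open SmallDepth CliqueDepth

variable {Ω : Type} [DecidableEq Ω]

/-- The dependence set is full. -/
theorem dep_dep (v : (Ω → Bool) → Prop) (G : Ω → Bool) (Q : Finset Ω) :
    dep v G (dep v G Q) = dep v G Q := by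
  classical
  refine Subset.antisymm (dep_subset _ _ _) fun S hS => ?_
  obtain ⟨hSQ, X, hX, h⟩ := mem_dep.1 hS
  set D := dep v G Q with hD
  set B : Finset Ω := (Q \ D).filter fun S => G S = true with hB
  have hDQ : D ⊆ Q := dep_subset _ _ _
  have key : ∀ X : Finset Ω, X ⊆ D → (v (fl G Q X) ↔ v (fl G D X)) := by
    intro X hX
    have h1 : (X ∪ B) ∩ D = X := by
      ext T
      simp only [mem_inter, mem_union, hB, mem_filter, mem_sdiff]
      constructor
      · rintro ⟨h | h, h'⟩
        · exact h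
        · exact absurd h' h.1.2
      · exact fun h => ⟨Or.inl h, hX h⟩
    have h2 : fl G Q (X ∪ B) = fl G D X := by
      funext T
      unfold fl
      by_cases hTD : T ∈ D
      · have hTB : T ∉ B := fun h => (mem_sdiff.1 (mem_filter.1 h).1).2 hTD
        simp [hDQ hTD, hTD, hTB]
      · have hTX : T ∉ X := fun h => hTD (hX h)
        by_cases hTQ : T ∈ Q
        · rw [if_pos hTQ, if_neg hTD]
          by_cases hG : G T = true
          · have : T ∈ B := mem_filter.2 ⟨mem_sdiff.2 ⟨hTQ, hTD⟩, hG⟩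
            simp [this, hG]
          · have : T ∉ B := fun h => hG (mem_filter.1 h).2
            simp [this, hTX, hG]
        · rw [if_neg hTQ, if_neg hTD]
    have h3 := dep_inter v G Q (X ∪ B) D (hD ▸ Subset.rfl)
    rw [h1, h2] at h3
    exact h3.symm
  have h3 := dep_inter v G Q X D (hD ▸ Subset.rfl)
  have h4 := dep_inter v G Q (insert S X) D (hD ▸ Subset.rfl)
  have h5 : insert S X ∩ D = insert S (X ∩ D) := insert_inter_of_mem hS
  rw [h5] at h4
  refine mem_dep.2 ⟨hS, X ∩ D, inter_subset_right, ?_⟩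
  rw [← key _ inter_subset_right, ← key _ (insert_subset hS inter_subset_right), ← h3, ← h4]
  exact h

/-- The sets at `x`, for certificates `T`. -/
private def fs (T : (Ω → Bool) → Finset Ω) : ℕ → (Ω → Bool) → Finset (Finset Ω)
  | 0, _ => {∅}
  | K + 1, x => insert ∅ ((T x).biUnion fun S =>
      (fs T K (Function.update x S false)).biUnion fun Y =>
        (fs T K (Function.update x S true)).image fun Z => insert S (Y ∪ Z))

private theorem card_fs {T : (Ω → Bool) → Finset Ω} {m : ℕ} (hT : ∀ x, (T x).card ≤ m) (K : ℕ) :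
    ∀ x, (fs T K x).card ≤ (m + 1) ^ (2 ^ K - 1) := by
  induction K with
  | zero => intro x; simp [fs]
  | succ K ih =>
    intro x
    set c := (m + 1) ^ (2 ^ K - 1) with hc
    have h1 : (fs T (K + 1) x).card ≤ m * (c * c) + 1 := by
      refine (card_insert_le _ _).trans (Nat.add_le_add_right ?_ 1)
      refine (card_biUnion_le_card_mul _ _ (c * c) fun S _ => ?_).trans
        (Nat.mul_le_mul_right _ (hT x))
      refine (card_biUnion_le_card_mul _ _ c fun Y _ => card_image_le.trans (ih _)).trans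
        (Nat.mul_le_mul_right _ (ih _))
    have h2 : 1 ≤ c * c := Nat.mul_pos (Nat.pos_of_ne_zero (by positivity))
      (Nat.pos_of_ne_zero (by positivity))
    have h3 : (m + 1) ^ (2 ^ (K + 1) - 1) = (m + 1) * (c * c) := by
      rw [hc, ← pow_add, ← pow_succ']
      congr 1
      have : 1 ≤ 2 ^ K := Nat.one_le_two_pow
      rw [pow_succ]
      omega
    rw [h3]
    calc _ ≤ m * (c * c) + 1 := h1
      _ ≤ m * (c * c) + c * c := Nat.add_le_add_left h2 _
      _ = _ := by ring

private theorem mem_fs {g : (Ω → Bool) → Prop} {T : (Ω → Bool) → Finset Ω}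
    (hT : ∀ x y, (∀ S ∈ T x, y S = x S) → (g y ↔ g x)) (K : ℕ) :
    ∀ (x : Ω → Bool) (Y : Finset Ω), Y.card ≤ K → dep g x Y = Y → Y ∈ fs T K x := by
  induction K with
  | zero =>
    intro x Y hY _
    rw [card_eq_zero.1 (Nat.le_zero.1 hY)]
    exact mem_singleton_self _
  | succ K ih =>
    intro x Y hY hd
    by_cases hdis : ∀ S ∈ T x, S ∉ Y
    · have h0 : Y = ∅ := by
        rw [← hd, eq_empty_iff_forall_notMem]
        intro S hS
        obtain ⟨hSY, X, hX, h⟩ := mem_dep.1 hS
        apply h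
        have h1 : ∀ X : Finset Ω, g (fl x Y X) ↔ g x := by
          intro X
          refine hT x _ fun S' hS' => ?_
          unfold fl
          rw [if_neg (hdis S' hS')]
        rw [h1, h1]
      rw [h0]
      exact mem_insert_self _ _
    · push Not at hdis
      obtain ⟨S, hST, hSY⟩ := hdis
      have hsub : Y.erase S ⊆ Y := erase_subset _ _
      have hfl : ∀ (b : Bool) (X : Finset Ω), X ⊆ Y.erase S →
          fl (Function.update x S b) (Y.erase S) X =
            fl x Y (if b = true then insert S X else X) := by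
        intro b X hX
        funext S'
        unfold fl
        by_cases h1 : S' = S
        · subst h1
          have h2 : S' ∉ X := fun h => (notMem_erase S' Y) (hX h)
          rw [if_neg (notMem_erase S' Y), if_pos hSY, Function.update_self]
          cases b <;> simp [h2]
        · by_cases h2 : S' ∈ Y
          · rw [if_pos (mem_erase.2 ⟨h1, h2⟩), if_pos h2]
            cases b <;> simp [h1]
          · rw [if_neg (fun h => h2 (hsub h)), if_neg h2, Function.update_of_ne h1]
      have hin : ∀ b : Bool, dep g (Function.update x S b) (Y.erase S) ∈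
          fs T K (Function.update x S b) := by
        intro b
        refine ih _ _ ?_ (dep_dep _ _ _)
        have h1 := card_le_card (dep_subset g (Function.update x S b) (Y.erase S))
        rw [card_erase_of_mem hSY] at h1
        omega
      have hY : Y = insert S (dep g (Function.update x S false) (Y.erase S) ∪
          dep g (Function.update x S true) (Y.erase S)) := by
        refine Subset.antisymm ?_ ?_
        · intro S' hS'
          by_cases h1 : S' = S
          · rw [h1]; exact mem_insert_self _ _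
          · refine mem_insert_of_mem ?_
            have h2 : S' ∈ dep g x Y := by rw [hd]; exact hS'
            obtain ⟨_, X, hX, h⟩ := mem_dep.1 h2
            have h3 : X.erase S ⊆ Y.erase S := erase_subset_erase _ hX
            have h4 : insert S' (X.erase S) ⊆ Y.erase S :=
              insert_subset (mem_erase.2 ⟨h1, hS'⟩) h3
            by_cases h5 : S ∈ X
            · refine mem_union_right _ (mem_dep.2 ⟨mem_erase.2 ⟨h1, hS'⟩, X.erase S, h3, ?_⟩)
              rw [hfl true _ h3, hfl true _ h4, if_pos rfl, if_pos rfl, insert_erase h5,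
                insert_comm, insert_erase h5]
              exact h
            · refine mem_union_left _ (mem_dep.2 ⟨mem_erase.2 ⟨h1, hS'⟩, X.erase S, h3, ?_⟩)
              rw [hfl false _ h3, hfl false _ h4, if_neg (by simp), if_neg (by simp),
                erase_eq_of_notMem h5]
              exact h
        · refine insert_subset hSY (union_subset ?_ ?_)
          · exact (dep_subset _ _ _).trans hsub
          · exact (dep_subset _ _ _).trans hsub
      rw [hY]
      refine mem_insert_of_mem (mem_biUnion.2 ⟨S, hST, mem_biUnion.2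
        ⟨_, hin false, mem_image.2 ⟨_, hin true, rfl⟩⟩⟩)

/-- Number of full sets. -/
theorem full_count {m : ℕ} {g : (Ω → Bool) → Prop} (h : DT m g) (K : ℕ) (x : Ω → Bool) :
    ∃ F : Finset (Finset Ω), F.card ≤ (m + 1) ^ (2 ^ K) ∧
      ∀ Y : Finset Ω, Y.card ≤ K → dep g x Y = Y → Y ∈ F := by
  choose T hT hT' using fun x => h.cert x
  refine ⟨fs T K x, ?_, fun Y hY hd => mem_fs hT' K x Y hY hd⟩
  exact (card_fs hT K x).trans (Nat.pow_le_pow_right (by omega) (Nat.sub_le _ _))

/-! ### Reachable sets -/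

/-- The number of sets of at most `K` free coordinates which are reached by a gate. -/
def evB (K m f : ℕ) : ℕ := (2 ^ K * (f + 1) * (m + 1) ^ (2 ^ K)) ^ (K + 1)

/-- The assignment `G`, changed to true on `Z`. -/
private def pt (G : Ω → Bool) (Z : Finset Ω) : Ω → Bool := fun S => if S ∈ Z then true else G S

private theorem fl_pt {G : Ω → Bool} {Q Z : Finset Ω} (hG : ∀ S ∈ Q, G S = false) (hZ : Z ⊆ Q) :
    fl G Q Z = pt G Z := by
  funext S
  unfold fl pt
  by_cases hS : S ∈ Q
  · by_cases hSZ : S ∈ Z <;> simp [hS, hSZ, hG S hS]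
  · have hSZ : S ∉ Z := fun h => hS (hZ h)
    simp [hS, hSZ]

private theorem dep_res {ρ : Restr Ω} {G : Ω → Bool} (hG : ∀ S b, ρ S = some b → G S = b)
    {Q : Finset Ω} (hQ : ∀ S ∈ Q, ρ S = none) (v : (Ω → Bool) → Prop) :
    dep (res ρ v) G Q = dep v G Q := by
  have h1 : ∀ X : Finset Ω, ap ρ (fl G Q X) = fl G Q X := by
    intro X
    funext S
    unfold ap fl
    rcases h : ρ S with _ | b
    · simp
    · have hS : S ∉ Q := fun h' => by rw [hQ S h'] at h; exact absurd h (by simp)
      simp [hS, hG S b h]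
  ext S
  rw [mem_dep, mem_dep]
  unfold res
  simp only [h1]

/-- The sets which can be reached in `n` steps. -/
private noncomputable def rs (v : ℕ → (Ω → Bool) → Prop) (A : Finset ℕ) (b : Prop) (G : Ω → Bool)
    (F : ℕ → Finset (Finset Ω)) (Y : Finset Ω) (K : ℕ) : ℕ → Finset (Finset Ω)
  | 0 => {∅}
  | n + 1 => (rs v A b G F Y K n).biUnion fun U =>
      (if (U ∪ Y).card ≤ K then (U ∪ Y).powerset else ∅).biUnion fun Z =>
        (F (fst v A b (pt G Z))).image fun W => U ∪ W

private theorem card_rs (v : ℕ → (Ω → Bool) → Prop) (A : Finset ℕ) (b : Prop) (G : Ω → Bool)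
    {F : ℕ → Finset (Finset Ω)} {c : ℕ} (hF : ∀ j, (F j).card ≤ c) (Y : Finset Ω) (K n : ℕ) :
    (rs v A b G F Y K n).card ≤ (2 ^ K * c) ^ n := by
  induction n with
  | zero => simp [rs]
  | succ n ih =>
    refine (card_biUnion_le_card_mul _ _ (2 ^ K * c) fun U _ => ?_).trans ?_
    · refine (card_biUnion_le_card_mul _ _ c fun Z _ => card_image_le.trans (hF _)).trans ?_
      refine Nat.mul_le_mul_right _ ?_
      split_ifs with h
      · rw [card_powerset]
        exact Nat.pow_le_pow_right (by omega) h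
      · simp
    · rw [pow_succ]
      exact Nat.mul_le_mul_right _ ih

private theorem mem_rs {v : ℕ → (Ω → Bool) → Prop} {g : (Ω → Bool) → Prop} {A : Finset ℕ}
    {b : Prop} {G : Ω → Bool} {F : ℕ → Finset (Finset Ω)} {K : ℕ} {Q : Finset Ω}
    (hG : ∀ S ∈ Q, G S = false) (hQK : Q.card ≤ K)
    (hF : ∀ j ∈ A, dep (v j) G Q ∈ F j) {n : ℕ} {U : Finset Ω}
    (h : Reach v g A b G Q n U) : U ⊆ Q ∧ U ∈ rs v A b G F (dep g G Q) K n := by
  induction h with
  | zero => exact ⟨empty_subset _, mem_singleton_self _⟩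
  | step n U Z h hZ hl ih =>
    obtain ⟨ih1, ih2⟩ := ih
    have hUY : U ∪ dep g G Q ⊆ Q := union_subset ih1 (dep_subset _ _ _)
    have hZQ : Z ⊆ Q := hZ.trans hUY
    refine ⟨union_subset ih1 (dep_subset _ _ _), ?_⟩
    have h1 := fl_pt hG hZQ
    refine mem_biUnion.2 ⟨U, ih2, mem_biUnion.2 ⟨Z, ?_, mem_image.2 ⟨_, ?_, rfl⟩⟩⟩
    · rw [if_pos ((card_le_card hUY).trans hQK), mem_powerset]
      exact hZ
    · rw [h1] at hl ⊢
      exact hF _ hl

private theorem reach_count {v : ℕ → (Ω → Bool) → Prop} {g : (Ω → Bool) → Prop} {A : Finset ℕ}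
    {b : Prop} {ρ : Restr Ω} {G : Ω → Bool} (hGρ : ∀ S b, ρ S = some b → G S = b) {m : ℕ}
    (hg : DT m (res ρ g)) (hv : ∀ j ∈ A, DT m (res ρ (v j))) (K : ℕ) :
    ∃ F : Finset (Finset Ω), F.card ≤ (2 ^ K * (m + 1) ^ (2 ^ K)) ^ (K + 1) ∧
      ∀ Q : Finset Ω, (∀ S ∈ Q, ρ S = none) → (∀ S ∈ Q, G S = false) → Q.card ≤ K →
        (∃ n ≤ K, Reach v g A b G Q n Q) → Q ∈ F := by
  classical
  set c := (m + 1) ^ (2 ^ K) with hc
  obtain ⟨Fg, hFg, hFg'⟩ := full_count hg K G
  have hex : ∀ j, ∃ F : Finset (Finset Ω), F.card ≤ c ∧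
      (j ∈ A → ∀ Y : Finset Ω, Y.card ≤ K → dep (res ρ (v j)) G Y = Y → Y ∈ F) := by
    intro j
    by_cases hj : j ∈ A
    · obtain ⟨F, hF, hF'⟩ := full_count (hv j hj) K G
      exact ⟨F, hF, fun _ => hF'⟩
    · exact ⟨∅, by simp, fun h => absurd h hj⟩
  choose F hF hF' using hex
  refine ⟨Fg.biUnion fun Y => (range (K + 1)).biUnion fun n => rs v A b G F Y K n, ?_, ?_⟩
  · have h1 : ∀ Y, ((range (K + 1)).biUnion fun n => rs v A b G F Y K n).card ≤
        (K + 1) * (2 ^ K * c) ^ K := by
      intro Y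
      refine (card_biUnion_le_card_mul _ _ ((2 ^ K * c) ^ K) fun n hn => ?_).trans
        (by rw [card_range])
      refine (card_rs v A b G hF Y K n).trans (Nat.pow_le_pow_right ?_ ?_)
      · exact Nat.mul_pos (Nat.pos_of_ne_zero (by positivity)) (Nat.pos_of_ne_zero (by positivity))
      · have := mem_range.1 hn
        omega
    refine (card_biUnion_le_card_mul _ _ _ fun Y _ => h1 Y).trans ?_
    have h2 : K + 1 ≤ 2 ^ K := Nat.lt_two_pow_self
    calc Fg.card * ((K + 1) * (2 ^ K * c) ^ K) ≤ c * (2 ^ K * (2 ^ K * c) ^ K) :=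
          Nat.mul_le_mul hFg (Nat.mul_le_mul_right _ h2)
      _ = (2 ^ K * c) ^ (K + 1) := by rw [pow_succ]; ring
  · intro Q hQ hGQ hQK hR
    obtain ⟨n, hn, hR⟩ := hR
    have hcard : ∀ v : (Ω → Bool) → Prop, (dep v G Q).card ≤ K := fun v =>
      (card_le_card (dep_subset v G Q)).trans hQK
    have hfull : ∀ v : (Ω → Bool) → Prop, dep (res ρ v) G (dep v G Q) = dep v G Q := by
      intro v
      rw [dep_res hGρ (fun S hS => hQ S (dep_subset _ _ _ hS)) v]
      exact dep_dep v G Q
    refine mem_biUnion.2 ⟨dep g G Q, hFg' _ (hcard g) (hfull g), mem_biUnion.2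
      ⟨n, mem_range.2 (by omega), ?_⟩⟩
    exact (mem_rs hGQ hQK (fun j hj => hF' j hj _ (hcard _) (hfull _)) hR).2

private theorem union_count {F : Finset (Finset Ω)} (K : ℕ) :
    ∃ F' : Finset (Finset Ω), F'.card ≤ (F.card + 1) ^ K ∧
      ∀ (Q : Finset Ω), Q.card ≤ K → (∀ e ∈ Q, ∃ Y ∈ F, e ∈ Y ∧ Y ⊆ Q) → Q ∈ F' := by
  classical
  refine ⟨(univ : Finset (Fin K → Option F)).image fun z =>
    univ.biUnion fun i => (z i).elim ∅ fun Y => (Y : Finset Ω), ?_, ?_⟩
  · refine card_image_le.trans ?_
    rw [card_univ, Fintype.card_fun, Fintype.card_fin, Fintype.card_option, Fintype.card_coe]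
  · intro Q hQ h
    choose! Y hY heY hYQ using h
    rw [mem_image]
    refine ⟨fun i => if h : (i : ℕ) < Q.card then
      some ⟨Y (Q.equivFin.symm ⟨i, h⟩ : Q), hY _ (Q.equivFin.symm ⟨i, h⟩).2⟩ else none,
      mem_univ _, ?_⟩
    ext S
    rw [mem_biUnion]
    constructor
    · rintro ⟨i, -, hi⟩
      by_cases h : (i : ℕ) < Q.card
      · simp only [dif_pos h, Option.elim_some] at hi
        exact hYQ _ (Q.equivFin.symm ⟨i, h⟩).2 hi
      · simp only [dif_neg h, Option.elim_none] at hi
        exact absurd hi (by simp)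
    · intro hS
      refine ⟨⟨Q.equivFin ⟨S, hS⟩, (Q.equivFin ⟨S, hS⟩).isLt.trans_le hQ⟩, mem_univ _, ?_⟩
      simp [heY S hS]

/-- Row EVCNT: few sets of free coordinates are reached by a gate. -/
theorem ev_count {ι : Type} {C : Circuit ι} {a : (Ω → Bool) → ι → Prop} {o m d f K : ℕ}
    {ρ : Restr Ω} (hρ : Good C a o m d ρ) {i : ℕ} (hi : i ≤ o) (hd : C.depth i ≤ d)
    (hf : (C i).wires ≤ f) {G : Ω → Bool} (hG : ∀ S b, ρ S = some b → G S = b) :
    ∃ F : Finset (Finset Ω), F.card ≤ evB K m f ∧
      ∀ Q : Finset Ω, (∀ S ∈ Q, ρ S = none) → (∀ S ∈ Q, G S = false) → Q.card ≤ K →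
        Ev C a K G Q i → Q ∈ F := by
  classical
  have hB : (2 ^ K * (m + 1) ^ (2 ^ K)) ^ (K + 1) ≤ evB K m f := by
    unfold evB
    refine Nat.pow_le_pow_left ?_ _
    refine Nat.mul_le_mul_right _ ?_
    exact Nat.le_mul_of_pos_right _ (Nat.succ_pos f)
  have hgi := hρ i hi hd
  unfold Ev
  rcases hg : C i with v | b | S | S | ⟨r, w, g⟩
  · exact ⟨∅, by simp, fun Q _ _ _ h => absurd h (by simp)⟩
  · exact ⟨∅, by simp, fun Q _ _ _ h => absurd h (by simp)⟩
  · have hv : ∀ j ∈ kids S, DT m (res ρ (gv C a j)) := by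
      intro j hj
      obtain ⟨b, hb, rfl⟩ := mem_kids.1 hj
      rw [depth_eq, hg] at hd
      have := le_sup (f := fun a : Fin i => C.depth a) hb
      simp only at hd this
      exact hρ b (by have := b.isLt; omega) (by omega)
    obtain ⟨F, hF, hF'⟩ := reach_count (b := False) hG hgi hv K
    exact ⟨F, hF.trans hB, fun Q h1 h2 h3 h4 => hF' Q h1 h2 h3 h4⟩
  · have hv : ∀ j ∈ kids S, DT m (res ρ (gv C a j)) := by
      intro j hj
      obtain ⟨b, hb, rfl⟩ := mem_kids.1 hj
      rw [depth_eq, hg] at hd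
      have := le_sup (f := fun a : Fin i => C.depth a) hb
      simp only at hd this
      exact hρ b (by have := b.isLt; omega) (by omega)
    obtain ⟨F, hF, hF'⟩ := reach_count (b := True) hG hgi hv K
    exact ⟨F, hF.trans hB, fun Q h1 h2 h3 h4 => hF' Q h1 h2 h3 h4⟩
  · have hv : ∀ l : Fin r, DT m (res ρ (gv C a (w l))) := by
      intro l
      rw [depth_eq, hg] at hd
      have := le_sup (f := fun l : Fin r => C.depth (w l)) (mem_univ l)
      simp only at hd this
      exact hρ (w l) (by have := (w l).isLt; omega) (by omega)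
    rw [hg] at hf
    have hr : r ≤ f := hf
    choose F hF hF' using fun l => full_count (hv l) K G
    obtain ⟨F', hF1, hF2⟩ := union_count (F := univ.biUnion F) K
    refine ⟨F', ?_, ?_⟩
    · refine hF1.trans ?_
      have h1 : (univ.biUnion F).card ≤ f * (m + 1) ^ (2 ^ K) := by
        refine (card_biUnion_le_card_mul _ _ _ fun l _ => hF l).trans ?_
        rw [card_univ, Fintype.card_fin]
        exact Nat.mul_le_mul_right _ hr
      have h2 : 1 ≤ (m + 1) ^ (2 ^ K) := Nat.one_le_pow _ _ (by omega)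
      have h3 : (univ.biUnion F).card + 1 ≤ 2 ^ K * (f + 1) * (m + 1) ^ (2 ^ K) := by
        calc _ ≤ f * (m + 1) ^ (2 ^ K) + (m + 1) ^ (2 ^ K) := Nat.add_le_add h1 h2
          _ = 1 * (f + 1) * (m + 1) ^ (2 ^ K) := by ring
          _ ≤ _ := by
            refine Nat.mul_le_mul_right _ (Nat.mul_le_mul_right _ ?_)
            exact Nat.one_le_two_pow
      unfold evB
      exact (Nat.pow_le_pow_left h3 K).trans
        (Nat.pow_le_pow_right (by omega) (Nat.le_succ K))
    · intro Q hQ _ hQK h
      refine hF2 Q hQK fun e he => ?_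
      obtain ⟨j, hj, hej⟩ := mem_biUnion.1 (h he)
      obtain ⟨b, hb, rfl⟩ := mem_kids.1 hj
      obtain ⟨l, -, rfl⟩ := mem_image.1 hb
      refine ⟨_, mem_biUnion.2 ⟨l, mem_univ _, hF' l (dep (gv C a (w l)) G Q) ?_ ?_⟩, hej,
        dep_subset _ _ _⟩
      · exact (card_le_card (dep_subset _ _ _)).trans hQK
      · rw [dep_res hG (fun S hS => hQ S (dep_subset _ _ _ hS))]
        exact dep_dep _ _ _

end CliqueCert
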