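import Pool.Agent.Lib.CERT.Base

/-! # PROJECT CERT, row GRAPH: cliques of the graph -/

open Finset

namespace CliqueCert

open SmallDepth CliqueDepth

variable {k T N l n : ℕ} {Λ : Type}

/-- Row GRAPH. -/
theorem grc_clique (hk : 2 ≤ k) (φ : Vtx k T N l ↪ Fin n) (R : Fin k → Fin k → Λ → Λ → Prop)
    (L : Slot k T N → Λ) (x : Crd k T N l → Bool) :
    ¬ (grc φ R L x).CliqueFree k ↔ ∃ w : Fin k → Fin T × Fin N,
      IsCl R (fun j => labu L x ((j, (w j).1), (w j).2)) ∧
        gip fun j => stu x ((j, (w j).1), (w j).2) := by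
  rw [SimpleGraph.not_cliqueFree_iff_top_isContained]
  have hex : ∀ i : Fin k, ∃ j : Fin k, i ≠ j := by
    intro i
    by_cases h : (i : ℕ) = 0
    · exact ⟨⟨1, by omega⟩, fun h' => by rw [h'] at h; simp at h⟩
    · exact ⟨⟨0, by omega⟩, fun h' => h (by rw [h'])⟩
  constructor
  · rintro ⟨f⟩
    have hadj : ∀ i j : Fin k, i ≠ j → (grc φ R L x).Adj (f i) (f j) := by
      intro i j hij
      exact f.toHom.map_adj hij
    have hv : ∀ i : Fin k, ∃ v : Vtx k T N l, φ v = f i := by
      intro i
      obtain ⟨j, hj⟩ := hex i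
      obtain ⟨a, b, h, -⟩ := hadj i j hj
      rcases h with h | h
      · exact ⟨a, h.1⟩
      · exact ⟨b, h.1⟩
    choose v hv using hv
    have hvv : ∀ i j : Fin k, i ≠ j → adjc R L x (v i) (v j) ∨ adjc R L x (v j) (v i) := by
      intro i j hij
      obtain ⟨a, b, h, h'⟩ := hadj i j hij
      rcases h with h | h
      · rw [← hv i, ← hv j] at h
        rw [φ.injective h.1, φ.injective h.2] at h'
        exact Or.inl h'
      · rw [← hv i, ← hv j] at h
        rw [φ.injective h.1, φ.injective h.2] at h'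
        exact Or.inr h'
    have hinj : Function.Injective fun i : Fin k => (v i).1.1.1 := by
      intro i j hij
      by_contra h
      rcases hvv i j h with h' | h'
      · exact absurd h'.1 (by simp only at hij; rw [hij]; exact lt_irrefl _)
      · exact absurd h'.1 (by simp only at hij; rw [hij]; exact lt_irrefl _)
    have hsur := Finite.injective_iff_surjective.1 hinj
    choose σ hσ using hsur
    simp only at hσ
    have hlt : ∀ i j : Fin k, i < j → adjc R L x (v (σ i)) (v (σ j)) := by
      intro i j hij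
      have hne : σ i ≠ σ j := by
        intro h
        have h1 := hσ i
        rw [h, hσ j] at h1
        exact absurd h1 (ne_of_gt hij)
      rcases hvv _ _ hne with h | h
      · exact h
      · have h1 := h.1
        rw [hσ i, hσ j] at h1
        exact absurd h1 (not_lt.2 hij.le)
    have hu : ∀ i, (v (σ i)).1 = ((i, (v (σ i)).1.1.2), (v (σ i)).1.2) := fun i =>
      Prod.ext (Prod.ext (hσ i) rfl) rfl
    have heq : ∀ i j : Fin k, (v (σ i)).2 = (v (σ j)).2 := by
      intro i j
      rcases lt_trichotomy i j with h | h | h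
      · exact (hlt i j h).2.2.1
      · rw [h]
      · exact ((hlt j i h).2.2.1).symm
    have hst : ∀ i : Fin k, (v (σ i)).2 i = stu x (v (σ i)).1 := by
      intro i
      obtain ⟨j, hj⟩ := hex i
      rcases lt_or_gt_of_ne hj with h | h
      · have h1 := (hlt i j h).2.2.2.1
        rwa [hσ i] at h1
      · have h1 := (hlt j i h).2.2.2.2.1
        rwa [hσ i] at h1
    refine ⟨fun i => ((v (σ i)).1.1.2, (v (σ i)).1.2), ?_, ?_⟩
    · intro i j hij
      have h1 := (hlt i j hij).2.1
      rw [hσ i, hσ j] at h1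
      simp only [← hu]
      exact h1
    · simp only [← hu]
      have h0 := (hlt ⟨0, by omega⟩ ⟨1, by omega⟩ (by simp [Fin.lt_def])).2.2.2.2.2
      have h1 : (fun j => stu x (v (σ j)).1) = (v (σ ⟨0, by omega⟩)).2 := by
        funext j
        rw [← hst j, heq j ⟨0, by omega⟩]
      rw [h1]
      exact h0
  · rintro ⟨w, hw, hg⟩
    have hlt : ∀ i j : Fin k, i < j →
        adjc R L x (((i, (w i).1), (w i).2), fun j => stu x ((j, (w j).1), (w j).2))
          (((j, (w j).1), (w j).2), fun j => stu x ((j, (w j).1), (w j).2)) := fun i j hij =>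
      ⟨hij, hw i j hij, rfl, rfl, rfl, hg⟩
    refine ⟨⟨⟨fun i => φ (((i, (w i).1), (w i).2), fun j => stu x ((j, (w j).1), (w j).2)), ?_⟩,
      ?_⟩⟩
    · intro i j hij
      have hij' : i ≠ j := hij
      rcases lt_or_gt_of_ne hij' with h | h
      · exact ⟨_, _, Or.inl ⟨rfl, rfl⟩, hlt i j h⟩
      · exact ⟨_, _, Or.inr ⟨rfl, rfl⟩, hlt j i h⟩
    · intro i j hij
      have h1 := φ.injective hij
      exact congrArg (fun a => a.1.1.1) h1

end CliqueCert
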