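import Pool.Agent.Lib.CERT.Graph

/-! # PROJECT CERT, row HYB: the planted instances -/

open Finset

namespace CliqueCert

open SmallDepth CliqueDepth

variable {k T N l n : ℕ} {Λ : Type}

private theorem lab_planted (L : Slot k T N → Λ) (κ : Fin T → Fin k → Λ) (G : Crd k T N l → Bool)
    (u : Fin k × Fin T → Fin N) (y : Fin k → Fin T × Fin l → Bool) (j : Fin k) (r : Fin T) :
    labu (plc L u κ univ) (asg G u y) ((j, r), u (j, r)) = κ r j := by
  unfold labu plc asg
  simp

private theorem stu_planted (G : Crd k T N l → Bool) (u : Fin k × Fin T → Fin N)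
    (y : Fin k → Fin T × Fin l → Bool) (j : Fin k) (r : Fin T) :
    stu (asg G u y) ((j, r), u (j, r)) = fun i => y j (r, i) := by
  unfold stu asg
  simp

/-- Row HYB (from GRAPH): the planted instances. -/
theorem grc_asg (hk : 2 ≤ k) (φ : Vtx k T N l ↪ Fin n) {R : Fin k → Fin k → Λ → Λ → Prop}
    (L : Slot k T N → Λ) {κ : Fin T → Fin k → Λ} (hκ : ∀ r, IsCl R (κ r))
    (G : Crd k T N l → Bool) (u : Fin k × Fin T → Fin N)
    (hex : ¬ Extc R (plc L u κ univ) G u) (y : Fin k → Fin T × Fin l → Bool) :
    (grc φ R (plc L u κ univ) (asg G u y)).CliqueFree k ↔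
      ∀ r, ¬ gip fun j i => y j (r, i) := by
  have hmain := grc_clique hk φ R (plc L u κ univ) (asg G u y)
  rw [← not_iff_not, hmain]
  push Not
  constructor
  · rintro ⟨w, hw, hg⟩
    by_cases hr : ∃ r, ∀ j, w j = (r, u (j, r))
    · obtain ⟨r, hr⟩ := hr
      refine ⟨r, ?_⟩
      have h1 : (fun j => stu (asg G u y) ((j, (w j).1), (w j).2)) = fun j i => y j (r, i) := by
        funext j
        rw [hr j]
        exact stu_planted G u y j r
      rwa [h1] at hg
    · exfalso
      refine hex ⟨w, hr, ?_⟩
      have h1 : (fun j => labu (plc L u κ univ) (asg G u y) ((j, (w j).1), (w j).2)) =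
          fun j => plc L u κ univ (((j, (w j).1), (w j).2),
            if (w j).2 = u (j, (w j).1) then true else G (((j, (w j).1), (w j).2), none)) := by
        funext j
        unfold labu asg
        rfl
      rwa [h1] at hw
  · rintro ⟨r, hr⟩
    refine ⟨fun j => (r, u (j, r)), ?_, ?_⟩
    · have h1 : (fun j => labu (plc L u κ univ) (asg G u y) ((j, r), u (j, r))) = κ r := by
        funext j
        exact lab_planted L κ G u y j r
      rw [h1]
      exact hκ r
    · have h1 : (fun j => stu (asg G u y) ((j, r), u (j, r))) = fun j i => y j (r, i) := by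
        funext j
        exact stu_planted G u y j r
      rw [h1]
      exact hr

end CliqueCert
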