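import Pool.Agent.Lib.CERT.Base
import Pool.Agent.Lib.CERT76.Cyl
import Pool.Agent.Lib.CERT76.Tools
import Pool.Agent.Lib.CERT76.Dir

/-! # Row INEQ -/

open Finset

namespace CliqueCert

open SmallDepth CliqueDepth

section parties

variable {k : ℕ} {I : Type}

set_option linter.unusedVariables false in
/-- Row INEQ: an inequality with integer coefficients. -/
theorem Cyl.ineq [Fintype I] [DecidableEq I] {F : (Fin k → I → Bool) → ℂ} {B : ℝ}
    (hB : 0 ≤ B) (h : Cyl F B) {σ : Type} (s : Finset σ)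
    (P : σ → (Fin k → I → Bool) → Prop) (hm : ∀ S ∈ s, ∃ j, Misses (P S) j) (w : σ → ℤ)
    (θ : ℤ) {R : ℕ} (hR : 1 ≤ R) (hw : ∀ y, |gsum s (fun S => P S y) w - θ| ≤ R) :
    Cyl (fun y => F y * indC (θ ≤ gsum s (fun S => P S y) w)) (8 * (1 + Real.log R) * B) := by
  classical
  obtain ⟨m, α, hα, hd⟩ := Pool.Agent.CERT.dirichlet R
  have h1 : (fun y => F y * indC (θ ≤ gsum s (fun S => P S y) w)) =
      fun y => ∑ t : Fin m, (α t * Pool.Agent.CERT.e (-((t : ℝ) * ((θ : ℝ) / m)))) *
        (F y * ∏ S ∈ s, (if P S y then Pool.Agent.CERT.e ((t : ℝ) * ((w S : ℝ) / m)) else 1)) := by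
    ext y
    have h2 := hd _ (hw y)
    have h3 : indC (θ ≤ gsum s (fun S => P S y) w) =
        if 0 ≤ gsum s (fun S => P S y) w - θ then 1 else 0 := by
      rw [tl_indC_eq]
      simp only [sub_nonneg]
    rw [h3, ← h2, mul_sum]
    refine sum_congr rfl fun t _ => ?_
    have h4 : Pool.Agent.CERT.e ((t : ℝ) * (((gsum s (fun S => P S y) w - θ : ℤ) : ℝ) / m)) =
        Pool.Agent.CERT.e (-((t : ℝ) * ((θ : ℝ) / m))) *
          ∏ S ∈ s, (if P S y then Pool.Agent.CERT.e ((t : ℝ) * ((w S : ℝ) / m)) else 1) := by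
      have h5 : ∏ S ∈ s, (if P S y then Pool.Agent.CERT.e ((t : ℝ) * ((w S : ℝ) / m)) else 1) =
          Pool.Agent.CERT.e (∑ S ∈ s, if P S y then (t : ℝ) * ((w S : ℝ) / m) else 0) := by
        rw [Pool.Agent.CERT.e_sum]
        refine prod_congr rfl fun S _ => ?_
        split_ifs
        · rfl
        · exact Pool.Agent.CERT.e_zero.symm
      rw [h5, ← Pool.Agent.CERT.e_add, tl_gsum_eq]
      congr 1
      push_cast
      have h6 : ∀ S ∈ s, (if P S y then (t : ℝ) * ((w S : ℝ) / m) else 0) =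
          (t : ℝ) * ((if P S y then (w S : ℝ) else 0) / m) := by
        intro S _
        split_ifs <;> simp
      rw [sum_congr rfl h6, ← mul_sum, ← sum_div]
      ring
    rw [h4]
    ring
  rw [h1]
  have h3 := cylA_sum (univ : Finset (Fin m))
    (fun t y => F y * ∏ S ∈ s,
      (if P S y then Pool.Agent.CERT.e ((t : ℝ) * ((w S : ℝ) / m)) else 1))
    (fun t => α t * Pool.Agent.CERT.e (-((t : ℝ) * ((θ : ℝ) / m)))) (B := B)
    (fun t _ => cylA_mul_prod h s _
      (by
        intro S _ y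
        beta_reduce
        split_ifs
        · exact (Pool.Agent.CERT.norm_e _).le
        · simp)
      (by
        intro S hS
        obtain ⟨j, hj⟩ := hm S hS
        refine ⟨j, fun y z hyz => ?_⟩
        beta_reduce
        rw [hj y z hyz]))
  refine cylA_mono h3 ?_
  simp_rw [norm_mul, Pool.Agent.CERT.norm_e, mul_one]
  exact mul_le_mul_of_nonneg_right hα hB

end parties

end CliqueCert
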