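import Pool.Agent.Lib.CERT.Base
import Pool.Agent.Lib.CERT76.Muroga
import Pool.Agent.Lib.CERT76.Tools

/-! # Row MUR -/

open Finset

namespace CliqueCert

open SmallDepth CliqueDepth

/-- Row MUR (Muroga): integer weights. -/
theorem muroga {Y : Type} [Finite Y] {m : ℕ} (h : Fin m → Y → Prop) (w : Fin m → ℝ) (θ : ℝ) :
    ∃ (w' : Fin m → ℤ) (θ' : ℤ), (∀ i, |w' i| ≤ (m + 1) ^ (m + 1)) ∧ |θ'| ≤ (m + 1) ^ (m + 1) ∧
      ∀ y, θ ≤ gsum univ (fun i => h i y) w ↔ θ' ≤ gsum univ (fun i => h i y) w' := by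
  classical
  have := Fintype.ofFinite Y
  obtain ⟨w', θ', h1, h2, h3⟩ := Pool.Agent.CERT.muroga
    ((univ : Finset Y).image fun y i => decide (h i y)) w θ
  rw [Fintype.card_fin] at h2 h3
  have h4 : (((m + 1).factorial : ℕ) : ℤ) ≤ (m + 1) ^ (m + 1) := by
    exact_mod_cast Nat.factorial_le_pow (m + 1)
  refine ⟨w', θ', fun i => (h2 i).trans h4, h3.trans h4, fun y => ?_⟩
  have h5 := h1 (fun i => decide (h i y)) (mem_image_of_mem _ (mem_univ y))
  simp only [decide_eq_true_eq] at h5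
  rw [tl_gsum_eq, tl_gsum_eq]
  exact h5

end CliqueCert
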