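import Pool.Agent.Lib.CERT.Basis
import Pool.Agent.Lib.CERT.Ineq
import Pool.Agent.Lib.CERT.Mur

/-! # Row INEQR -/

open Finset

namespace CliqueCert

open SmallDepth CliqueDepth

section parties

variable {k : ℕ} {I : Type}

private lemma log_bound (m : ℕ) :
    1 + Real.log (((m + 1) ^ (m + 2) : ℕ) : ℝ) ≤ ((m : ℝ) + 1) ^ 2 := by
  have h2 : Real.log (((m + 1) ^ (m + 2) : ℕ) : ℝ) = (m + 2) * Real.log (m + 1) := by
    push_cast
    rw [Real.log_pow]
    push_cast
    ring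
  have h3 : Real.log ((m : ℝ) + 1) ≤ m := by
    have := Real.log_le_sub_one_of_pos (show (0 : ℝ) < (m : ℝ) + 1 by positivity)
    linarith
  rw [h2]
  nlinarith [h3, (Nat.cast_nonneg m : (0 : ℝ) ≤ m)]

/-- Row INEQR (assembly): an inequality with real coefficients (from INEQ, MUR, MISS, BASIS). -/
theorem Cyl.ineq_real {T l : ℕ} {F : (Fin k → Fin T × Fin l → Bool) → ℂ} {B : ℝ}
    (hB : 0 ≤ B) (h : Cyl F B) {σ : Type} (s : Finset σ)
    (P : σ → (Fin k → Fin T × Fin l → Bool) → Prop)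
    (hP : ∀ S ∈ s, ∃ B : Finset (Fin k × Fin T), B.card < k ∧ DepOn B (P S)) (w : σ → ℝ)
    (θ : ℝ) : Cyl (fun y => F y * indC (θ ≤ gsum s (fun S => P S y) w))
      (8 * ((((k * T + 1) ^ k * 2 ^ (l * k) : ℕ) : ℝ) + 4) ^ 2 * B) := by
  classical
  obtain ⟨m, g, w₁, hm, hg, hw₁⟩ := basis s P hP w
  obtain ⟨w', θ', h1, h2, h3⟩ := muroga g w₁ θ
  have h4 : (fun y => F y * indC (θ ≤ gsum s (fun S => P S y) w)) =
      fun y => F y * indC (θ' ≤ gsum univ (fun i => g i y) w') := by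
    ext y
    rw [hw₁ y, tl_indC_congr (h3 y)]
  rw [h4]
  have h5 := Cyl.ineq hB h (univ : Finset (Fin m)) g
    (fun i _ => by
      obtain ⟨B', hB', hd⟩ := hg i
      exact hd.misses hB') w' θ' (R := (m + 1) ^ (m + 2)) (Nat.one_le_pow _ _ (Nat.succ_pos m))
    (fun y => by
      have h6 : |gsum univ (fun i => g i y) w'| ≤ (m : ℤ) * (m + 1) ^ (m + 1) := by
        rw [tl_gsum_eq]
        refine (abs_sum_le_sum_abs _ _).trans ?_
        have h7 : ∀ i ∈ (univ : Finset (Fin m)), |if g i y then w' i else 0| ≤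
            ((m : ℤ) + 1) ^ (m + 1) := by
          intro i _
          split_ifs
          · exact h1 i
          · rw [abs_zero]; positivity
        refine (sum_le_sum h7).trans (le_of_eq ?_)
        rw [sum_const, card_univ, nsmul_eq_mul, Fintype.card_fin]
      have h8 := abs_sub (gsum univ (fun i => g i y) w') θ'
      push_cast
      rw [pow_succ' _ (m + 1)]
      linarith)
  refine cylA_mono h5 ?_
  refine mul_le_mul_of_nonneg_right ?_ hB
  have h6 := log_bound m
  have h7 : ((m : ℝ) + 1) ^ 2 ≤ ((((k * T + 1) ^ k * 2 ^ (l * k) : ℕ) : ℝ) + 4) ^ 2 := by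
    have h8 : (m : ℝ) ≤ (((k * T + 1) ^ k * 2 ^ (l * k) : ℕ) : ℝ) := by exact_mod_cast hm
    have h9 : (0 : ℝ) ≤ m := Nat.cast_nonneg m
    gcongr
    linarith
  linarith

end parties

end CliqueCert
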