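import Pool.Agent.Lib.CERT.Base
import Pool.Agent.Lib.MP_678664_lc_AC.Eva

/-! # PROJECT CERT, row LAB: planted coordinates and labels -/

open Finset

namespace CliqueCert

open SmallDepth CliqueDepth

variable {k T N l n : ℕ} {Λ : Type}

/-- Row LAB, part 1. -/
theorem tch_mono (U V : Finset (Crd k T N l)) (h : U ⊆ V) : tch U ≤ tch V :=
  card_le_card (image_subset_image h)

/-- Row LAB, part 2. -/
theorem tch_union (U V : Finset (Crd k T N l)) : tch (U ∪ V) ≤ tch U + tch V := by
  unfold tch
  rw [image_union]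
  exact card_union_le _ _

/-- Row LAB, part 3. -/
theorem exists_Qc {u : Fin k × Fin T → Fin N} {Q : Finset (Crd k T N l)} (hQ : Q ⊆ Pc l u) :
    ∃ X, Q = Qc X u := by
  classical
  refine ⟨univ.filter fun e => ((e.1, u e.1), e.2) ∈ Q, ?_⟩
  unfold Qc
  ext e
  rw [mem_image]
  constructor
  · intro he
    have h1 := hQ he
    unfold Pc at h1
    obtain ⟨e', -, rfl⟩ := mem_image.1 h1
    exact ⟨e', mem_filter.2 ⟨mem_univ _, he⟩, rfl⟩
  · rintro ⟨e', he', rfl⟩
    exact (mem_filter.1 he').2

/-- Row LAB, part 4. -/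
theorem tch_Qc (X : Finset ((Fin k × Fin T) × Option (Fin l))) (u : Fin k × Fin T → Fin N) :
    tch (Qc X u) = (bls X).card := by
  unfold tch Qc bls
  rw [image_image]
  have h1 : (X.image ((fun e : Crd k T N l => e.1) ∘ fun e => ((e.1, u e.1), e.2))) =
      (X.image fun e => e.1).image fun j => (j, u j) := by
    rw [image_image]
    rfl
  rw [h1]
  exact card_image_of_injective _ fun a b hab => (Prod.mk.inj hab).1

/-- Row LAB, part 5. -/
theorem card_Qc (X : Finset ((Fin k × Fin T) × Option (Fin l))) (u : Fin k × Fin T → Fin N) :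
    (Qc X u).card ≤ (l + 1) * (bls X).card := by
  have h1 : X ⊆ bls X ×ˢ (univ : Finset (Option (Fin l))) := by
    intro e he
    refine mem_product.2 ⟨?_, mem_univ _⟩
    unfold bls
    exact mem_image_of_mem _ he
  unfold Qc
  refine card_image_le.trans ((card_le_card h1).trans ?_)
  rw [card_product, card_univ, Fintype.card_option, Fintype.card_fin, mul_comm]

/-- The graph depends only on the current labels and states. -/
theorem grc_congr_lab (φ : Vtx k T N l ↪ Fin n) (R : Fin k → Fin k → Λ → Λ → Prop)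
    {L L' : Slot k T N → Λ} {x : Crd k T N l → Bool} (h : labu L x = labu L' x) :
    grc φ R L x = grc φ R L' x := by
  ext v v'
  unfold grc adjc
  simp only [h]

/-- Labels of planted units which are not touched do not matter. -/
theorem labu_agree (L : Slot k T N → Λ) (u : Fin k × Fin T → Fin N) (κ : Fin T → Fin k → Λ)
    {G : Crd k T N l → Bool} (hG : ∀ S ∈ Pc l u, G S = false)
    (X : Finset ((Fin k × Fin T) × Option (Fin l))) {Z : Finset (Crd k T N l)} :
    labu (plc L u κ univ) (fl G (Qc X u) Z) = labu (plc L u κ (bls X)) (fl G (Qc X u) Z) := by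
  funext e
  unfold labu plc
  simp only [mem_univ, true_and]
  by_cases h1 : fl G (Qc X u) Z (e, none) = true ∧ e.2 = u e.1
  · have hJ : e.1 ∈ bls X := by
      by_contra hcon
      have h2 : (e, none) ∉ Qc X u := by
        intro h
        unfold Qc at h
        obtain ⟨e', he', h3⟩ := mem_image.1 h
        apply hcon
        unfold bls
        rw [mem_image]
        refine ⟨e', he', ?_⟩
        have := (Prod.mk.inj h3).1
        rw [← this]
      have h3 : (e, none) ∈ Pc l u := by
        unfold Pc
        rw [mem_image]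
        refine ⟨(e.1, none), mem_univ _, ?_⟩
        simp only
        rw [← h1.2]
      have h4 := h1.1
      unfold fl at h4
      rw [if_neg h2, hG _ h3] at h4
      exact absurd h4 (by simp)
    rw [if_pos h1, if_pos ⟨h1.1, hJ, h1.2⟩]
  · rw [if_neg h1, if_neg (fun h => h1 ⟨h.1, h.2.2⟩)]

/-- Row LAB, part 6. -/
theorem ev_planted (φ : Vtx k T N l ↪ Fin n) (R : Fin k → Fin k → Λ → Λ → Prop)
    (L : Slot k T N → Λ) (u : Fin k × Fin T → Fin N) (κ : Fin T → Fin k → Λ)
    {G : Crd k T N l → Bool} (hG : ∀ S ∈ Pc l u, G S = false)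
    (X : Finset ((Fin k × Fin T) × Option (Fin l))) {C : Circuit (Fin n × Fin n)} {K i : ℕ} :
    Ev C (inp φ R (plc L u κ univ)) K G (Qc X u) i ↔
      Ev C (inp φ R (plc L u κ (bls X))) K G (Qc X u) i := by
  refine ev_congr_a (fun Z _ => ?_) i
  funext e
  unfold inp
  rw [grc_congr_lab φ R (labu_agree L u κ hG X (Z := Z))]

end CliqueCert
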