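import Pool.Agent.Lib.CERT.Base

/-!
# PROJECT CERT: a restriction with many live units in every block
-/

open Finset

namespace CliqueCert

open SmallDepth CliqueDepth

section

variable {k T N l n : ℕ} {Λ : Type}

/-- The probability that no unit in `U` is live. -/
theorem Ex_dead (q p : ℝ) (U : Finset (Uni k T N)) :
    Ex (fun _ : Crd k T N l => q) (fun _ => p)
      (fun ρ => ind (∀ u ∈ U, ¬ ∀ c : Option (Fin l), ρ (u, c) = none)) =
      (1 - q ^ (l + 1)) ^ U.card := by
  induction U using Finset.induction_on with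
  | empty =>
    rw [card_empty, pow_zero, ← Ex_one (Ω := Crd k T N l) (q := fun _ => q) (p := fun _ => p)]
    exact Ex_congr fun ρ => ind_true (by simp)
  | insert u U hu ih =>
    set G : Restr (Crd k T N l) → ℝ := fun ρ =>
      ind (∀ u ∈ U, ¬ ∀ c : Option (Fin l), ρ (u, c) = none) with hG
    have h1 : ∀ ρ : Restr (Crd k T N l),
        ind (∀ v ∈ insert u U, ¬ ∀ c : Option (Fin l), ρ (v, c) = none) =
        G ρ + (-1) * (ind (∀ S ∈ (univ : Finset (Option (Fin l))).image fun c => (u, c),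
          ρ S = none) * G ρ) := by
      intro ρ
      rw [hG]
      by_cases h2 : ∀ c : Option (Fin l), ρ (u, c) = none
      · have h3 : ∀ S ∈ (univ : Finset (Option (Fin l))).image fun c => (u, c), ρ S = none := by
          intro S hS
          obtain ⟨c, -, rfl⟩ := mem_image.1 hS
          exact h2 c
        rw [ind_true h3, ind_false fun h4 => h4 u (mem_insert_self u U) h2]
        ring
      · have h3 : ¬ ∀ S ∈ (univ : Finset (Option (Fin l))).image fun c => (u, c),
            ρ S = none :=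
          fun h4 => h2 fun c => h4 _ (mem_image_of_mem _ (mem_univ c))
        rw [ind_false h3]
        have h5 : (∀ v ∈ insert u U, ¬ ∀ c : Option (Fin l), ρ (v, c) = none) ↔
            ∀ v ∈ U, ¬ ∀ c : Option (Fin l), ρ (v, c) = none := by
          rw [forall_mem_insert]
          exact ⟨fun h6 => h6.2, fun h6 => ⟨h2, h6⟩⟩
        rw [show ind (∀ v ∈ insert u U, ¬ ∀ c : Option (Fin l), ρ (v, c) = none) =
          ind (∀ v ∈ U, ¬ ∀ c : Option (Fin l), ρ (v, c) = none) from
          congrArg ind (propext h5)]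
        ring
    rw [Ex_congr h1, Ex_add, Ex_mul, Ex_free]
    · rw [ih, prod_const, card_insert_of_notMem hu]
      rw [card_image_of_injective _ fun a b hab => (Prod.mk.injEq .. ▸ hab).2]
      rw [card_univ, Fintype.card_option, Fintype.card_fin, pow_succ]
      ring
    · intro S hS ρ a
      obtain ⟨c, -, rfl⟩ := mem_image.1 hS
      rw [hG]
      refine congrArg ind (propext (forall₂_congr fun v hv => not_congr
        (forall_congr' fun c' => ?_)))
      rw [Function.update_of_ne]
      intro h2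
      rw [Prod.mk.injEq] at h2
      exact hu (h2.1 ▸ hv)

/-- Row LIVE: a restriction with many live units in every block. Divide every block into `N₁`
parts of `m₀` units; a unit is live with probability `q ^ (l + 1)`, independently (`Ex_free`), so
all parts have a live unit with probability at least `3 / 4`; and `F ρ ≤ 2 e` with probability at
least `1 / 2`. -/
theorem exists_live {q p : ℝ} (hq0 : 0 ≤ q) (hp : 0 ≤ p) (hqp : q + p ≤ 1) {N₁ m₀ : ℕ}
    (hN : N₁ * m₀ ≤ N)
    (h : ((k * T * N₁ : ℕ) : ℝ) * (1 - q ^ (l + 1)) ^ m₀ ≤ 1 / 4)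
    {F : Restr (Crd k T N l) → ℝ} (hF : ∀ ρ, 0 ≤ F ρ) {e : ℝ} (he : 0 < e)
    (hE : Ex (fun _ => q) (fun _ => p) F ≤ e) :
    ∃ ρ : Restr (Crd k T N l), (∀ b, N₁ ≤ (live ρ b).card) ∧ F ρ ≤ 2 * e := by
  have hlt : ∀ (i : Fin N₁) (s : Fin m₀), (i : ℕ) * m₀ + s < N := by
    intro i s
    have h1 : ((i : ℕ) + 1) * m₀ ≤ N₁ * m₀ := Nat.mul_le_mul_right _ i.2
    have h2 := s.2
    rw [add_mul, one_mul] at h1
    omega
  have hinj : ∀ (i i' : Fin N₁) (s s' : Fin m₀), (i : ℕ) * m₀ + s = (i' : ℕ) * m₀ + s' →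
      i = i' ∧ s = s' := by
    intro i i' s s' hh
    have hm : 0 < m₀ := s.pos
    have h1 : ((i : ℕ) * m₀ + s) / m₀ = i := by
      rw [mul_comm, Nat.mul_add_div hm, Nat.div_eq_of_lt s.2, add_zero]
    have h2 : ((i' : ℕ) * m₀ + s') / m₀ = i' := by
      rw [mul_comm, Nat.mul_add_div hm, Nat.div_eq_of_lt s'.2, add_zero]
    rw [hh, h2] at h1
    have h3 : i = i' := Fin.ext h1.symm
    subst h3
    exact ⟨rfl, Fin.ext (by omega)⟩
  set part : (Fin k × Fin T) × Fin N₁ → Finset (Uni k T N) := fun x =>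
    (univ : Finset (Fin m₀)).image fun s : Fin m₀ =>
      (x.1, (⟨(x.2 : ℕ) * m₀ + (s : ℕ), hlt x.2 s⟩ : Fin N)) with hpart
  have hcard : ∀ x, (part x).card = m₀ := by
    intro x
    rw [hpart]
    change ((univ : Finset (Fin m₀)).image fun s : Fin m₀ =>
      ((x.1, (⟨(x.2 : ℕ) * m₀ + (s : ℕ), hlt x.2 s⟩ : Fin N)) : Uni k T N)).card = m₀
    rw [card_image_of_injective, card_univ, Fintype.card_fin]
    intro s s' hs
    rw [Prod.mk.injEq, Fin.mk.injEq] at hs
    exact (hinj x.2 x.2 s s' hs.2).2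
  by_contra hno
  push Not at hno
  have hkey : ∀ ρ : Restr (Crd k T N l), 1 ≤
      ∑ x : (Fin k × Fin T) × Fin N₁,
        ind (∀ u ∈ part x, ¬ ∀ c : Option (Fin l), ρ (u, c) = none) + 1 / (2 * e) * F ρ := by
    intro ρ
    have hF' : 0 ≤ 1 / (2 * e) * F ρ := mul_nonneg (by positivity) (hF ρ)
    by_cases hall : ∀ b, N₁ ≤ (live ρ b).card
    · have h1 := hno ρ hall
      have h2 : 1 ≤ 1 / (2 * e) * F ρ := by
        rw [one_div, ← div_eq_inv_mul, le_div_iff₀ (by positivity)]
        linarith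
      have h3 : 0 ≤ ∑ x : (Fin k × Fin T) × Fin N₁,
          ind (∀ u ∈ part x, ¬ ∀ c : Option (Fin l), ρ (u, c) = none) :=
        sum_nonneg fun x _ => ind_nonneg _
      linarith
    · rw [not_forall] at hall
      obtain ⟨b, hb⟩ := hall
      have h1 : ∃ i : Fin N₁, ∀ u ∈ part (b, i), ¬ ∀ c : Option (Fin l), ρ (u, c) = none := by
        by_contra h2
        push Not at h2
        apply hb
        have h3 : ∀ i : Fin N₁, ∃ s : Fin m₀, ∀ c : Option (Fin l),
            ρ ((b, ⟨(i : ℕ) * m₀ + s, hlt i s⟩), c) = none := by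
          intro i
          obtain ⟨u, hu, h4⟩ := h2 i
          rw [hpart] at hu
          obtain ⟨s, -, rfl⟩ := mem_image.1 hu
          exact ⟨s, h4⟩
        choose s hs using h3
        have h5 : ((univ : Finset (Fin N₁)).image fun i : Fin N₁ =>
            (⟨(i : ℕ) * m₀ + (s i : ℕ), hlt i (s i)⟩ : Fin N)) ⊆ live ρ b := by
          intro w hw
          obtain ⟨i, -, rfl⟩ := mem_image.1 hw
          rw [live, mem_filter]
          exact ⟨mem_univ _, hs i⟩
        have h6 := card_le_card h5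
        rw [card_image_of_injective, card_univ, Fintype.card_fin] at h6
        · exact h6
        · intro i i' hi
          rw [Fin.mk.injEq] at hi
          exact (hinj i i' (s i) (s i') hi).1
      obtain ⟨i, hi⟩ := h1
      have h2 : ind (∀ u ∈ part (b, i), ¬ ∀ c : Option (Fin l), ρ (u, c) = none) ≤
          ∑ x : (Fin k × Fin T) × Fin N₁,
            ind (∀ u ∈ part x, ¬ ∀ c : Option (Fin l), ρ (u, c) = none) :=
        single_le_sum (f := fun x : (Fin k × Fin T) × Fin N₁ =>
          ind (∀ u ∈ part x, ¬ ∀ c : Option (Fin l), ρ (u, c) = none))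
          (fun x _ => ind_nonneg _) (mem_univ (b, i))
      rw [ind_true hi] at h2
      linarith
  have h1 := Ex_mono (q := fun _ : Crd k T N l => q) (p := fun _ => p) (fun _ => hq0)
    (fun _ => hp) (fun _ => hqp) hkey
  rw [Ex_const, Ex_add, Ex_mul, Ex_sum] at h1
  have h2 : ∑ x : (Fin k × Fin T) × Fin N₁, Ex (fun _ : Crd k T N l => q) (fun _ => p)
      (fun ρ => ind (∀ u ∈ part x, ¬ ∀ c : Option (Fin l), ρ (u, c) = none)) ≤ 1 / 4 := by
    rw [sum_congr rfl fun x _ => (Ex_dead (l := l) q p (part x)).trans (by rw [hcard x])]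
    rw [sum_const, card_univ, Fintype.card_prod, Fintype.card_prod, Fintype.card_fin,
      Fintype.card_fin, Fintype.card_fin, nsmul_eq_mul]
    exact h
  have h3 : 1 / (2 * e) * Ex (fun _ : Crd k T N l => q) (fun _ => p) F ≤ 1 / 2 := by
    calc 1 / (2 * e) * Ex (fun _ : Crd k T N l => q) (fun _ => p) F ≤ 1 / (2 * e) * e :=
          mul_le_mul_of_nonneg_left hE (by positivity)
      _ = 1 / 2 := by field_simp
  linarith

end

end CliqueCert
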