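import Pool.Agent.Lib.CERT.Base

/-! # PROJECT CERT, row LOC: an adjacency depends on two units -/

open Finset

namespace CliqueCert

open SmallDepth CliqueDepth

variable {k T N l n : ℕ} {Λ : Type}

private theorem adjc_congr {R : Fin k → Fin k → Λ → Λ → Prop} {L : Slot k T N → Λ}
    {x y : Crd k T N l → Bool} {a b : Vtx k T N l} (ha : ∀ c, x (a.1, c) = y (a.1, c))
    (hb : ∀ c, x (b.1, c) = y (b.1, c)) (h : adjc R L x a b) : adjc R L y a b := by
  unfold adjc labu stu at h ⊢
  simp only [← ha, ← hb]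
  exact h

/-- Row LOC, part 1: an adjacency depends on two units. -/
theorem inp_units (φ : Vtx k T N l ↪ Fin n) (R : Fin k → Fin k → Λ → Λ → Prop)
    (L : Slot k T N → Λ) (e : Fin n × Fin n) : ∃ U : Finset (Uni k T N), U.card ≤ 2 ∧
      ∀ x y : Crd k T N l → Bool, (∀ c : Crd k T N l, c.1 ∈ U → x c = y c) →
        (inp φ R L x e ↔ inp φ R L y e) := by
  by_cases h : ∃ a b, φ a = e.1 ∧ φ b = e.2
  · obtain ⟨a₀, b₀, ha, hb⟩ := h
    refine ⟨{a₀.1, b₀.1}, card_le_two, ?_⟩
    have key : ∀ x y : Crd k T N l → Bool,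
        (∀ S : Crd k T N l, S.1 ∈ ({a₀.1, b₀.1} : Finset (Uni k T N)) → x S = y S) →
        inp φ R L x e → inp φ R L y e := by
      rintro x y hxy ⟨a, b, h, h'⟩
      have h₁ : ∀ c, x (a₀.1, c) = y (a₀.1, c) := fun c => hxy _ (by simp)
      have h₂ : ∀ c, x (b₀.1, c) = y (b₀.1, c) := fun c => hxy _ (by simp)
      refine ⟨a, b, h, ?_⟩
      rcases h with h | h
      · have e1 : a = a₀ := φ.injective (h.1.trans ha.symm)
        have e2 : b = b₀ := φ.injective (h.2.trans hb.symm)
        subst e1 e2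
        exact adjc_congr h₁ h₂ h'
      · have e1 : b = a₀ := φ.injective (h.1.trans ha.symm)
        have e2 : a = b₀ := φ.injective (h.2.trans hb.symm)
        subst e1 e2
        exact adjc_congr h₂ h₁ h'
    exact fun x y hxy => ⟨key x y hxy, key y x fun S hS => (hxy S hS).symm⟩
  · refine ⟨∅, by simp, fun x y _ => ?_⟩
    have key : ∀ x : Crd k T N l → Bool, ¬ inp φ R L x e := by
      rintro x ⟨a, b, h' | h', -⟩
      · exact h ⟨a, b, h'.1, h'.2⟩
      · exact h ⟨b, a, h'.1, h'.2⟩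
    exact iff_of_false (key x) (key y)

/-- Row LOC, part 2. -/
theorem inp_loc (φ : Vtx k T N l ↪ Fin n) (R : Fin k → Fin k → Λ → Λ → Prop)
    (L : Slot k T N → Λ) : IsLoc (2 * (l + 1)) (inp φ R L) := by
  intro e
  obtain ⟨U, hU, hU'⟩ := inp_units φ R L e
  have h1 : DT (U ×ˢ (univ : Finset (Option (Fin l)))).card (fun x => inp φ R L x e) := by
    refine DT.of_junta _ _ fun x y hxy => hU' x y fun S hS => hxy S ?_
    exact mem_product.2 ⟨hS, mem_univ _⟩
  refine h1.mono ?_
  rw [card_product, card_univ, Fintype.card_option, Fintype.card_fin]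
  exact Nat.mul_le_mul_right _ hU

/-- Row LOC, part 3. -/
theorem inp_tch (φ : Vtx k T N l ↪ Fin n) (R : Fin k → Fin k → Λ → Λ → Prop)
    (L : Slot k T N → Λ) (e : Fin n × Fin n) (G : Crd k T N l → Bool)
    (P : Finset (Crd k T N l)) : tch (dep (fun x => inp φ R L x e) G P) ≤ 2 := by
  obtain ⟨U, hU, hU'⟩ := inp_units φ R L e
  have h1 : dep (fun x => inp φ R L x e) G P ⊆ U ×ˢ (univ : Finset (Option (Fin l))) := by
    refine dep_subset_of (fun x y hxy => hU' x y fun S hS => hxy S ?_) G P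
    exact mem_product.2 ⟨hS, mem_univ _⟩
  unfold tch
  refine (card_le_card (image_subset_iff.2 fun S hS => ?_)).trans hU
  exact (mem_product.1 (h1 hS)).1

end CliqueCert
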