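import Mathlib

/-!
# Project CERT, row NUM: the choice of the parameters (helper15)
-/

set_option autoImplicit false

open Filter Topology

namespace CliqueCert

namespace Num

theorem ev_pow {a : ℝ} (ha : 0 < a) (c : ℝ) : ∀ᶠ x : ℝ in atTop, c ≤ x ^ a :=
  (tendsto_rpow_atTop ha).eventually_ge_atTop c

/-- `4 x ≤ exp (x ^ a)` -/
theorem ev_exp {a : ℝ} (ha : 0 < a) : ∀ᶠ x : ℝ in atTop, 4 * x ≤ Real.exp (x ^ a) := by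
  have h := tendsto_rpow_mul_exp_neg_mul_atTop_nhds_zero (1 / a) 1 one_pos
  have h2 := (h.comp (tendsto_rpow_atTop ha)).eventually (gt_mem_nhds (show (0 : ℝ) < 1 / 4 by
    norm_num))
  filter_upwards [h2, eventually_gt_atTop 0] with x hx h0
  simp only [Function.comp_apply] at hx
  have e1 : (x ^ a) ^ (1 / a) = x := by
    rw [← Real.rpow_mul h0.le, mul_one_div_cancel ha.ne', Real.rpow_one]
  rw [e1, neg_one_mul, Real.exp_neg, ← div_eq_mul_inv,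
    div_lt_div_iff₀ (Real.exp_pos _) (by norm_num)] at hx
  linarith

/-- `1 + c log₂ x < 2 x ^ a` -/
theorem ev_log {a : ℝ} (ha : 0 < a) (c : ℝ) (hc : 0 ≤ c) :
    ∀ᶠ x : ℝ in atTop, 1 + c * Real.logb 2 x < 2 * x ^ a := by
  have hl : 0 < Real.log 2 := Real.log_pos (by norm_num)
  have h := (isLittleO_log_rpow_atTop ha).bound (c := Real.log 2 / (c + 1)) (by positivity)
  filter_upwards [h, eventually_gt_atTop 1, ev_pow ha 2] with x hx h1 h2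
  rw [Real.norm_of_nonneg (Real.log_nonneg h1.le),
    Real.norm_of_nonneg (Real.rpow_nonneg (by linarith) a)] at hx
  have h3 : Real.logb 2 x ≤ x ^ a / (c + 1) := by
    rw [Real.logb, div_le_iff₀ hl]
    calc Real.log x ≤ Real.log 2 / (c + 1) * x ^ a := hx
      _ = x ^ a / (c + 1) * Real.log 2 := by ring
  have h4 : c * Real.logb 2 x ≤ x ^ a := by
    calc c * Real.logb 2 x ≤ c * (x ^ a / (c + 1)) := mul_le_mul_of_nonneg_left h3 hc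
      _ = x ^ a * (c / (c + 1)) := by ring
      _ ≤ x ^ a * 1 := by
          apply mul_le_mul_of_nonneg_left _ (by linarith)
          rw [div_le_one (by positivity)]
          linarith
      _ = x ^ a := mul_one _
  linarith

/-- the size of `N₁` -/
theorem N1_le {x γ δ μ ν : ℝ} (hx : 1 ≤ x) (hν : ν = γ - 3 * δ - μ) (hν0 : 0 ≤ ν) {n b T m₀ : ℕ}
    (hn : (n : ℝ) = x) {C0 : ℕ} (hC0 : 1 ≤ C0) (hT0 : 0 < T)
    (hT : (T : ℝ) ≤ 2 * x ^ (1 - γ + 2 * δ)) (hm₀ : 0 < m₀)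
    (hm : (m₀ : ℝ) ≤ 2 * x ^ μ) (hb : b = C0 * T * m₀) (h8 : 8 * (C0 : ℝ) ≤ x ^ δ) :
    x ^ ν ≤ ((n / b : ℕ) : ℝ) := by
  have x0 : 0 < x := by linarith
  have hb0 : 0 < b := by rw [hb]; positivity
  have h1 : n < b * (n / b + 1) := Nat.lt_mul_div_succ n hb0
  have h2 : x < (b : ℝ) * ((n / b : ℕ) + 1) := by
    rw [← hn]; exact_mod_cast h1
  have hC : (0 : ℝ) < C0 := by exact_mod_cast hC0
  have h3 : (b : ℝ) ≤ C0 * (2 * x ^ (1 - γ + 2 * δ)) * (2 * x ^ μ) := by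
    rw [hb]; push_cast; gcongr
  have h4 : (b : ℝ) * (2 * x ^ ν) ≤ x := by
    calc (b : ℝ) * (2 * x ^ ν)
        ≤ C0 * (2 * x ^ (1 - γ + 2 * δ)) * (2 * x ^ μ) * (2 * x ^ ν) :=
          mul_le_mul_of_nonneg_right h3 (by positivity)
      _ = 8 * C0 * (x ^ (1 - γ + 2 * δ) * x ^ μ * x ^ ν) := by ring
      _ ≤ x ^ δ * (x ^ (1 - γ + 2 * δ) * x ^ μ * x ^ ν) :=
          mul_le_mul_of_nonneg_right h8 (by positivity)
      _ = x := by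
          rw [← Real.rpow_add x0, ← Real.rpow_add x0, ← Real.rpow_add x0, hν]
          have : δ + (1 - γ + 2 * δ + μ + (γ - 3 * δ - μ)) = 1 := by ring
          rw [this, Real.rpow_one]
  have hb1 : (0 : ℝ) < b := by exact_mod_cast hb0
  have h5 : 2 * x ^ ν < ((n / b : ℕ) : ℝ) + 1 := by
    have := h4.trans_lt h2
    exact lt_of_mul_lt_mul_left this hb1.le
  have h6 : 1 ≤ x ^ ν := Real.one_le_rpow hx hν0
  linarith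

/-- (b) -/
theorem part_b {x α : ℝ} (hx : 1 ≤ x) {d l m₀ : ℕ} {K : ℝ} (hK : K ≤ x)
    (hα : 0 < α) (hm : x ^ ((2 * (d * (l + 1)) + 1 : ℝ) * α) ≤ m₀)
    (h5 : 4 * x ≤ Real.exp (x ^ α)) :
    K * (1 - ((x ^ (-(2 * α))) ^ d) ^ (l + 1)) ^ m₀ ≤ 1 / 4 := by
  have x0 : 0 < x := by linarith
  set y : ℝ := ((x ^ (-(2 * α))) ^ d) ^ (l + 1) with hy
  have hy1 : y = x ^ (-(2 * (d * (l + 1)) * α : ℝ)) := by
    rw [hy, ← pow_mul, ← Real.rpow_natCast, ← Real.rpow_mul x0.le]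
    congr 1
    push_cast
    ring
  have hy0 : 0 ≤ y := by rw [hy1]; positivity
  have hyle : y ≤ 1 := by
    rw [hy1]
    apply Real.rpow_le_one_of_one_le_of_nonpos hx
    have : (0 : ℝ) ≤ 2 * (d * (l + 1)) * α := by positivity
    linarith
  have h1 : (1 - y) ^ m₀ ≤ Real.exp (-(x ^ α)) := by
    calc (1 - y) ^ m₀ ≤ Real.exp (-y) ^ m₀ :=
          pow_le_pow_left₀ (by linarith) (Real.one_sub_le_exp_neg y) _
      _ = Real.exp (m₀ * (-y)) := by rw [← Real.exp_nat_mul]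
      _ ≤ Real.exp (-(x ^ α)) := by
          apply Real.exp_le_exp.mpr
          have h2 : x ^ α ≤ m₀ * y := by
            calc x ^ α = x ^ ((2 * (d * (l + 1)) + 1 : ℝ) * α) * y := by
                  rw [hy1, ← Real.rpow_add x0]; congr 1; ring
              _ ≤ m₀ * y := mul_le_mul_of_nonneg_right hm hy0
          linarith
  have h3 : (0 : ℝ) ≤ (1 - y) ^ m₀ := pow_nonneg (by linarith) _
  calc K * (1 - y) ^ m₀ ≤ x * Real.exp (-(x ^ α)) :=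
        mul_le_mul hK h1 h3 x0.le
    _ ≤ 1 / 4 := by
        rw [Real.exp_neg, ← div_eq_mul_inv, div_le_div_iff₀ (Real.exp_pos _) (by norm_num)]
        linarith

/-- (e) -/
theorem part_e {x γ δ : ℝ} (hx : 1 ≤ x) {k l t A T : ℕ} (hkT : ((k * T : ℕ) : ℝ) ≤ x)
    (ht : (t : ℝ) ≤ x ^ (1 - γ + δ)) (hA : (A : ℝ) ≤ 2 ^ (x ^ (1 - γ + δ)))
    (hT : x ^ (1 - γ + 2 * δ) ≤ T) (h12 : 8 * ((2 : ℝ) ^ k * 2 ^ (l * k) + 4) ^ 2 ≤ x)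
    (h13 : 1 + (2 * k + 1 : ℝ) * Real.logb 2 x < 2 * x ^ δ) :
    (A : ℝ) * (8 * ((((k * T + 1) ^ k * 2 ^ (l * k) : ℕ) : ℝ) + 4) ^ 2) ^ t < 4 ^ T := by
  have x0 : 0 < x := by linarith
  have hxk : 1 ≤ x ^ k := one_le_pow₀ hx
  have h1 : (((k * T + 1) ^ k * 2 ^ (l * k) : ℕ) : ℝ) + 4 ≤
      ((2 : ℝ) ^ k * 2 ^ (l * k) + 4) * x ^ k := by
    have h2 : ((k * T + 1 : ℕ) : ℝ) ≤ 2 * x := by push_cast at hkT ⊢; linarith
    have h3 : ((k * T + 1 : ℕ) : ℝ) ^ k ≤ (2 * x) ^ k :=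
      pow_le_pow_left₀ (Nat.cast_nonneg _) h2 k
    have h4 : (((k * T + 1) ^ k * 2 ^ (l * k) : ℕ) : ℝ) =
        ((k * T + 1 : ℕ) : ℝ) ^ k * 2 ^ (l * k) := by push_cast; ring
    rw [h4, add_mul]
    have h5 : ((k * T + 1 : ℕ) : ℝ) ^ k * 2 ^ (l * k) ≤ (2 : ℝ) ^ k * 2 ^ (l * k) * x ^ k := by
      calc ((k * T + 1 : ℕ) : ℝ) ^ k * 2 ^ (l * k) ≤ (2 * x) ^ k * 2 ^ (l * k) := by gcongr
        _ = _ := by rw [mul_pow]; ring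
    linarith
  have h2 : 8 * ((((k * T + 1) ^ k * 2 ^ (l * k) : ℕ) : ℝ) + 4) ^ 2 ≤ x ^ (2 * k + 1) := by
    calc 8 * ((((k * T + 1) ^ k * 2 ^ (l * k) : ℕ) : ℝ) + 4) ^ 2
        ≤ 8 * (((2 : ℝ) ^ k * 2 ^ (l * k) + 4) * x ^ k) ^ 2 := by
          gcongr
      _ = (8 * ((2 : ℝ) ^ k * 2 ^ (l * k) + 4) ^ 2) * x ^ (2 * k) := by
          rw [mul_pow, ← pow_mul, mul_comm k 2]; ring
      _ ≤ x * x ^ (2 * k) := mul_le_mul_of_nonneg_right h12 (by positivity)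
      _ = x ^ (2 * k + 1) := by rw [pow_succ]; ring
  have hlx : x = 2 ^ Real.logb 2 x := (Real.rpow_logb (by norm_num) (by norm_num) x0).symm
  have hl0 : 0 ≤ Real.logb 2 x := Real.logb_nonneg (by norm_num) hx
  have h3 : (x ^ (2 * k + 1)) ^ t ≤ (2 : ℝ) ^ ((2 * k + 1 : ℝ) * Real.logb 2 x * x ^ (1 - γ + δ)) := by
    calc (x ^ (2 * k + 1)) ^ t = ((2 : ℝ) ^ Real.logb 2 x) ^ ((2 * k + 1) * t) := by
          rw [← hlx, ← pow_mul]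
      _ = (2 : ℝ) ^ (Real.logb 2 x * ((2 * k + 1) * t : ℕ)) := by
          rw [← Real.rpow_natCast, ← Real.rpow_mul (by norm_num)]
      _ ≤ _ := by
          apply Real.rpow_le_rpow_of_exponent_le (by norm_num)
          push_cast
          calc Real.logb 2 x * ((2 * k + 1) * t) = ((2 * k + 1 : ℝ) * Real.logb 2 x) * t := by ring
            _ ≤ ((2 * k + 1 : ℝ) * Real.logb 2 x) * x ^ (1 - γ + δ) :=
                mul_le_mul_of_nonneg_left ht (by positivity)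
  have h4 : (0 : ℝ) ≤ 8 * ((((k * T + 1) ^ k * 2 ^ (l * k) : ℕ) : ℝ) + 4) ^ 2 := by positivity
  calc (A : ℝ) * (8 * ((((k * T + 1) ^ k * 2 ^ (l * k) : ℕ) : ℝ) + 4) ^ 2) ^ t
      ≤ 2 ^ (x ^ (1 - γ + δ)) *
        (2 : ℝ) ^ ((2 * k + 1 : ℝ) * Real.logb 2 x * x ^ (1 - γ + δ)) :=
        mul_le_mul hA ((pow_le_pow_left₀ h4 h2 t).trans h3) (pow_nonneg h4 t)
          (Real.rpow_nonneg (by norm_num) _)
    _ = (2 : ℝ) ^ ((1 + (2 * k + 1 : ℝ) * Real.logb 2 x) * x ^ (1 - γ + δ)) := by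
        rw [← Real.rpow_add (by norm_num)]; congr 1; ring
    _ < (2 : ℝ) ^ (2 * (T : ℝ)) := by
        apply Real.rpow_lt_rpow_of_exponent_lt (by norm_num)
        calc (1 + (2 * k + 1 : ℝ) * Real.logb 2 x) * x ^ (1 - γ + δ)
            < 2 * x ^ δ * x ^ (1 - γ + δ) :=
              mul_lt_mul_of_pos_right h13 (by positivity)
          _ = 2 * x ^ (1 - γ + 2 * δ) := by
              rw [mul_assoc, ← Real.rpow_add x0]; congr 2; ring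
          _ ≤ 2 * T := by linarith
    _ = 4 ^ T := by
        rw [Real.rpow_mul (by norm_num)]
        norm_num

/-- (d), the first term -/
theorem part_d1 {x e₁ P TN : ℝ} (hx : 1 ≤ x) {k : ℕ} (hP : (8 * x ^ k) ^ 2 ≤ P)
    (he : e₁ ≤ 1 / 2) (hTN0 : 0 ≤ TN) (hTN : TN ≤ x) : TN ^ k * P ^ e₁ / P ≤ 1 / 8 := by
  have x0 : 0 < x := by linarith
  have hxk : 1 ≤ x ^ k := one_le_pow₀ hx
  have hP1 : 1 ≤ P := by nlinarith
  have P0 : 0 < P := by linarith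
  have h1 : P ^ e₁ ≤ P ^ (1 / 2 : ℝ) := Real.rpow_le_rpow_of_exponent_le hP1 he
  have h2 : 8 * x ^ k ≤ P ^ (1 / 2 : ℝ) := by
    rw [← Real.sqrt_eq_rpow]
    exact Real.le_sqrt_of_sq_le hP
  have h3 : P ^ (1 / 2 : ℝ) * P ^ (1 / 2 : ℝ) = P := by
    rw [← Real.rpow_add P0]; norm_num
  have h4 : 0 ≤ P ^ (1 / 2 : ℝ) := Real.rpow_nonneg P0.le _
  have h5 : TN ^ k ≤ x ^ k := pow_le_pow_left₀ hTN0 hTN k
  rw [div_le_div_iff₀ P0 (by norm_num)]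
  calc TN ^ k * P ^ e₁ * 8 ≤ x ^ k * P ^ (1 / 2 : ℝ) * 8 := by gcongr
    _ = (8 * x ^ k) * P ^ (1 / 2 : ℝ) := by ring
    _ ≤ P ^ (1 / 2 : ℝ) * P ^ (1 / 2 : ℝ) := mul_le_mul_of_nonneg_right h2 h4
    _ = 1 * P := by rw [h3, one_mul]

/-- (d), the factor in front -/
theorem part_d0 {x ε P : ℝ} (hx : 1 ≤ x) {k W : ℕ} (hk : 0 < k) (hW : (2 * k + 1) * (2 * W) ≤ 2 * k ^ 2)
    (hε : 0 < ε) (hP1 : 1 ≤ P) (hP : P ≤ x ^ (2 * k + 1)) :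
    (P ^ (ε / (16 * k ^ 2))) ^ (2 * W) ≤ x ^ (ε / 8) := by
  have x0 : 0 < x := by linarith
  have P0 : 0 < P := by linarith
  have hk0 : (0 : ℝ) < k := by exact_mod_cast hk
  calc (P ^ (ε / (16 * k ^ 2))) ^ (2 * W)
      ≤ ((x ^ (2 * k + 1)) ^ (ε / (16 * k ^ 2))) ^ (2 * W) := by
        apply pow_le_pow_left₀ (Real.rpow_nonneg P0.le _)
        exact Real.rpow_le_rpow P0.le hP (by positivity)
    _ = x ^ (((2 * k + 1) * (2 * W) : ℝ) * (ε / (16 * k ^ 2))) := by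
        rw [← Real.rpow_natCast x (2 * k + 1), ← Real.rpow_mul x0.le, ← Real.rpow_natCast,
          ← Real.rpow_mul x0.le]
        congr 1
        push_cast
        ring
    _ ≤ x ^ (ε / 8) := by
        apply Real.rpow_le_rpow_of_exponent_le hx
        have h1 : ((2 * k + 1) * (2 * W) : ℝ) ≤ 2 * k ^ 2 := by exact_mod_cast hW
        calc ((2 * k + 1) * (2 * W) : ℝ) * (ε / (16 * k ^ 2)) ≤ 2 * k ^ 2 * (ε / (16 * k ^ 2)) :=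
              mul_le_mul_of_nonneg_right h1 (by positivity)
          _ = ε / 8 := by field_simp; ring

/-- (d), the second term -/
theorem part_d2 {x γ ε δ μ ν s Q F C₂ : ℝ} (hx : 1 ≤ x) {W : ℕ} {N₁ : ℝ}
    (hν : ν = γ - 3 * δ - μ) (hs : s ≤ x ^ (γ * (W + 1 : ℕ) - ε)) (hQ0 : 0 ≤ Q)
    (hQ : Q ≤ x ^ (ε / 8)) (hF0 : 0 ≤ F) (hF : F ≤ x ^ (3 * δ)) (hN : x ^ ν ≤ N₁)
    (hmu : (W + 1 : ℝ) * (6 * δ + μ) ≤ ε / 4) (hC0 : 0 ≤ C₂)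
    (h10 : 4 * C₂ ≤ x ^ (5 * ε / 8)) :
    s * (Q * (C₂ * (F / N₁) ^ (W + 1))) ≤ 1 / 4 := by
  have x0 : 0 < x := by linarith
  have hN0 : 0 < N₁ := lt_of_lt_of_le (by positivity) hN
  have h1 : (F / N₁) ^ (W + 1) ≤ x ^ ((3 * δ - ν) * (W + 1 : ℕ)) := by
    rw [Real.rpow_mul x0.le, Real.rpow_natCast, Real.rpow_sub x0]
    apply pow_le_pow_left₀ (by positivity)
    gcongr
  calc s * (Q * (C₂ * (F / N₁) ^ (W + 1)))
      ≤ x ^ (γ * (W + 1 : ℕ) - ε) * (x ^ (ε / 8) * (C₂ * x ^ ((3 * δ - ν) * (W + 1 : ℕ)))) := by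
        gcongr
    _ = C₂ * x ^ (γ * (W + 1 : ℕ) - ε + (ε / 8 + (3 * δ - ν) * (W + 1 : ℕ))) := by
        rw [Real.rpow_add x0, Real.rpow_add x0]; ring
    _ ≤ C₂ * x ^ (-(5 * ε / 8)) := by
        apply mul_le_mul_of_nonneg_left _ hC0
        apply Real.rpow_le_rpow_of_exponent_le hx
        rw [hν]
        push_cast
        nlinarith
    _ ≤ 1 / 4 := by
        rw [Real.rpow_neg x0.le, ← div_eq_mul_inv, div_le_div_iff₀ (by positivity) (by norm_num)]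
        linarith

/-- (d), the third term -/
theorem part_d3 {x γ ε s Q α : ℝ} (hx : 1 ≤ x) {k W l m : ℕ} {kT1 : ℝ} (hW : 2 * W < k)
    (hγ1 : γ ≤ 1) (hε : 0 < ε) (hε1 : ε ≤ 1)
    (hs0 : 0 ≤ s) (hs : s ≤ x ^ (γ * (W + 1 : ℕ) - ε)) (hQ0 : 0 ≤ Q)
    (hQ : Q ≤ x ^ (ε / 8)) (hk0 : 0 ≤ kT1) (hkT : kT1 ≤ 2 * x) (hm : (8 * k + 8 : ℝ) ≤ α * m)
    (h11 : 4 * (8 * 2 ^ (2 * W) * 2 ^ (2 * W * (l + 1))) ≤ x) :
    s * (Q * (kT1 ^ (2 * W) * 2 ^ (2 * W * (l + 1)) * (2 * ((s + 1) * (2 / (x ^ α) ^ m))))) ≤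
      1 / 4 := by
  have x0 : 0 < x := by linarith
  have hs' : s ≤ x ^ (W + 1) := by
    refine hs.trans ?_
    rw [← Real.rpow_natCast]
    apply Real.rpow_le_rpow_of_exponent_le hx
    have : (0 : ℝ) ≤ ((W + 1 : ℕ) : ℝ) := Nat.cast_nonneg _
    nlinarith
  have hQ' : Q ≤ x := by
    refine hQ.trans ?_
    calc x ^ (ε / 8) ≤ x ^ (1 : ℝ) := Real.rpow_le_rpow_of_exponent_le hx (by linarith)
      _ = x := Real.rpow_one x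
  have hxW : 1 ≤ x ^ (W + 1) := one_le_pow₀ hx
  have hs1 : s + 1 ≤ 2 * x ^ (W + 1) := by linarith
  have hΛ : x ^ (8 * k + 8) ≤ (x ^ α) ^ m := by
    rw [← Real.rpow_natCast, ← Real.rpow_natCast, ← Real.rpow_mul x0.le]
    apply Real.rpow_le_rpow_of_exponent_le hx
    push_cast
    exact hm
  have hΛ0 : (0 : ℝ) < x ^ (8 * k + 8) := by positivity
  have h2 : 2 / (x ^ α) ^ m ≤ 2 / x ^ (8 * k + 8) := by gcongr
  have h3 : (0 : ℝ) ≤ 2 / (x ^ α) ^ m := by positivity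
  calc s * (Q * (kT1 ^ (2 * W) * 2 ^ (2 * W * (l + 1)) * (2 * ((s + 1) * (2 / (x ^ α) ^ m)))))
      ≤ x ^ (W + 1) * (x * ((2 * x) ^ (2 * W) * 2 ^ (2 * W * (l + 1)) *
        (2 * ((2 * x ^ (W + 1)) * (2 / x ^ (8 * k + 8)))))) := by gcongr
    _ = (8 * 2 ^ (2 * W) * 2 ^ (2 * W * (l + 1))) * x ^ (4 * W + 3) / x ^ (8 * k + 8) := by
        rw [mul_pow, show 4 * W + 3 = (W + 1) + 1 + 2 * W + (W + 1) by ring, pow_add x (_ + _ + _),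
          pow_add x (_ + _), pow_add x (W + 1) 1, pow_one]
        ring
    _ ≤ 1 / 4 := by
        rw [div_le_div_iff₀ hΛ0 (by norm_num)]
        calc (8 * 2 ^ (2 * W) * 2 ^ (2 * W * (l + 1))) * x ^ (4 * W + 3) * 4
            = (4 * (8 * 2 ^ (2 * W) * 2 ^ (2 * W * (l + 1)))) * x ^ (4 * W + 3) := by ring
          _ ≤ x * x ^ (4 * W + 3) := mul_le_mul_of_nonneg_right h11 (by positivity)
          _ = x ^ (4 * W + 4) := by rw [pow_succ x (4 * W + 3)]; ring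
          _ ≤ x ^ (8 * k + 8) := pow_le_pow_right₀ hx (by omega)
          _ = 1 * x ^ (8 * k + 8) := (one_mul _).symm

theorem e1_le {k : ℕ} {ε : ℝ} (hk : 5 ≤ k) (hε1 : ε ≤ 1) : ε / (16 * k ^ 2) ≤ 1 / 2 := by
  have hkr : (5 : ℝ) ≤ k := by exact_mod_cast hk
  rw [div_le_div_iff₀ (by positivity) (by norm_num)]
  nlinarith

theorem wk {k W : ℕ} (h : 2 * W < k) : (2 * k + 1) * (2 * W) ≤ 2 * k ^ 2 := by
  obtain ⟨j, rfl⟩ : ∃ j, k = j + 1 := ⟨k - 1, by omega⟩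
  have h1 : (2 * (j + 1) + 1) * (2 * W) ≤ (2 * (j + 1) + 1) * j := Nat.mul_le_mul_left _ (by omega)
  nlinarith

theorem exists_D1 {x : ℝ} {n k B D₀ : ℕ} (hB : 2 ≤ B) (hk : k ≠ 0) (hx : x = (n : ℝ)) (hn : 1 ≤ n)
    (x8 : (64 * B : ℝ) ≤ x) (x9 : ((B ^ D₀ : ℕ) : ℝ) ≤ x) :
    ∃ D₁ : ℕ, D₀ ≤ D₁ ∧ (8 * x ^ k) ^ 2 ≤ (B : ℝ) ^ D₁ ∧ (B : ℝ) ^ D₁ ≤ x ^ (2 * k + 1) := by
  obtain ⟨D₁, hD₁⟩ : ∃ D₁, D₁ = Nat.clog B ((8 * n ^ k) ^ 2) := ⟨_, rfl⟩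
  have hnk : n ≤ n ^ k := Nat.le_self_pow hk n
  have hlow : (8 * n ^ k) ^ 2 ≤ B ^ D₁ := by rw [hD₁]; exact Nat.le_pow_clog (by omega) _
  have hbig : n < (8 * n ^ k) ^ 2 := by nlinarith
  have hup : B ^ D₁ ≤ B * (8 * n ^ k) ^ 2 := by
    have h1 := Nat.pow_pred_clog_lt_self (b := B) (by omega) (x := (8 * n ^ k) ^ 2) (by omega)
    have h2 : 0 < Nat.clog B ((8 * n ^ k) ^ 2) := Nat.clog_pos (by omega) (by omega)
    rw [← hD₁] at h1 h2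
    have h3 : D₁ = D₁.pred + 1 := (Nat.succ_pred_eq_of_pos h2).symm
    rw [h3, pow_succ']
    exact Nat.mul_le_mul_left _ h1.le
  refine ⟨D₁, ?_, ?_, ?_⟩
  · have h1 : B ^ D₀ ≤ n := by
      have : ((B ^ D₀ : ℕ) : ℝ) ≤ (n : ℝ) := by rw [← hx]; exact x9
      exact_mod_cast this
    exact (Nat.pow_le_pow_iff_right (by omega)).1 (h1.trans (hbig.le.trans hlow))
  · rw [hx]; exact_mod_cast hlow
  · have h1 : (B : ℝ) ^ D₁ ≤ B * (8 * x ^ k) ^ 2 := by rw [hx]; exact_mod_cast hup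
    have x0 : 0 ≤ x := by rw [hx]; exact Nat.cast_nonneg n
    calc (B : ℝ) ^ D₁ ≤ B * (8 * x ^ k) ^ 2 := h1
      _ = (64 * B) * x ^ (2 * k) := by rw [mul_pow, ← pow_mul, mul_comm k 2]; ring
      _ ≤ x * x ^ (2 * k) := mul_le_mul_of_nonneg_right x8 (by positivity)
      _ = x ^ (2 * k + 1) := by rw [pow_succ]; ring

theorem F_le {x δ : ℝ} (x1 : 1 ≤ x) (hδ0 : 0 < δ) {c₁ f m : ℕ} (hf : (f : ℝ) ≤ x ^ δ)
    (x6 : (c₁ + 2 ^ m : ℝ) ≤ x ^ (δ / 2)) : ((c₁ : ℝ) + f * 2 ^ m) ^ 2 ≤ x ^ (3 * δ) := by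
  have x0 : 0 < x := by linarith
  have hxδ : 1 ≤ x ^ δ := Real.one_le_rpow x1 hδ0.le
  have h1 : (c₁ : ℝ) + f * 2 ^ m ≤ x ^ (δ / 2) * x ^ δ := by
    have h2 : (c₁ : ℝ) ≤ c₁ * x ^ δ := le_mul_of_one_le_right (Nat.cast_nonneg _) hxδ
    have h3 : (f : ℝ) * 2 ^ m ≤ x ^ δ * 2 ^ m := mul_le_mul_of_nonneg_right hf (by positivity)
    have h4 : (c₁ + 2 ^ m : ℝ) * x ^ δ ≤ x ^ (δ / 2) * x ^ δ :=
      mul_le_mul_of_nonneg_right x6 (by positivity)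
    linarith
  calc ((c₁ : ℝ) + f * 2 ^ m) ^ 2 ≤ (x ^ (δ / 2) * x ^ δ) ^ 2 :=
        pow_le_pow_left₀ (by positivity) h1 2
    _ = x ^ (3 * δ) := by
        rw [← Real.rpow_add x0, ← Real.rpow_natCast, ← Real.rpow_mul x0.le]
        congr 1
        push_cast
        ring

end Num

/-- Row NUM: the choice of the parameters. -/
theorem num_cert {k W : ℕ} (hW : 2 ≤ W) (hWk : 2 * W < k) (d l : ℕ) {γ ε : ℝ}
    (hγ : 0 < γ) (hγ1 : γ ≤ 1) (hε : 0 < ε) (hε1 : ε ≤ 1) {B : ℕ} (hB : 2 ≤ B) (D₀ : ℕ) :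
    ∃ δ : ℝ, 0 < δ ∧ ∃ m : ℕ, 2 * (l + 1) ≤ m ∧ ∀ c₁ : ℕ, ∃ n₀ : ℕ, ∀ n ≥ n₀,
      ∀ f s t A : ℕ, (f : ℝ) ≤ (n : ℝ) ^ δ → (t : ℝ) ≤ (n : ℝ) ^ (1 - γ + δ) →
      (A : ℝ) ≤ 2 ^ ((n : ℝ) ^ (1 - γ + δ)) → (s : ℝ) < (n : ℝ) ^ (γ * (W + 1 : ℕ) - ε) →
      ∃ (T N D₁ N₁ m₀ : ℕ) (θ Λ : ℝ), 0 < N₁ ∧ N₁ * m₀ ≤ N ∧ k * T * N * 2 ^ (k * l) ≤ n ∧
        D₀ ≤ D₁ ∧ 0 < θ ∧ θ ≤ 1 / 4 ∧ 1 ≤ Λ ∧
        θ * Λ ≤ 1 / (32 * 4 ^ m) ∧ θ * Λ * (f * m) ≤ 1 / 4 ∧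
        ((k * T * N₁ : ℕ) : ℝ) * (1 - (θ ^ d) ^ (l + 1)) ^ m₀ ≤ 1 / 4 ∧
        ((c₁ : ℝ) + f * 2 ^ m) ^ 2 ≤ N₁ ∧
        ((T : ℝ) * N) ^ k * ((B : ℝ) ^ D₁) ^ (ε / (16 * k ^ 2)) / (B : ℝ) ^ D₁ +
          s * ((((B : ℝ) ^ D₁) ^ (ε / (16 * k ^ 2))) ^ (2 * W) *
          ((2 : ℝ) ^ (2 * W * (l + 1)) * (2 * W) *
            (((c₁ : ℝ) + f * 2 ^ m) ^ 2 / N₁) ^ (W + 1) +
            (((k * T + 1 : ℕ) : ℝ)) ^ (2 * W) * 2 ^ (2 * W * (l + 1)) *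
              (2 * ((s + 1) * (2 / Λ ^ m))))) < 1 ∧
        (A : ℝ) * (8 * ((((k * T + 1) ^ k * 2 ^ (l * k) : ℕ) : ℝ) + 4) ^ 2) ^ t < 4 ^ T := by
  -- the exponents
  obtain ⟨κ, hκ⟩ : ∃ κ : ℝ, κ = 2 * (d * (l + 1)) := ⟨_, rfl⟩
  have hκ0 : 0 ≤ κ := by rw [hκ]; positivity
  obtain ⟨α, hα⟩ : ∃ α : ℝ, α = min γ (ε / (4 * (W + 1))) / (κ + 2) := ⟨_, rfl⟩
  have hmin : 0 < min γ (ε / (4 * (W + 1))) := lt_min hγ (by positivity)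
  have hα0 : 0 < α := by rw [hα]; positivity
  have hακ : (κ + 2) * α = min γ (ε / (4 * (W + 1))) := by
    rw [hα]; field_simp
  have hαγ : (κ + 2) * α ≤ γ := hακ.le.trans (min_le_left _ _)
  have hαε : (W + 1 : ℝ) * ((κ + 2) * α) ≤ ε / 4 := by
    calc (W + 1 : ℝ) * ((κ + 2) * α) ≤ (W + 1) * (ε / (4 * (W + 1))) := by
          rw [hακ]
          exact mul_le_mul_of_nonneg_left (min_le_right _ _) (by positivity)
      _ = ε / 4 := by field_simp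
  obtain ⟨δ, hδ⟩ : ∃ δ : ℝ, δ = α / 8 := ⟨_, rfl⟩
  have hδ0 : 0 < δ := by rw [hδ]; positivity
  obtain ⟨μ, hμ⟩ : ∃ μ : ℝ, μ = (κ + 1) * α := ⟨_, rfl⟩
  have hμδ : 6 * δ + μ ≤ (κ + 2) * α := by rw [hδ, hμ]; linarith
  obtain ⟨ν, hν⟩ : ∃ ν : ℝ, ν = γ - 3 * δ - μ := ⟨_, rfl⟩
  have hν3 : 3 * δ ≤ ν := by linarith
  have hν0 : 0 ≤ ν := by linarith
  have hμ0 : 0 ≤ μ := by rw [hμ]; positivity
  obtain ⟨m, hm⟩ : ∃ m : ℕ, m = max (2 * (l + 1)) ⌈(8 * k + 8 : ℝ) / α⌉₊ := ⟨_, rfl⟩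
  have hm1 : 2 * (l + 1) ≤ m := by rw [hm]; exact le_max_left _ _
  have hm2 : (8 * k + 8 : ℝ) ≤ α * m := by
    have h1 : (8 * k + 8 : ℝ) / α ≤ m := by
      refine (Nat.le_ceil _).trans ?_
      rw [hm]
      exact_mod_cast le_max_right _ _
    rw [div_le_iff₀ hα0] at h1
    linarith
  refine ⟨δ, hδ0, m, hm1, fun c₁ => ?_⟩
  have hαδ : 0 < α - δ := by rw [hδ]; linarith
  -- what is needed for large `x`
  have ev : ∀ᶠ x : ℝ in atTop, 1 ≤ x ∧ 4 ≤ x ^ (2 * α) ∧ (32 * 4 ^ m : ℝ) ≤ x ^ α ∧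
      (4 * m : ℝ) ≤ x ^ (α - δ) ∧ 4 * x ≤ Real.exp (x ^ α) ∧
      (c₁ + 2 ^ m : ℝ) ≤ x ^ (δ / 2) ∧ 8 * ((k * 2 ^ (k * l) : ℕ) : ℝ) ≤ x ^ δ ∧
      (64 * B : ℝ) ≤ x ∧ ((B ^ D₀ : ℕ) : ℝ) ≤ x ∧
      4 * ((2 : ℝ) ^ (2 * W * (l + 1)) * (2 * W)) ≤ x ^ (5 * ε / 8) ∧
      4 * (8 * 2 ^ (2 * W) * 2 ^ (2 * W * (l + 1))) ≤ x ∧
      8 * ((2 : ℝ) ^ k * 2 ^ (l * k) + 4) ^ 2 ≤ x ∧
      1 + (2 * k + 1 : ℝ) * Real.logb 2 x < 2 * x ^ δ := by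
    filter_upwards [eventually_ge_atTop 1, Num.ev_pow (by positivity : 0 < 2 * α) 4,
      Num.ev_pow hα0 (32 * 4 ^ m : ℝ), Num.ev_pow hαδ (4 * m : ℝ), Num.ev_exp hα0,
      Num.ev_pow (half_pos hδ0) (c₁ + 2 ^ m : ℝ),
      Num.ev_pow hδ0 (8 * ((k * 2 ^ (k * l) : ℕ) : ℝ)), eventually_ge_atTop (64 * B : ℝ),
      eventually_ge_atTop ((B ^ D₀ : ℕ) : ℝ),
      Num.ev_pow (by positivity : 0 < 5 * ε / 8) (4 * ((2 : ℝ) ^ (2 * W * (l + 1)) * (2 * W))),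
      eventually_ge_atTop (4 * (8 * 2 ^ (2 * W) * 2 ^ (2 * W * (l + 1))) : ℝ),
      eventually_ge_atTop (8 * ((2 : ℝ) ^ k * 2 ^ (l * k) + 4) ^ 2),
      Num.ev_log hδ0 (2 * k + 1 : ℝ) (by positivity)] with x a1 a2 a3 a4 a5 a6 a7 a8 a9 a10 a11 a12 a13
    exact ⟨a1, a2, a3, a4, a5, a6, a7, a8, a9, a10, a11, a12, a13⟩
  obtain ⟨n₀, hn₀⟩ := eventually_atTop.mp (tendsto_natCast_atTop_atTop.eventually ev)
  refine ⟨n₀, fun n hn f s t A hf ht hA hs => ?_⟩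
  obtain ⟨x1, x2, x3, x4, x5, x6, x7, x8, x9, x10, x11, x12, x13⟩ := hn₀ n hn
  clear ev hn₀
  obtain ⟨x, hx⟩ : ∃ x : ℝ, x = (n : ℝ) := ⟨_, rfl⟩
  rw [← hx] at x1 x2 x3 x4 x5 x6 x7 x8 x9 x10 x11 x12 x13 hf ht hA hs
  have x0 : 0 < x := by linarith
  have hk5 : 5 ≤ k := by omega
  have hC0 : 1 ≤ k * 2 ^ (k * l) := Nat.mul_pos (by omega) (by positivity)
  -- `T` and `m₀`
  obtain ⟨T, hT⟩ : ∃ T, T = ⌈x ^ (1 - γ + 2 * δ)⌉₊ := ⟨_, rfl⟩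
  have hT1 : x ^ (1 - γ + 2 * δ) ≤ T := by rw [hT]; exact Nat.le_ceil _
  have hTp : 1 ≤ x ^ (1 - γ + 2 * δ) := Real.one_le_rpow x1 (by linarith)
  have hT2 : (T : ℝ) ≤ 2 * x ^ (1 - γ + 2 * δ) := by
    rw [hT]
    have := (Nat.ceil_lt_add_one (show 0 ≤ x ^ (1 - γ + 2 * δ) by positivity)).le
    linarith
  have hT0 : 0 < T := by
    have : (0 : ℝ) < T := by linarith
    exact_mod_cast this
  obtain ⟨m₀, hm₀⟩ : ∃ m₀, m₀ = ⌈x ^ μ⌉₊ := ⟨_, rfl⟩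
  have hm₀1 : x ^ μ ≤ m₀ := by rw [hm₀]; exact Nat.le_ceil _
  have hm₀p : 1 ≤ x ^ μ := Real.one_le_rpow x1 hμ0
  have hm₀2 : (m₀ : ℝ) ≤ 2 * x ^ μ := by
    rw [hm₀]
    have := (Nat.ceil_lt_add_one (show 0 ≤ x ^ μ by positivity)).le
    linarith
  have hm₀0 : 0 < m₀ := by
    have : (0 : ℝ) < m₀ := by linarith
    exact_mod_cast this
  -- `N` and `N₁`
  obtain ⟨N, hN⟩ : ∃ N, N = n / (k * 2 ^ (k * l) * T) := ⟨_, rfl⟩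
  obtain ⟨N₁, hN₁⟩ : ∃ N₁, N₁ = N / m₀ := ⟨_, rfl⟩
  have hN₁' : N₁ = n / (k * 2 ^ (k * l) * T * m₀) := by
    rw [hN₁, hN, Nat.div_div_eq_div_mul]
  have hNν : x ^ ν ≤ N₁ := by
    rw [hN₁']
    exact Num.N1_le x1 hν hν0 hx.symm hC0 hT0 hT2 hm₀0 hm₀2 rfl x7
  have hνp : 1 ≤ x ^ ν := Real.one_le_rpow x1 hν0
  have hN₁0 : 0 < N₁ := by
    have : (0 : ℝ) < N₁ := by linarith
    exact_mod_cast this
  have hNN : N₁ * m₀ ≤ N := by rw [hN₁]; exact Nat.div_mul_le_self _ _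
  have hNn : k * T * N * 2 ^ (k * l) ≤ n := by
    calc k * T * N * 2 ^ (k * l) = k * 2 ^ (k * l) * T * N := by ring
      _ ≤ n := by rw [hN]; exact Nat.mul_div_le _ _
  have hN0 : 0 < N := lt_of_lt_of_le (Nat.mul_pos hN₁0 hm₀0) hNN
  have hN₁N : N₁ ≤ N := le_trans (Nat.le_mul_of_pos_right _ hm₀0) hNN
  have h2kl : 1 ≤ 2 ^ (k * l) := Nat.one_le_two_pow
  have hkTN : k * T * N ≤ n := le_trans (Nat.le_mul_of_pos_right _ (by positivity)) hNn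
  have hkTN₁ : ((k * T * N₁ : ℕ) : ℝ) ≤ x := by
    rw [hx]; exact_mod_cast (Nat.mul_le_mul_left _ hN₁N).trans hkTN
  have hkT : ((k * T : ℕ) : ℝ) ≤ x := by
    rw [hx]; exact_mod_cast (Nat.le_mul_of_pos_right _ hN0).trans hkTN
  have hTN : ((T : ℝ) * N) ≤ x := by
    rw [hx]
    have : T * N ≤ n := by
      refine le_trans ?_ hkTN
      rw [mul_assoc]
      exact Nat.le_mul_of_pos_left _ (by omega)
    exact_mod_cast this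
  -- `D₁`
  have hn1 : 1 ≤ n := by
    have : (1 : ℝ) ≤ n := by rw [← hx]; exact x1
    exact_mod_cast this
  obtain ⟨D₁, hD, hlow', hup'⟩ := Num.exists_D1 hB (by omega : k ≠ 0) hx hn1 x8 x9
  have hP1 : 1 ≤ (B : ℝ) ^ D₁ := one_le_pow₀ (by exact_mod_cast (by omega : 1 ≤ B))
  -- the numbers `θ` and `Λ`
  have hθΛ : x ^ (-(2 * α)) * x ^ α = x ^ (-α) := by
    rw [← Real.rpow_add x0]; congr 1; ring
  have he1 := Num.e1_le hk5 hε1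
  have hQ := Num.part_d0 x1 (by omega) (Num.wk hWk) hε hP1 hup'
  have hQ0 : 0 ≤ (((B : ℝ) ^ D₁) ^ (ε / (16 * k ^ 2))) ^ (2 * W) := by positivity
  have hF0 : (0 : ℝ) ≤ ((c₁ : ℝ) + f * 2 ^ m) ^ 2 := by positivity
  have hF := Num.F_le x1 hδ0 hf x6
  have hFN : ((c₁ : ℝ) + f * 2 ^ m) ^ 2 ≤ N₁ :=
    hF.trans ((Real.rpow_le_rpow_of_exponent_le x1 hν3).trans hNν)
  refine ⟨T, N, D₁, N₁, m₀, x ^ (-(2 * α)), x ^ α, hN₁0, hNN, hNn, hD, by positivity, ?_,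
    Real.one_le_rpow x1 hα0.le, ?_, ?_, ?_, hFN, ?_, ?_⟩
  · rw [Real.rpow_neg x0.le, ← one_div]
    exact one_div_le_one_div_of_le (by norm_num) x2
  · rw [hθΛ, Real.rpow_neg x0.le, ← one_div]
    exact one_div_le_one_div_of_le (by positivity) x3
  · rw [hθΛ]
    calc x ^ (-α) * (f * m) ≤ x ^ (-α) * (x ^ δ * m) := by gcongr
      _ = m * x ^ (-(α - δ)) := by
          rw [show -(α - δ) = -α + δ by ring, Real.rpow_add x0]; ring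
      _ ≤ 1 / 4 := by
          rw [Real.rpow_neg x0.le, ← div_eq_mul_inv, div_le_div_iff₀ (by positivity) (by norm_num)]
          linarith
  · refine Num.part_b x1 hkTN₁ hα0 ?_ x5
    rw [← hκ, ← hμ]
    exact hm₀1
  · have p1 := Num.part_d1 x1 hlow' he1 (by positivity) hTN
    have p2 := Num.part_d2 (C₂ := (2 : ℝ) ^ (2 * W * (l + 1)) * (2 * W)) x1 hν hs.le hQ0 hQ hF0 hF
      hNν ((mul_le_mul_of_nonneg_left hμδ (by positivity)).trans hαε) (by positivity) x10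
    have p3 := Num.part_d3 (l := l) (kT1 := ((k * T + 1 : ℕ) : ℝ)) x1 hWk hγ1 hε hε1
      (Nat.cast_nonneg s) hs.le hQ0 hQ (Nat.cast_nonneg _)
      (by push_cast at hkT ⊢; linarith) hm2 x11
    rw [mul_add (((((B : ℝ) ^ D₁) ^ (ε / (16 * k ^ 2))) ^ (2 * W))), mul_add (s : ℝ)]
    linarith
  · exact Num.part_e x1 hkT ht hA hT1 x12 x13

end CliqueCert
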