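import Pool.Agent.Lib.CERT.Plant
import Pool.Agent.Lib.CERT.Hyb
import Pool.Agent.Lib.CERT.Depy
import Pool.Agent.Lib.CERT.Finc
import Pool.Agent.Lib.CERT.Num
import Pool.Agent.Lib.MP_678664_lc_AC.Main

/-!
# The main theorem
-/

open Finset

namespace CliqueCert

open SmallDepth CliqueDepth

/-- The gates of a planted instance depend on few blocks. -/
theorem gates_dep {k T N l n o W : ℕ} {Λ : Type} (φ : Vtx k T N l ↪ Fin n)
    (R : Fin k → Fin k → Λ → Λ → Prop) (L : Slot k T N → Λ) {C : Circuit (Fin n × Fin n)}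
    {G : Crd k T N l → Bool} {u : Fin k × Fin T → Fin N}
    (h : ∀ i ≤ o, tch (dep (gv C (inp φ R L) i) G (Pc l u)) ≤ W) :
    ∀ i ≤ o, ∃ B : Finset (Fin k × Fin T), B.card ≤ W ∧
      DepOn B (fun y : Fin k → Fin T × Fin l → Bool => gv C (inp φ R L) i (asg G u y)) := by
  intro i hi
  obtain ⟨B, hB, hB'⟩ := dep_asg (gv C (inp φ R L) i) G u
  exact ⟨B, hB.trans (h i hi), fun y z hyz => hB' y z hyz⟩

/-- The main theorem. -/
theorem main {k D : ℕ} (hD : 2 ≤ D) (hk : 2 * D < k) (d : ℕ) {γ ε : ℝ} (hγ : 0 < γ)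
    (hγ1 : γ ≤ 1) (hε : 0 < ε) : ∃ δ : ℝ, 0 < δ ∧ ∃ n₀ : ℕ, ∀ n ≥ n₀, ∀ f s t A : ℕ,
      (f : ℝ) ≤ (n : ℝ) ^ δ → (t : ℝ) ≤ (n : ℝ) ^ (1 - γ + δ) →
      (A : ℝ) ≤ 2 ^ ((n : ℝ) ^ (1 - γ + δ)) → HasTests n k d f s D t A →
        (n : ℝ) ^ (γ * ((k + D - 1) / D : ℕ) - ε) ≤ s := by
  classical
  obtain ⟨W, hWd⟩ : ∃ W : ℕ, W = (k - 1) / D := ⟨_, rfl⟩
  have hW2 : 2 ≤ W := by
    rw [hWd, Nat.le_div_iff_mul_le (by omega)]
    omega
  have hDW : D * W ≤ k - 1 := by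
    rw [hWd]
    exact Nat.mul_div_le _ _
  have hDWk : D * W < k := by omega
  have h2W : 2 * W < k := by
    have := Nat.mul_le_mul_right W hD
    omega
  have hexp : (k + D - 1) / D = W + 1 := by
    rw [hWd, ← Nat.add_div_right _ (by omega : 0 < D)]
    congr 1
    omega
  have hk0 : (0 : ℝ) < k := by
    have : 0 < k := by omega
    exact_mod_cast this
  obtain ⟨ε', hε'⟩ : ∃ ε' : ℝ, ε' = min ε 1 := ⟨_, rfl⟩
  have hε'0 : 0 < ε' := by rw [hε']; exact lt_min hε one_pos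
  have hε'1 : ε' ≤ 1 := by rw [hε']; exact min_le_right _ _
  have hε'2 : ε' ≤ ε := by rw [hε']; exact min_le_left _ _
  -- the number of states
  obtain ⟨l, hl⟩ : ∃ l : ℕ, (1 - (1 / 2 : ℝ) ^ (k - 1)) ^ l < (1 / 8 : ℝ) ^ (2 ^ (k - 1)) := by
    refine exists_pow_lt_of_lt_one (by positivity) ?_
    have : (0 : ℝ) < (1 / 2) ^ (k - 1) := by positivity
    linarith
  have hhalf : (0 : ℝ) ≤ 1 - (1 / 2 : ℝ) ^ (k - 1) := by
    have : (1 / 2 : ℝ) ^ (k - 1) ≤ 1 := pow_le_one₀ (by norm_num) (by norm_num)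
    linarith
  have hη : 0 < ε' / (16 * (k : ℝ) ^ 2) := by positivity
  obtain ⟨B, hB, D₀, hT⟩ := template (k := k) (by omega) hη
  obtain ⟨δ, hδ, m, hm, hnum⟩ := num_cert hW2 h2W d l hγ hγ1 hε'0 hε'1 hB D₀
  obtain ⟨K, hKd⟩ : ∃ K : ℕ, K = 2 * W * (l + 1) := ⟨_, rfl⟩
  obtain ⟨c₁, hc₁⟩ : ∃ c₁ : ℕ, c₁ = (2 ^ m + 1) ^ ((K + 1) ^ K) := ⟨_, rfl⟩
  obtain ⟨n₀, hn₀⟩ := hnum c₁
  refine ⟨δ, hδ, max n₀ 1, fun n hn f s t A hf ht hA htests => ?_⟩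
  rw [hexp]
  by_contra hcon
  push Not at hcon
  have hn1 : 1 ≤ n := (le_max_right _ _).trans hn
  have hn1' : (1 : ℝ) ≤ n := by exact_mod_cast hn1
  have hs' : (s : ℝ) < (n : ℝ) ^ (γ * (W + 1 : ℕ) - ε') := by
    refine hcon.trans_le (Real.rpow_le_rpow_of_exponent_le hn1' ?_)
    linarith
  obtain ⟨T, N, D₁, N₁, m₀, θ, Λ, hN₁, hN, hNn, hD₁, hθ0, hθ, hΛ, h1, h2, h14, ha, hsum, hfin⟩ :=
    hn₀ n ((le_max_left _ _).trans hn) f s t A hf ht hA hs'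
  obtain ⟨R, hR, hRK⟩ := hT D₁ hD₁
  obtain ⟨C, o, τ, hs, hC, hcl⟩ := htests
  -- vertices
  have hcard : Fintype.card (Vtx k T N l) ≤ Fintype.card (Fin n) := by
    rw [Fintype.card_prod, Fintype.card_prod, Fintype.card_prod, Fintype.card_fin,
      Fintype.card_fin, Fintype.card_fin, Fintype.card_fin, Fintype.card_fun, Fintype.card_fun,
      Fintype.card_bool, Fintype.card_fin, Fintype.card_fin, ← pow_mul, mul_comm l k]
    exact hNn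
  obtain ⟨φ⟩ := Function.Embedding.nonempty_of_card_le hcard
  -- labels
  have hB0 : (0 : ℝ) < B := by
    have : 0 < B := by omega
    exact_mod_cast this
  have hMc : (Fintype.card (Fin D₁ → Fin B) : ℝ) = (B : ℝ) ^ D₁ := by
    rw [Fintype.card_fun, Fintype.card_fin, Fintype.card_fin]
    push_cast
    rfl
  have hM0 : (0 : ℝ) < (B : ℝ) ^ D₁ := by positivity
  have hM1 : (1 : ℝ) ≤ (B : ℝ) ^ D₁ := by
    refine one_le_pow₀ ?_
    have : 1 ≤ B := by omega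
    exact_mod_cast this
  have hM : 0 < Fintype.card (Fin D₁ → Fin B) := by
    have h3 : (0 : ℝ) < (Fintype.card (Fin D₁ → Fin B) : ℝ) := by rw [hMc]; exact hM0
    exact_mod_cast h3
  obtain ⟨β, hβd⟩ : ∃ β : ℝ, β = ((B : ℝ) ^ D₁) ^ (ε' / (16 * (k : ℝ) ^ 2)) := ⟨_, rfl⟩
  have hβ1 : 1 ≤ β := by
    rw [hβd]
    exact Real.one_le_rpow hM1 hη.le
  have hβ : (Fintype.card (Fin D₁ → Fin B) : ℝ) ^ (k - 1) ≤ β * (Kc R).card := by
    rw [hMc, hβd, card_Kc]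
    exact hRK
  have hθd0 : 0 < θ ^ d := pow_pos hθ0 d
  have hθd1 : θ ^ d ≤ 1 := pow_le_one₀ hθ0.le (by linarith)
  have hΛ0 : 0 < Λ := by linarith
  obtain ⟨ε₁, hε₁⟩ : ∃ ε₁ : ℝ, ε₁ = ((s : ℝ) + 1) * (2 / Λ ^ m) := ⟨_, rfl⟩
  have hε₁0 : 0 < ε₁ := by rw [hε₁]; positivity
  have hAa : ((asize (2 * W * (l + 1)) (2 ^ m) f : ℕ) : ℝ) = (c₁ : ℝ) + f * 2 ^ m := by
    rw [hc₁, hKd]
    unfold asize
    push_cast
    ring
  obtain ⟨G, u, κ, L, hκ, hG, hex, hdep⟩ := planted (k := k) (T := T) (N := N) (l := l) (n := n)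
    (Λ := Fin D₁ → Fin B) (d := d) (f := f) (s := s) (o := o) (m := m) (W := W) (N₁ := N₁)
    (m₀ := m₀) h2W hW2 hN₁ hN hM φ hR hs hC hβ1 hβ (q := θ ^ d) (p := (1 - θ ^ d) / 2)
    hθd0.le (by linarith) (by linarith) hε₁0 (by
      intro a ha'
      have ha'' : IsLoc m a := fun e => (ha' e).mono hm
      refine (prob_good' ha'' (fun i hi => (hC i hi).2) (by linarith)
        (lpar hθ0 hθ hΛ h1 h2) hθ0.le d).trans ?_
      rw [hε₁]
      refine mul_le_mul_of_nonneg_right ?_ (by positivity)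
      have h3 : ((sizeL C o d : ℕ) : ℝ) ≤ s := by exact_mod_cast (sizeL_le C o d).trans hs
      linarith) h14 (by
      have h3 : ((asize (2 * W * (l + 1)) (2 ^ m) f : ℕ) : ℝ) ^ 2 ≤ (N₁ : ℝ) := by
        rw [hAa]
        exact ha
      exact_mod_cast h3) (by
      rw [hAa, hMc, hβd, hε₁]
      exact hsum)
  -- the tests
  have hfc := final_count (k := k) (T := T) (l := l) (o := o) (D := D) (t := t) (W := W) (A := A)
    (by omega) hDWk (fun y i => gv C (inp φ R (plc L u κ univ)) i (asg G u y))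
    (gates_dep φ R (plc L u κ univ) hdep) τ (by
      intro y
      rw [← grc_asg (by omega) φ L hκ G u hex y]
      exact hcl _) (x := (1 / 8 : ℝ) ^ T) (by positivity) (by
      rw [mul_comm T l, pow_mul, ← pow_mul (1 / 8 : ℝ), mul_comm T, pow_mul]
      exact pow_le_pow_left₀ (by positivity) hl.le T)
  have h8 : (2 : ℝ) ^ T * (1 / 8) ^ T * 4 ^ T = 1 := by
    rw [← mul_pow, ← mul_pow]
    norm_num
  obtain ⟨Z, hZ⟩ : ∃ Z : ℝ, Z = (A : ℝ) *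
      (8 * ((((k * T + 1) ^ k * 2 ^ (l * k) : ℕ) : ℝ) + 4) ^ 2) ^ t := ⟨_, rfl⟩
  rw [← hZ] at hfin
  have h9 : (2 : ℝ) ^ T * (A *
      ((8 * ((((k * T + 1) ^ k * 2 ^ (l * k) : ℕ) : ℝ) + 4) ^ 2) ^ t * (1 / 8 : ℝ) ^ T)) =
      (2 ^ T * (1 / 8) ^ T) * Z := by
    rw [hZ]
    ring
  rw [h9] at hfc
  have h10 : (0 : ℝ) < 2 ^ T * (1 / 8) ^ T := by positivity
  have h11 : (2 : ℝ) ^ T * (1 / 8) ^ T * Z < 2 ^ T * (1 / 8) ^ T * 4 ^ T :=
    mul_lt_mul_of_pos_left hfin h10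
  linarith

end CliqueCert
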