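import Pool.Agent.Lib.CERT.Eqn
import Pool.Agent.Lib.CERT.Ineqr

/-!
# PROJECT CERT, row PASS: the tests on products of gates of few planted units
-/

open Finset

namespace CliqueCert

open SmallDepth CliqueDepth

variable {k : ℕ}

private theorem indC_and' (p q : Prop) : indC (p ∧ q) = indC p * indC q := by
  unfold indC
  by_cases hp : p <;> by_cases hq : q
  · rw [ind_true (show p ∧ q from ⟨hp, hq⟩), ind_true hp, ind_true hq]; simp
  · rw [ind_false (show ¬ (p ∧ q) from fun h => hq h.2), ind_false hq]; simp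
  · rw [ind_false (show ¬ (p ∧ q) from fun h => hp h.1), ind_false hp]; simp
  · rw [ind_false (show ¬ (p ∧ q) from fun h => hp h.1), ind_false hp]; simp

/-- Row PASS (assembly): from EQN, INEQR, MISS. -/
theorem cyl_passes {T l o D t W : ℕ} (hD : D * W < k)
    (v : (Fin k → Fin T × Fin l → Bool) → ℕ → Prop)
    (hv : ∀ i ≤ o, ∃ B : Finset (Fin k × Fin T), B.card ≤ W ∧ DepOn B (fun y => v y i))
    (τ : Test t) {B₀ : ℝ} (hB₀ : 0 ≤ B₀)
    (h1 : Cyl (fun _ : Fin k → Fin T × Fin l → Bool => 1) B₀) :
    Cyl (fun y => indC (τ.Passes o D (v y)))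
      ((8 * ((((k * T + 1) ^ k * 2 ^ (l * k) : ℕ) : ℝ) + 4) ^ 2) ^ t * B₀) := by
  classical
  set s : Finset (Finset ℕ) := (range (o + 1)).powerset.filter fun S => S.card ≤ D with hs
  set P : Finset ℕ → (Fin k → Fin T × Fin l → Bool) → Prop := fun S y => ∀ i ∈ S, v y i with hP
  set A : ℝ := 8 * ((((k * T + 1) ^ k * 2 ^ (l * k) : ℕ) : ℝ) + 4) ^ 2 with hA
  have hA0 : 0 ≤ A := by positivity
  have hdep : ∀ S ∈ s, ∃ B : Finset (Fin k × Fin T), B.card < k ∧ DepOn B (P S) := by
    intro S hS
    rw [hs, mem_filter, mem_powerset] at hS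
    choose! B hB1 hB2 using hv
    refine ⟨S.biUnion B, ?_, ?_⟩
    · refine lt_of_le_of_lt (card_biUnion_le_card_mul S B W fun i hi => hB1 i ?_) ?_
      · have := hS.1 hi
        rw [mem_range] at this
        omega
      · exact lt_of_le_of_lt (Nat.mul_le_mul_right W hS.2) hD
    · intro y z hyz
      simp only [hP]
      refine forall₂_congr fun i hi => ?_
      have hi' : i ≤ o := by
        have := hS.1 hi
        rw [mem_range] at this
        omega
      exact hB2 i hi' y z fun b hb => hyz b (mem_biUnion.2 ⟨i, hi, hb⟩)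
  have hmiss : ∀ S ∈ s, ∃ j, Misses (P S) j := by
    intro S hS
    obtain ⟨B, hB, hdB⟩ := hdep S hS
    exact hdB.misses hB
  have hts : ∀ {M : Type} [AddCommMonoid M] (c : Finset ℕ → M) (y),
      ∑ S ∈ trueSets o D (v y), c S = gsum s (fun S => P S y) c := by
    intro M _ c y
    unfold gsum trueSets
    refine sum_congr ?_ fun _ _ => rfl
    ext S
    simp only [hs, hP, mem_filter, mem_powerset]
    tauto
  have key : ∀ J : Finset (Fin t), Cyl (fun y => indC (gsum s (fun S => P S y) τ.c = τ.b ∧
      ∀ j ∈ J, τ.θ j ≤ gsum s (fun S => P S y) (τ.w j))) (A ^ J.card * B₀) := by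
    intro J
    induction J using Finset.induction_on with
    | empty =>
      have h2 := Cyl.eqn h1 s P hmiss τ.c τ.b
      simpa using h2
    | insert j J hj ih =>
      have h2 := Cyl.ineq_real (mul_nonneg (pow_nonneg hA0 _) hB₀) ih s P hdep (τ.w j) (τ.θ j)
      rw [card_insert_of_notMem hj, pow_succ]
      have h3 : A ^ J.card * A * B₀ = A * (A ^ J.card * B₀) := by ring
      rw [h3]
      refine Eq.subst (motive := fun F => Cyl F (A * (A ^ J.card * B₀))) ?_ h2
      funext y
      rw [← indC_and']
      congr 1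
      apply propext
      simp only [mem_insert, forall_eq_or_imp]
      tauto
  have h4 := key univ
  rw [card_univ, Fintype.card_fin] at h4
  refine Eq.subst (motive := fun F => Cyl F (A ^ t * B₀)) ?_ h4
  funext y
  congr 1
  apply propext
  unfold Test.Passes
  rw [hts]
  simp only [hts, mem_univ, true_implies]

end CliqueCert
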