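import Pool.Agent.Lib.CERT.Base

/-! # Row SUMU -/

set_option autoImplicit false

open Finset

namespace CliqueCert

open SmallDepth CliqueDepth

variable {k T N l n : ℕ} {Λ : Type}

/-- Row SUMU, part 1. -/
theorem mem_Kc [Fintype Λ] {R : Fin k → Fin k → Λ → Λ → Prop} {κ : Fin k → Λ} :
    κ ∈ Kc R ↔ IsCl R κ := by
  classical
  unfold Kc
  simp

/-- Row SUMU, part 2. -/
theorem mem_Kp [Fintype Λ] {R : Fin k → Fin k → Λ → Λ → Prop} {κ : Fin T → Fin k → Λ} :
    κ ∈ Kp T R ↔ ∀ r, IsCl R (κ r) := by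
  classical
  unfold Kp
  rw [Fintype.mem_piFinset]
  exact forall_congr' fun r => mem_Kc

/-- Row SUMU, part 3. -/
theorem card_Kp [Fintype Λ] (R : Fin k → Fin k → Λ → Λ → Prop) :
    (Kp T R).card = (Kc R).card ^ T := by
  classical
  unfold Kp
  rw [Fintype.card_piFinset, prod_const, card_univ, Fintype.card_fin]

/-- Row SUMU, part 5. -/
theorem card_Kc [Fintype Λ] (R : Fin k → Fin k → Λ → Λ → Prop) :
    ((Kc R).card : ℝ) = Nat.card {κ : Fin k → Λ // IsCl R κ} := by
  classical
  unfold Kc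
  rw [Nat.card_eq_fintype_card, Fintype.card_subtype]

/-- Row SUMU, part 4. -/
theorem sum_update_Kp [Fintype Λ] (R : Fin k → Fin k → Λ → Λ → Prop) (r : Fin T)
    (f : (Fin T → Fin k → Λ) → ℝ) :
    ((Kc R).card : ℝ) * ∑ κ ∈ Kp T R, f κ =
      ∑ κ ∈ Kp T R, ∑ c ∈ Kc R, f (Function.update κ r c) := by
  classical
  have key : ∀ q : (Fin T → Fin k → Λ) × (Fin k → Λ), q ∈ Kp T R ×ˢ Kc R →
      (Function.update q.1 r q.2, q.1 r) ∈ Kp T R ×ˢ Kc R := by
    rintro ⟨κ, c⟩ hq
    rw [mem_product, mem_Kp, mem_Kc] at hq ⊢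
    refine ⟨fun r' => ?_, hq.1 r⟩
    by_cases h : r' = r
    · subst h
      show IsCl R (Function.update κ r' c r')
      rw [Function.update_self]
      exact hq.2
    · show IsCl R (Function.update κ r c r')
      rw [Function.update_of_ne h]
      exact hq.1 r'
  have hinv : ∀ q : (Fin T → Fin k → Λ) × (Fin k → Λ),
      (Function.update (Function.update q.1 r q.2) r (q.1 r), Function.update q.1 r q.2 r) =
        q := by
    rintro ⟨κ, c⟩
    refine Prod.ext ?_ ?_
    · show Function.update (Function.update κ r c) r (κ r) = κ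
      rw [Function.update_idem, Function.update_eq_self]
    · show Function.update κ r c r = c
      rw [Function.update_self]
  have h1 : ((Kc R).card : ℝ) * ∑ κ ∈ Kp T R, f κ =
      ∑ q ∈ Kp T R ×ˢ Kc R, f q.1 := by
    rw [sum_product, mul_sum]
    refine sum_congr rfl fun κ _ => ?_
    show _ = ∑ _c ∈ Kc R, f κ
    rw [sum_const, nsmul_eq_mul]
  rw [h1, ← sum_product']
  refine sum_nbij' (fun q => (Function.update q.1 r q.2, q.1 r))
    (fun q => (Function.update q.1 r q.2, q.1 r)) key key (fun q _ => hinv q) (fun q _ => hinv q) ?_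
  rintro ⟨κ, c⟩ _
  show f κ = f (Function.update (Function.update κ r c) r (κ r))
  rw [Function.update_idem, Function.update_eq_self]

end CliqueCert
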