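import Pool.Agent.Lib.CERT.Cross
import Pool.Agent.Lib.CERT.Loc
import Pool.Agent.Lib.CERT.Lab
import Pool.Agent.Lib.CERT.Sumu
import Pool.Agent.Lib.CERT.Typ
import Pool.Agent.Lib.CERT.Extra
import Pool.Agent.Lib.CERT.Evc
import Pool.Agent.Lib.CERT.Cardx
import Pool.Agent.Lib.CERT.Live

/-!
# Row PLANT: a planted instance for which every gate depends on few planted units
-/

open Finset

namespace CliqueCert

open SmallDepth CliqueDepth

variable {k T N l n : ℕ} {Λ : Type}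

/-- There is a planted instance for which every gate depends on at most `W` planted units. -/
theorem planted {d f s o m W N₁ m₀ : ℕ} (hk : 2 * W < k) (hW : 2 ≤ W) (hN₁ : 0 < N₁)
    (hN : N₁ * m₀ ≤ N) [Fintype Λ] (hM : 0 < Fintype.card Λ) (φ : Vtx k T N l ↪ Fin n)
    {R : Fin k → Fin k → Λ → Λ → Prop} (hR : Uniq R) {C : Circuit (Fin n × Fin n)}
    (hs : C.size o ≤ s) (hC : ∀ i ≤ o, C.depth i ≤ d ∧ (C i).wires ≤ f)
    {β : ℝ} (hβ1 : 1 ≤ β) (hβ : (Fintype.card Λ : ℝ) ^ (k - 1) ≤ β * (Kc R).card)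
    {q p : ℝ} (hq0 : 0 ≤ q) (hp : 0 ≤ p) (hqp : q + p ≤ 1) {ε₁ : ℝ} (hε₁ : 0 < ε₁)
    (hG : ∀ a : (Crd k T N l → Bool) → Fin n × Fin n → Prop, IsLoc (2 * (l + 1)) a →
      Ex (fun _ : Crd k T N l => q) (fun _ => p) (fun ρ => ind (¬ Good C a o m d ρ)) ≤ ε₁)
    (h14 : ((k * T * N₁ : ℕ) : ℝ) * (1 - q ^ (l + 1)) ^ m₀ ≤ 1 / 4)
    (hA : asize (2 * W * (l + 1)) (2 ^ m) f ^ 2 ≤ N₁)
    (hsum : ((T : ℝ) * N) ^ k * β / Fintype.card Λ + s * (β ^ (2 * W) *
      ((2 : ℝ) ^ (2 * W * (l + 1)) * (2 * W) *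
        (((asize (2 * W * (l + 1)) (2 ^ m) f : ℕ) : ℝ) ^ 2 / N₁) ^ (W + 1) +
        (((k * T + 1 : ℕ) : ℝ)) ^ (2 * W) * 2 ^ (2 * W * (l + 1)) * (2 * ε₁))) < 1) :
    ∃ (G : Crd k T N l → Bool) (u : Fin k × Fin T → Fin N) (κ : Fin T → Fin k → Λ)
      (L : Slot k T N → Λ), (∀ r, IsCl R (κ r)) ∧ (∀ S ∈ Pc l u, G S = false) ∧
      ¬ Extc R (plc L u κ univ) G u ∧
      ∀ i ≤ o, tch (dep (gv C (inp φ R (plc L u κ univ)) i) G (Pc l u)) ≤ W := by
  classical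
  obtain ⟨M, hMd⟩ : ∃ M : ℝ, M = (Fintype.card Λ : ℝ) := ⟨_, rfl⟩
  have hM0 : 0 < M := by rw [hMd]; exact_mod_cast hM
  obtain ⟨U, hUd⟩ : ∃ U : ℝ, U = (Fintype.card (Slot k T N → Λ) : ℝ) := ⟨_, rfl⟩
  have hU0 : 0 < U := by
    rw [hUd, Fintype.card_fun]
    positivity
  have hKc0 : 0 < ((Kc R).card : ℝ) := by
    rcases Nat.eq_zero_or_pos (Kc R).card with h | h
    · exfalso
      rw [h, ← hMd] at hβ
      have : 0 < M ^ (k - 1) := by positivity
      push_cast at hβ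
      linarith
    · exact_mod_cast h
  obtain ⟨Q, hQd⟩ : ∃ Q : ℝ, Q = ((Kc R).card : ℝ) ^ T := ⟨_, rfl⟩
  have hQ0 : 0 < Q := by rw [hQd]; positivity
  have hKpc : ((Kp T R).card : ℝ) = Q := by
    rw [card_Kp, hQd]
    push_cast
    rfl
  obtain ⟨K, hKd⟩ : ∃ K : ℕ, K = 2 * W * (l + 1) := ⟨_, rfl⟩
  obtain ⟨E, hEd⟩ : ∃ E : ℝ, E = (2 : ℝ) ^ (2 * W * (l + 1)) * (2 * W) *
        (((asize (2 * W * (l + 1)) (2 ^ m) f : ℕ) : ℝ) ^ 2 / N₁) ^ (W + 1) := ⟨_, rfl⟩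
  obtain ⟨Y, hYd⟩ : ∃ Y : ℝ, Y = (((k * T + 1 : ℕ) : ℝ)) ^ (2 * W) * 2 ^ (2 * W * (l + 1)) :=
    ⟨_, rfl⟩
  have hE0 : 0 ≤ E := by rw [hEd]; positivity
  have hY0 : 0 ≤ Y := by rw [hYd]; positivity
  rw [← hEd, ← hYd, ← hMd] at hsum
  -- the restriction
  obtain ⟨ρ, hρ1, hρ2⟩ := exists_live (k := k) (T := T) (N := N) (l := l) hq0 hp hqp hN h14
    (F := fun ρ => (∑ L : Slot k T N → Λ, ind (¬ Good C (inp φ R L) o m d ρ)) / U)
    (e := ε₁) (fun ρ => div_nonneg (sum_nonneg fun L _ => ind_nonneg _) hU0.le) hε₁ (by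
      have e1 : Ex (fun _ : Crd k T N l => q) (fun _ => p)
          (fun ρ => (∑ L : Slot k T N → Λ, ind (¬ Good C (inp φ R L) o m d ρ)) / U) =
          U⁻¹ * ∑ L : Slot k T N → Λ, Ex (fun _ : Crd k T N l => q) (fun _ => p)
            (fun ρ => ind (¬ Good C (inp φ R L) o m d ρ)) := by
        rw [← Ex_sum, ← Ex_mul]
        refine Ex_congr fun ρ => ?_
        rw [div_eq_inv_mul]
      rw [e1]
      have e2 : ∑ L : Slot k T N → Λ, Ex (fun _ : Crd k T N l => q) (fun _ => p)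
            (fun ρ => ind (¬ Good C (inp φ R L) o m d ρ)) ≤ U * ε₁ := by
        refine (sum_le_sum fun L _ => hG _ (inp_loc φ R L)).trans (le_of_eq ?_)
        rw [sum_const, card_univ, nsmul_eq_mul, hUd]
      calc _ ≤ U⁻¹ * (U * ε₁) := mul_le_mul_of_nonneg_left e2 (by positivity)
        _ = ε₁ := by field_simp)
  have hρ3 : ∑ L : Slot k T N → Λ, ind (¬ Good C (inp φ R L) o m d ρ) ≤ U * (2 * ε₁) := by
    rw [div_le_iff₀ hU0] at hρ2
    linarith
  set 𝒰 := Fintype.piFinset (live ρ) with h𝒰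
  have h𝒰0 : 0 < (𝒰.card : ℝ) := by
    rw [h𝒰, Fintype.card_piFinset]
    push_cast
    refine prod_pos fun b _ => ?_
    exact_mod_cast hN₁.trans_le (hρ1 b)
  set I := (range (o + 1)).filter fun i => (C i).counts = true with hI
  have hIs : (I.card : ℝ) ≤ s := by
    have : I.card ≤ s := hs
    exact_mod_cast this
  by_contra hcon
  -- one instance
  have key : ∀ u ∈ 𝒰, ∀ κ ∈ Kp T R, ∀ L : Slot k T N → Λ, (1 : ℝ) ≤
      ind (Extc R (plc L u κ univ) (tr ρ) u) + ∑ i ∈ I, ∑ X ∈ med k T l W,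
        ind (Ev C (inp φ R (plc L u κ (bls X))) K (tr ρ) (Qc X u) i) := by
    intro u hu κ hκ L
    have hs0 : 0 ≤ ∑ i ∈ I, ∑ X ∈ med k T l W,
        ind (Ev C (inp φ R (plc L u κ (bls X))) K (tr ρ) (Qc X u) i) :=
      sum_nonneg fun i _ => sum_nonneg fun X _ => ind_nonneg _
    by_cases hex : Extc R (plc L u κ univ) (tr ρ) u
    · rw [ind_true hex]
      linarith
    by_contra hlt
    rw [ind_false hex, zero_add, not_le] at hlt
    have hGf : ∀ S ∈ Pc l u, tr ρ S = false := by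
      intro S hS
      obtain ⟨e, -, rfl⟩ := mem_image.1 hS
      have h1 : u e.1 ∈ live ρ e.1 := Fintype.mem_piFinset.1 hu e.1
      unfold live at h1
      rw [mem_filter] at h1
      unfold tr
      rw [h1.2 e.2]
      rfl
    have hno : ∀ i ∈ I, ∀ X ∈ med k T l W,
        ¬ Ev C (inp φ R (plc L u κ univ)) K (tr ρ) (Qc X u) i := by
      intro i hi X hX hev
      have hev' := (ev_planted φ R L u κ hGf X).1 hev
      have h1 : ind (Ev C (inp φ R (plc L u κ (bls X))) K (tr ρ) (Qc X u) i) ≤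
          ∑ i ∈ I, ∑ X ∈ med k T l W,
            ind (Ev C (inp φ R (plc L u κ (bls X))) K (tr ρ) (Qc X u) i) := by
        refine le_trans ?_ (single_le_sum (f := fun i => ∑ X ∈ med k T l W,
          ind (Ev C (inp φ R (plc L u κ (bls X))) K (tr ρ) (Qc X u) i))
          (fun i _ => sum_nonneg fun X _ => ind_nonneg _) hi)
        exact single_le_sum (f := fun X =>
          ind (Ev C (inp φ R (plc L u κ (bls X))) K (tr ρ) (Qc X u) i))
          (fun X _ => ind_nonneg _) hX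
      rw [ind_true hev'] at h1
      linarith
    refine hcon ⟨tr ρ, u, κ, L, mem_Kp.1 hκ, hGf, hex, fun i hi => ?_⟩
    refine small_dep_card (C := C) (a := inp φ R (plc L u κ univ)) (o := o) (d := d) (K := K)
      hGf tch_mono tch_union (by simp [tch]) (w := W)
      (fun e => (inp_tch φ R _ e _ _).trans hW) ?_ ?_ i hi (hC i hi).1
    · intro Q' hQ' h1
      obtain ⟨X, rfl⟩ := exists_Qc hQ'
      rw [tch_Qc] at h1
      refine (card_Qc X u).trans ?_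
      rw [hKd, mul_comm]
      exact Nat.mul_le_mul_right _ h1
    · intro j hj hcnt _ Q' hQ' h1 h2 hev
      obtain ⟨X, rfl⟩ := exists_Qc hQ'
      rw [tch_Qc] at h1 h2
      refine hno j ?_ X ?_ hev
      · rw [hI, mem_filter, mem_range]
        exact ⟨by omega, hcnt⟩
      · unfold med
        rw [mem_filter]
        exact ⟨mem_univ _, h1, h2⟩
  -- the sum over all instances
  have hsum2 : (𝒰.card : ℝ) * (Q * U) ≤
      ∑ u ∈ 𝒰, (∑ κ ∈ Kp T R, ∑ L : Slot k T N → Λ, ind (Extc R (plc L u κ univ) (tr ρ) u)) +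
      ∑ i ∈ I, ∑ u ∈ 𝒰, ∑ X ∈ med k T l W, ∑ κ ∈ Kp T R, ∑ L : Slot k T N → Λ,
        ind (Ev C (inp φ R (plc L u κ (bls X))) K (tr ρ) (Qc X u) i) := by
    have h1 : (𝒰.card : ℝ) * (Q * U) =
        ∑ _u ∈ 𝒰, ∑ _κ ∈ Kp T R, ∑ _L : Slot k T N → Λ, (1 : ℝ) := by
      rw [sum_const, sum_const, sum_const, card_univ, nsmul_eq_mul, nsmul_eq_mul, nsmul_eq_mul,
        mul_one, hKpc, hUd]
    rw [h1]
    refine (sum_le_sum fun u hu => sum_le_sum fun κ hκ => sum_le_sum fun L _ =>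
      key u hu κ hκ L).trans (le_of_eq ?_)
    have sw : ∀ {α : Type} (t : Finset α)
        (g : α → ℕ → Finset ((Fin k × Fin T) × Option (Fin l)) → ℝ),
        ∑ a ∈ t, ∑ i ∈ I, ∑ X ∈ med k T l W, g a i X =
          ∑ i ∈ I, ∑ X ∈ med k T l W, ∑ a ∈ t, g a i X := by
      intro α t g
      rw [sum_comm]
      exact sum_congr rfl fun i _ => sum_comm
    simp only [sum_add_distrib]
    congr 1
    rw [sum_comm (s := I) (t := 𝒰)]
    refine sum_congr rfl fun u _ => ?_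
    rw [← sw]
    exact sum_congr rfl fun κ _ => sw _ _
  -- the first error
  have hA1 : ∑ u ∈ 𝒰, (∑ κ ∈ Kp T R, ∑ L : Slot k T N → Λ,
      ind (Extc R (plc L u κ univ) (tr ρ) u)) ≤
      𝒰.card * (((T : ℝ) * N) ^ k * β / M * (Q * U)) := by
    have h1 : ∀ u ∈ 𝒰, ∑ κ ∈ Kp T R, ∑ L : Slot k T N → Λ,
        ind (Extc R (plc L u κ univ) (tr ρ) u) ≤ ((T : ℝ) * N) ^ k * β / M * (Q * U) := by
      intro u _
      have h2 := sum_extc (by omega) hR u (tr ρ) hβ1 hβ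
      rw [← hMd, ← hUd, ← hQd] at h2
      rw [div_mul_eq_mul_div, le_div_iff₀ hM0]
      linarith
    refine (sum_le_sum h1).trans (le_of_eq ?_)
    rw [sum_const, nsmul_eq_mul]
  -- the second error
  have hB1 : ∀ i ∈ I, ∑ u ∈ 𝒰, ∑ X ∈ med k T l W, ∑ κ ∈ Kp T R, ∑ L : Slot k T N → Λ,
      ind (Ev C (inp φ R (plc L u κ (bls X))) K (tr ρ) (Qc X u) i) ≤
      𝒰.card * (β ^ (2 * W) * (E + Y * (2 * ε₁)) * (Q * U)) := by
    intro i hi
    rw [hI, mem_filter, mem_range] at hi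
    have hio : i ≤ o := by omega
    have h1 : ∀ u ∈ 𝒰, ∀ X ∈ med k T l W, ∑ κ ∈ Kp T R, ∑ L : Slot k T N → Λ,
        ind (Ev C (inp φ R (plc L u κ (bls X))) K (tr ρ) (Qc X u) i) ≤
        Q * β ^ (2 * W) * ∑ L : Slot k T N → Λ,
          ind (Ev C (inp φ R L) K (tr ρ) (Qc X u) i) := by
      intro u _ X hX
      unfold med at hX
      rw [mem_filter] at hX
      refine (typical_many hR (J := bls X) (by omega) u hβ1 hβ
        (F := fun L => ind (Ev C (inp φ R L) K (tr ρ) (Qc X u) i)) fun L => ind_nonneg _).trans ?_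
      rw [← hQd]
      refine mul_le_mul_of_nonneg_right ?_ (sum_nonneg fun L _ => ind_nonneg _)
      exact mul_le_mul_of_nonneg_left (pow_le_pow_right₀ hβ1 hX.2.2) hQ0.le
    have h2 : ∀ L : Slot k T N → Λ, ∑ u ∈ 𝒰, ∑ X ∈ med k T l W,
        ind (Ev C (inp φ R L) K (tr ρ) (Qc X u) i) ≤
        E * 𝒰.card + 𝒰.card * Y * ind (¬ Good C (inp φ R L) o m d ρ) := by
      intro L
      by_cases hg : Good C (inp φ R L) o m d ρ
      · rw [ind_false (not_not.2 hg), mul_zero, add_zero, hKd, hEd]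
        exact count_ev hg hio (hC i hio).1 (hC i hio).2 (by omega) hN₁ hρ1 hA
      · rw [ind_true hg, mul_one]
        have h3 : ∑ u ∈ 𝒰, ∑ X ∈ med k T l W,
            ind (Ev C (inp φ R L) K (tr ρ) (Qc X u) i) ≤ 𝒰.card * Y := by
          refine (sum_le_sum fun u _ => sum_le_sum fun X _ => ind_le_one _).trans ?_
          rw [sum_const, sum_const, nsmul_eq_mul, nsmul_eq_mul, mul_one]
          refine mul_le_mul_of_nonneg_left ?_ h𝒰0.le
          rw [hYd]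
          exact card_med k T l W
        have : 0 ≤ E * 𝒰.card := mul_nonneg hE0 h𝒰0.le
        linarith
    have h4 : ∑ u ∈ 𝒰, ∑ X ∈ med k T l W, ∑ L : Slot k T N → Λ,
        ind (Ev C (inp φ R L) K (tr ρ) (Qc X u) i) ≤
        U * 𝒰.card * (E + Y * (2 * ε₁)) := by
      have e1 : ∑ u ∈ 𝒰, ∑ X ∈ med k T l W, ∑ L : Slot k T N → Λ,
          ind (Ev C (inp φ R L) K (tr ρ) (Qc X u) i) =
          ∑ L : Slot k T N → Λ, ∑ u ∈ 𝒰, ∑ X ∈ med k T l W,
            ind (Ev C (inp φ R L) K (tr ρ) (Qc X u) i) := by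
        rw [sum_comm (s := (univ : Finset (Slot k T N → Λ)))]
        exact sum_congr rfl fun u _ => sum_comm
      rw [e1]
      refine (sum_le_sum fun L _ => h2 L).trans ?_
      rw [sum_add_distrib, sum_const, card_univ, nsmul_eq_mul, ← mul_sum, ← hUd]
      have h5 := mul_le_mul_of_nonneg_left hρ3 (mul_nonneg h𝒰0.le hY0)
      linarith
    calc _ ≤ ∑ u ∈ 𝒰, ∑ X ∈ med k T l W, Q * β ^ (2 * W) * ∑ L : Slot k T N → Λ,
          ind (Ev C (inp φ R L) K (tr ρ) (Qc X u) i) :=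
          sum_le_sum fun u hu => sum_le_sum fun X hX => h1 u hu X hX
      _ = Q * β ^ (2 * W) * ∑ u ∈ 𝒰, ∑ X ∈ med k T l W, ∑ L : Slot k T N → Λ,
          ind (Ev C (inp φ R L) K (tr ρ) (Qc X u) i) := by
          rw [mul_sum]
          exact sum_congr rfl fun u _ => (mul_sum _ _ _).symm
      _ ≤ Q * β ^ (2 * W) * (U * 𝒰.card * (E + Y * (2 * ε₁))) :=
          mul_le_mul_of_nonneg_left h4 (by positivity)
      _ = _ := by ring
  have hB2 : ∑ i ∈ I, ∑ u ∈ 𝒰, ∑ X ∈ med k T l W, ∑ κ ∈ Kp T R, ∑ L : Slot k T N → Λ,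
      ind (Ev C (inp φ R (plc L u κ (bls X))) K (tr ρ) (Qc X u) i) ≤
      s * (𝒰.card * (β ^ (2 * W) * (E + Y * (2 * ε₁)) * (Q * U))) := by
    refine (sum_le_sum hB1).trans ?_
    rw [sum_const, nsmul_eq_mul]
    refine mul_le_mul_of_nonneg_right hIs ?_
    positivity
  have hfin : (𝒰.card : ℝ) * (Q * U) ≤ 𝒰.card * (Q * U) *
      (((T : ℝ) * N) ^ k * β / M + s * (β ^ (2 * W) * (E + Y * (2 * ε₁)))) := by
    refine hsum2.trans ((add_le_add hA1 hB2).trans (le_of_eq ?_))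
    ring
  have hpos : 0 < (𝒰.card : ℝ) * (Q * U) := by positivity
  have := mul_lt_mul_of_pos_left hsum hpos
  linarith

end CliqueCert
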